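import Pool.Agent.H248.ID.Defs

set_option autoImplicit false
open MeasureTheory Metric Set Filter Topology
open scoped ENNReal NNReal ContDiff

namespace H248.ID.J09a


/-! ### auxiliary lemmas for L9a -/

theorem moll_integrable {n : ℕ} {u : E n → ℝ} (hu : Integrable u) (ψ : ContDiffBump (0 : E n))
    (x : E n) : Integrable (fun y => ψ.normed volume (x - y) * u y) := by
  have hcont : Continuous fun y => ψ.normed volume (x - y) :=
    ψ.continuous_normed.comp (continuous_const.sub continuous_id)
  obtain ⟨C, hC⟩ := ψ.hasCompactSupport_normed (μ := volume) |>.exists_bound_of_continuous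
    ψ.continuous_normed
  exact hu.bdd_mul hcont.aestronglyMeasurable (Eventually.of_forall fun y => hC (x - y))

theorem moll_contr {n : ℕ} {u : E n → ℝ} (hu : Integrable u) (ψ : ContDiffBump (0 : E n)) :
    ∫⁻ x, ‖∫ y, ψ.normed volume (x - y) * u y‖ₑ ≤ ∫⁻ y, ‖u y‖ₑ := by
  have hψ : ∫⁻ x, ‖ψ.normed (volume : Measure (E n)) x‖ₑ = 1 := by
    have h1 : ∀ x, ‖ψ.normed (volume : Measure (E n)) x‖ₑ =
        ENNReal.ofReal (ψ.normed volume x) := by
      intro x
      rw [Real.enorm_of_nonneg (ψ.nonneg_normed x)]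
    simp_rw [h1]
    rw [← ofReal_integral_eq_lintegral_ofReal ψ.integrable_normed
      (Eventually.of_forall ψ.nonneg_normed), ψ.integral_normed, ENNReal.ofReal_one]
  calc ∫⁻ x, ‖∫ y, ψ.normed volume (x - y) * u y‖ₑ
      ≤ ∫⁻ x, ∫⁻ y, ‖ψ.normed volume (x - y) * u y‖ₑ :=
        lintegral_mono fun x => enorm_integral_le_lintegral_enorm _
    _ = ∫⁻ y, ∫⁻ x, ‖ψ.normed volume (x - y) * u y‖ₑ := by
        apply lintegral_lintegral_swap
        have h1 : AEStronglyMeasurable (fun p : E n × E n => u p.2) (volume.prod volume) :=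
          hu.aestronglyMeasurable.comp_snd
        have h2 : AEStronglyMeasurable (fun p : E n × E n => ψ.normed volume (p.1 - p.2))
            (volume.prod volume) :=
          (ψ.continuous_normed.comp (continuous_fst.sub continuous_snd)).aestronglyMeasurable
        exact (h2.mul h1).enorm
    _ = ∫⁻ y, ‖u y‖ₑ := by
        congr 1
        funext y
        have h1 : ∀ x, ‖ψ.normed volume (x - y) * u y‖ₑ = ‖ψ.normed volume (x - y)‖ₑ * ‖u y‖ₑ :=
          fun x => enorm_mul _ _
        simp_rw [h1]
        rw [lintegral_mul_const'' _ (by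
          exact (ψ.continuous_normed.comp
            (continuous_id.sub continuous_const)).aestronglyMeasurable.enorm)]
        rw [lintegral_sub_right_eq_self (fun x => ‖ψ.normed volume x‖ₑ) y, hψ, one_mul]

theorem moll_conv {n : ℕ} (u : E n → ℝ) (ψ : ContDiffBump (0 : E n)) (x : E n) :
    ∫ y, ψ.normed volume (x - y) * u y =
      (MeasureTheory.convolution (ψ.normed volume) u (ContinuousLinearMap.lsmul ℝ ℝ) volume) x := by
  rw [MeasureTheory.convolution_def]
  rw [← integral_sub_left_eq_self (fun t => ψ.normed volume (x - t) * u t) volume x]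
  congr 1
  funext t
  simp

theorem moll_cc {n : ℕ} {v : E n → ℝ} (hv : Continuous v) (hvc : HasCompactSupport v)
    (φ : ℕ → ContDiffBump (0 : E n)) (hφ : Tendsto (fun k => (φ k).rOut) atTop (𝓝 0)) :
    Tendsto (fun k => ∫⁻ x, ‖(∫ y, (φ k).normed volume (x - y) * v y) - v x‖ₑ) atTop (𝓝 0) := by
  rw [ENNReal.tendsto_nhds_zero]
  intro ε hε
  set K : Set (E n) := cthickening 1 (tsupport v) with hK
  have hKc : IsCompact K := IsCompact.cthickening hvc
  have hKm : volume K < ⊤ := hKc.measure_lt_top
  obtain ⟨δ', hδ', hδε⟩ : ∃ δ' : ℝ, 0 < δ' ∧ ENNReal.ofReal δ' * volume K ≤ ε := by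
    rcases eq_or_ne ε ⊤ with h | h
    · exact ⟨1, one_pos, by rw [h]; exact le_top⟩
    · refine ⟨ε.toReal / ((volume K).toReal + 1), ?_, ?_⟩
      · apply div_pos (ENNReal.toReal_pos hε.ne' h)
        positivity
      · rw [← ENNReal.ofReal_toReal hKm.ne, ← ENNReal.ofReal_mul (by positivity)]
        conv_rhs => rw [← ENNReal.ofReal_toReal h]
        apply ENNReal.ofReal_le_ofReal
        rw [ENNReal.toReal_ofReal ENNReal.toReal_nonneg]
        rw [div_mul_eq_mul_div, div_le_iff₀ (by positivity)]
        apply mul_le_mul_of_nonneg_left _ ENNReal.toReal_nonneg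
        linarith
  have huc : UniformContinuous v := hvc.uniformContinuous_of_continuous hv
  obtain ⟨δ, hδ, hδv⟩ := Metric.uniformContinuous_iff.1 huc δ' hδ'
  have hev : ∀ᶠ k in atTop, (φ k).rOut < min δ 1 :=
    (tendsto_order.1 hφ).2 _ (lt_min hδ one_pos)
  filter_upwards [hev] with k hk
  have hpt : ∀ x, ‖(∫ y, (φ k).normed volume (x - y) * v y) - v x‖ ≤ δ' := by
    intro x
    rw [moll_conv, ← dist_eq_norm]
    apply ContDiffBump.dist_normed_convolution_le hv.aestronglyMeasurable
    intro y hy
    apply le_of_lt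
    apply hδv
    rw [mem_ball] at hy
    exact hy.trans (hk.trans_le (min_le_left _ _))
  have hout : ∀ x, x ∉ K → (∫ y, (φ k).normed volume (x - y) * v y) - v x = 0 := by
    intro x hx
    have hvx : v x = 0 := by
      by_contra h
      exact hx (self_subset_cthickening _ (subset_tsupport v h))
    have hint : ∀ y, (φ k).normed volume (x - y) * v y = 0 := by
      intro y
      by_contra h
      have h1 : (φ k).normed volume (x - y) ≠ 0 := left_ne_zero_of_mul h
      have h2 : v y ≠ 0 := right_ne_zero_of_mul h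
      have h3 : x - y ∈ ball (0 : E n) (φ k).rOut := by
        rw [← (φ k).support_normed_eq (μ := volume)]
        exact h1
      apply hx
      apply mem_cthickening_of_dist_le x y 1 _ (subset_tsupport v h2)
      rw [mem_ball, dist_zero_right] at h3
      rw [dist_eq_norm]
      exact (h3.trans (hk.trans_le (min_le_right _ _))).le
    rw [hvx, sub_zero]
    simp_rw [hint]
    simp
  calc ∫⁻ x, ‖(∫ y, (φ k).normed volume (x - y) * v y) - v x‖ₑ
      ≤ ∫⁻ x, K.indicator (fun _ => ENNReal.ofReal δ') x := by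
        apply lintegral_mono
        intro x
        simp only
        by_cases hx : x ∈ K
        · rw [indicator_of_mem hx, ← ofReal_norm]
          exact ENNReal.ofReal_le_ofReal (hpt x)
        · rw [hout x hx]
          simp
    _ = ENNReal.ofReal δ' * volume K := by
        rw [lintegral_indicator_const hKc.measurableSet]
    _ ≤ ε := hδε

theorem moll_l1 {n : ℕ} {H : E n → ℝ} (hH : Integrable H)
    (φ : ℕ → ContDiffBump (0 : E n)) (hφ : Tendsto (fun k => (φ k).rOut) atTop (𝓝 0)) :
    Tendsto (fun k => ∫⁻ x, ‖(∫ y, (φ k).normed volume (x - y) * H y) - H x‖ₑ) atTop (𝓝 0) := by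
  rw [ENNReal.tendsto_nhds_zero]
  intro ε hε
  have hε3 : ε / 3 ≠ 0 := by
    rw [Ne, ENNReal.div_eq_zero_iff]
    push Not
    exact ⟨hε.ne', by norm_num⟩
  obtain ⟨v, hvc, hvε, hv, hvi⟩ := hH.exists_hasCompactSupport_lintegral_sub_le hε3
  have hev := (ENNReal.tendsto_nhds_zero.1 (moll_cc hv hvc φ hφ)) (ε / 3) (pos_iff_ne_zero.2 hε3)
  filter_upwards [hev] with k hk
  have hlin : ∀ x, (∫ y, (φ k).normed volume (x - y) * H y) - H x =
      (∫ y, (φ k).normed volume (x - y) * (H y - v y)) +
        (((∫ y, (φ k).normed volume (x - y) * v y) - v x) + (v x - H x)) := by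
    intro x
    have : (∫ y, (φ k).normed volume (x - y) * (H y - v y)) =
        (∫ y, (φ k).normed volume (x - y) * H y) - ∫ y, (φ k).normed volume (x - y) * v y := by
      rw [← integral_sub (moll_integrable hH (φ k) x) (moll_integrable hvi (φ k) x)]
      congr 1
      funext y
      ring
    rw [this]
    ring
  have hmeas : ∀ u : E n → ℝ, Integrable u →
      Measurable fun x => ∫ y, (φ k).normed volume (x - y) * u y := by
    intro u hu
    have : (fun x => ∫ y, (φ k).normed volume (x - y) * u y) =
        (MeasureTheory.convolution ((φ k).normed volume) u (ContinuousLinearMap.lsmul ℝ ℝ)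
          volume) := by
      funext x
      exact moll_conv u (φ k) x
    rw [this]
    exact ((φ k).hasCompactSupport_normed.continuous_convolution_left _
      (φ k).continuous_normed hu.locallyIntegrable).measurable
  calc ∫⁻ x, ‖(∫ y, (φ k).normed volume (x - y) * H y) - H x‖ₑ
      ≤ ∫⁻ x, (‖∫ y, (φ k).normed volume (x - y) * (H y - v y)‖ₑ +
        (‖(∫ y, (φ k).normed volume (x - y) * v y) - v x‖ₑ + ‖v x - H x‖ₑ)) := by
        apply lintegral_mono
        intro x
        simp only
        rw [hlin x]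
        refine (enorm_add_le _ _).trans ?_
        gcongr
        exact enorm_add_le _ _
    _ = (∫⁻ x, ‖∫ y, (φ k).normed volume (x - y) * (H y - v y)‖ₑ) +
        ((∫⁻ x, ‖(∫ y, (φ k).normed volume (x - y) * v y) - v x‖ₑ) + (∫⁻ x, ‖v x - H x‖ₑ)) := by
        rw [lintegral_add_left (hmeas (fun y => H y - v y) (hH.sub hvi)).enorm,
          lintegral_add_left (f := fun x =>
            ‖(∫ y, (φ k).normed volume (x - y) * v y) - v x‖ₑ)
            ((hmeas _ hvi).sub hv.measurable).enorm]
    _ ≤ ε / 3 + (ε / 3 + ε / 3) := by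
        refine add_le_add ?_ (add_le_add hk ?_)
        · refine (moll_contr (u := fun y => H y - v y) (hH.sub hvi) (φ k)).trans ?_
          exact hvε
        · refine le_trans (le_of_eq ?_) hvε
          congr 1
          funext x
          rw [enorm_sub_rev]
    _ = ε := by
        rw [← add_assoc]
        exact ENNReal.add_thirds ε



/-- L9a. Mollifications of an integrable function are dominated along a subsequence. -/
theorem moll_dom {n : ℕ} {H : E n → ℝ} (hH : Integrable H) (hH0 : ∀ x, 0 ≤ H x)
    (φ : ℕ → ContDiffBump (0 : E n)) (hφ : Tendsto (fun k => (φ k).rOut) atTop (𝓝 0)) :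
    ∃ κ : ℕ → ℕ, StrictMono κ ∧ ∃ Φ : E n → ℝ, Integrable Φ ∧
      ∀ᵐ x, ∀ k, ∫ y, (φ (κ k)).normed volume (x - y) * H y ≤ Φ x := by
  have hl1 := moll_l1 hH φ hφ
  rw [ENNReal.tendsto_nhds_zero] at hl1
  obtain ⟨κ, hκ, hκb⟩ := Filter.extraction_forall_of_eventually
    (fun j : ℕ => hl1 ((2:ℝ≥0∞)⁻¹ ^ j) (by
      apply ENNReal.pow_pos
      exact ENNReal.inv_pos.2 (by norm_num)))
  refine ⟨κ, hκ, ?_⟩
  set F : ℕ → E n → ℝ≥0∞ := fun j x =>
    ‖(∫ y, (φ (κ j)).normed volume (x - y) * H y) - H x‖ₑ with hF
  have hmeas : ∀ j, AEMeasurable (F j) volume := by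
    intro j
    have : (fun x => ∫ y, (φ (κ j)).normed volume (x - y) * H y) =
        (MeasureTheory.convolution ((φ (κ j)).normed volume) H (ContinuousLinearMap.lsmul ℝ ℝ)
          volume) := by
      funext x
      exact moll_conv H (φ (κ j)) x
    have h1 : Continuous (fun x => ∫ y, (φ (κ j)).normed volume (x - y) * H y) := by
      rw [this]
      exact ((φ (κ j)).hasCompactSupport_normed.continuous_convolution_left _
        (φ (κ j)).continuous_normed hH.locallyIntegrable)
    exact (h1.aestronglyMeasurable.sub hH.aestronglyMeasurable).enorm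
  have hsum : (∫⁻ x, ∑' j, F j x) ≠ ⊤ := by
    rw [lintegral_tsum hmeas]
    refine ne_top_of_le_ne_top ?_ (ENNReal.tsum_le_tsum hκb)
    rw [ENNReal.tsum_geometric]
    simp
  refine ⟨fun x => H x + (∑' j, F j x).toReal, hH.add ?_, ?_⟩
  · exact integrable_toReal_of_lintegral_ne_top (AEMeasurable.tsum hmeas) hsum
  · have hfin := ae_lt_top' (AEMeasurable.tsum hmeas) hsum
    filter_upwards [hfin] with x hx k
    have h1 : F k x ≤ ∑' j, F j x := ENNReal.le_tsum k
    have h2 : ‖(∫ y, (φ (κ k)).normed volume (x - y) * H y) - H x‖ ≤ (∑' j, F j x).toReal := by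
      have := ENNReal.toReal_mono hx.ne h1
      simpa [hF] using this
    have h3 := (Real.le_norm_self _).trans h2
    linarith


end H248.ID.J09a

namespace H248.ID

export J09a (moll_dom)

end H248.ID
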