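import Pool.Agent.H248.ID.Defs

set_option autoImplicit false
open MeasureTheory Metric Set Filter Topology
open scoped ENNReal NNReal ContDiff

namespace H248.ID.J01


lemma pd_contDiff {n : ℕ} {u : E n → ℝ} (hu : ContDiff ℝ ∞ u) (j : Fin n) :
    ContDiff ℝ ∞ (pd u j) := by
  unfold pd
  exact (hu.fderiv_right (m := ∞) (by simp)).clm_apply contDiff_const

lemma pd_supp {n : ℕ} {u : E n → ℝ} (hu : HasCompactSupport u) (j : Fin n) :
    HasCompactSupport (pd u j) := by
  have h1 : HasCompactSupport (fderiv ℝ u) := hu.fderiv ℝ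
  refine HasCompactSupport.mono h1 ?_
  intro z hz
  rw [Function.mem_support] at hz ⊢
  intro h0
  apply hz
  unfold pd
  rw [h0]
  simp

lemma pd_comm {n : ℕ} {u : E n → ℝ} (hu : ContDiff ℝ ∞ u) (a b : Fin n) (x : E n) :
    pd (pd u a) b x = pd (pd u b) a x := by
  have h1 : ContDiff ℝ ∞ (fderiv ℝ u) := hu.fderiv_right (m := ∞) (by simp)
  have hd : DifferentiableAt ℝ (fderiv ℝ u) x := h1.differentiable (by simp) x
  have h2 : ∀ a b : Fin n, pd (pd u a) b x
      = fderiv ℝ (fderiv ℝ u) x (Pi.single b 1) (Pi.single a 1) := by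
    intro a b
    unfold pd
    have h3 := hd.hasFDerivAt.clm_apply (hasFDerivAt_const (Pi.single a (1 : ℝ) : E n) x)
    rw [h3.fderiv]
    simp
  rw [h2, h2]
  exact (hu.contDiffAt.isSymmSndFDerivAt (by simp only [minSmoothness_of_isRCLikeNormedField]; exact WithTop.coe_le_coe.mpr le_top)) _ _

/-- the product of the entries in all rows but `i` -/
noncomputable def Gs {n : ℕ} (f : E n → E n) (i : Fin n) (σ : Equiv.Perm (Fin n)) (x : E n) : ℝ :=
  ∏ l ∈ Finset.univ.erase i, pd (fun y => f y l) (σ l) x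

lemma comp_contDiff {n : ℕ} {f : E n → E n} (hf : ContDiff ℝ ∞ f) (l : Fin n) :
    ContDiff ℝ ∞ (fun y => f y l) := (contDiff_pi.mp hf) l

lemma Gs_contDiff {n : ℕ} {f : E n → E n} (hf : ContDiff ℝ ∞ f) (i : Fin n)
    (σ : Equiv.Perm (Fin n)) : ContDiff ℝ ∞ (Gs f i σ) := by
  unfold Gs
  exact contDiff_prod fun l _ => pd_contDiff (comp_contDiff hf l) _

lemma pd_Gs {n : ℕ} {f : E n → E n} (hf : ContDiff ℝ ∞ f) (i j : Fin n)
    (σ : Equiv.Perm (Fin n)) (x : E n) :
    pd (Gs f i σ) j x = ∑ l ∈ Finset.univ.erase i,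
      (∏ k ∈ (Finset.univ.erase i).erase l, pd (fun y => f y k) (σ k) x) *
        pd (pd (fun y => f y l) (σ l)) j x := by
  have h1 : HasFDerivAt (Gs f i σ) (∑ l ∈ Finset.univ.erase i,
      (∏ k ∈ (Finset.univ.erase i).erase l, pd (fun y => f y k) (σ k) x) •
        fderiv ℝ (pd (fun y => f y l) (σ l)) x) x := by
    have h2 := HasFDerivAt.finsetProd (u := Finset.univ.erase i) (x := x)
      (g := fun l x => pd (fun y => f y l) (σ l) x)
      (g' := fun l => fderiv ℝ (pd (fun y => f y l) (σ l)) x)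
      (fun l _ => ((pd_contDiff (comp_contDiff hf l) (σ l)).differentiable (by simp) x).hasFDerivAt)
    exact h2
  rw [pd, h1.fderiv, sum_apply]
  apply Finset.sum_congr rfl
  intro l _
  rfl

lemma alg_zero {n : ℕ} {f : E n → E n} (hf : ContDiff ℝ ∞ f) (i : Fin n) (x : E n) :
    ∑ σ : Equiv.Perm (Fin n), ((Equiv.Perm.sign σ : ℤ) : ℝ) * pd (Gs f i σ) (σ i) x = 0 := by
  simp only [pd_Gs hf, Finset.mul_sum]
  rw [Finset.sum_comm]
  apply Finset.sum_eq_zero
  intro l hl
  have hli : l ≠ i := (Finset.mem_erase.mp hl).1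
  set F : Equiv.Perm (Fin n) → ℝ := fun σ => ((Equiv.Perm.sign σ : ℤ) : ℝ) *
    ((∏ k ∈ (Finset.univ.erase i).erase l, pd (fun y => f y k) (σ k) x) *
        pd (pd (fun y => f y l) (σ l)) (σ i) x) with hF
  have h1 : ∀ σ, F (σ * Equiv.swap i l) = - F σ := by
    intro σ
    simp only [hF]
    rw [Equiv.Perm.sign_mul, Equiv.Perm.sign_swap (Ne.symm hli)]
    have e1 : (σ * Equiv.swap i l) l = σ i := by simp
    have e2 : (σ * Equiv.swap i l) i = σ l := by simp
    have e3 : ∏ k ∈ (Finset.univ.erase i).erase l, pd (fun y => f y k) ((σ * Equiv.swap i l) k) x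
        = ∏ k ∈ (Finset.univ.erase i).erase l, pd (fun y => f y k) (σ k) x := by
      apply Finset.prod_congr rfl
      intro k hk
      rw [Finset.mem_erase, Finset.mem_erase] at hk
      rw [Equiv.Perm.mul_apply, Equiv.swap_apply_of_ne_of_ne hk.2.1 hk.1]
    rw [e1, e2, e3, pd_comm (comp_contDiff hf l)]
    push_cast
    ring
  have h2 : ∑ σ, F (σ * Equiv.swap i l) = ∑ σ, F σ :=
    Equiv.sum_comp (Equiv.mulRight (Equiv.swap i l)) F
  have h3 : ∑ σ, F (σ * Equiv.swap i l) = - ∑ σ, F σ := by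
    rw [← Finset.sum_neg_distrib]
    exact Finset.sum_congr rfl fun σ _ => h1 σ
  linarith



/-- L1. null Lagrangian -/
theorem null_lagrangian {n : ℕ} {f : E n → E n} (hf : ContDiff ℝ ∞ f) {h : E n → ℝ}
    (hh : ContDiff ℝ ∞ h) (hc : HasCompactSupport h) (i : Fin n) :
    ∫ x, ((jac f x).updateRow i (fun j => pd h j x)).det = 0 := by
  have hdet : ∀ x, ((jac f x).updateRow i (fun j => pd h j x)).det
      = ∑ σ : Equiv.Perm (Fin n), ((Equiv.Perm.sign σ : ℤ) : ℝ) * (pd h (σ i) x * Gs f i σ x) := by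
    intro x
    rw [← Matrix.det_transpose, Matrix.det_apply']
    apply Finset.sum_congr rfl
    intro σ _
    congr 1
    rw [← Finset.mul_prod_erase Finset.univ _ (Finset.mem_univ i)]
    congr 1
    · simp [Matrix.updateRow_self]
    · unfold Gs
      apply Finset.prod_congr rfl
      intro l hl
      rw [Matrix.transpose_apply, Matrix.updateRow_ne (Finset.mem_erase.mp hl).1]
      rfl
  simp only [hdet]
  have hi1 : ∀ (j : Fin n) (σ : Equiv.Perm (Fin n)), Integrable (fun x => pd h j x * Gs f i σ x) := by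
    intro j σ
    exact ((pd_contDiff hh j).continuous.mul (Gs_contDiff hf i σ).continuous).integrable_of_hasCompactSupport
      ((pd_supp hc j).mul_right)
  have hi2 : ∀ (j : Fin n) (σ : Equiv.Perm (Fin n)), Integrable (fun x => h x * pd (Gs f i σ) j x) := by
    intro j σ
    exact (hh.continuous.mul (pd_contDiff (Gs_contDiff hf i σ) j).continuous).integrable_of_hasCompactSupport
      (hc.mul_right)
  have hi3 : ∀ (σ : Equiv.Perm (Fin n)), Integrable (fun x => h x * Gs f i σ x) := by
    intro σ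
    exact (hh.continuous.mul (Gs_contDiff hf i σ).continuous).integrable_of_hasCompactSupport
      (hc.mul_right)
  have hibp : ∀ (j : Fin n) (σ : Equiv.Perm (Fin n)),
      ∫ x, pd h j x * Gs f i σ x = - ∫ x, h x * pd (Gs f i σ) j x := by
    intro j σ
    have h1 := integral_mul_fderiv_eq_neg_fderiv_mul_of_integrable (μ := volume)
      (v := (Pi.single j (1 : ℝ) : E n)) (hi1 j σ) (hi2 j σ) (hi3 σ)
      (fun x _ => hh.differentiable (by simp) x)
      (fun x _ => (Gs_contDiff hf i σ).differentiable (by simp) x)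
    have h2 : ∫ x, h x * pd (Gs f i σ) j x = - ∫ x, pd h j x * Gs f i σ x := h1
    rw [h2, neg_neg]
  rw [integral_finsetSum]
  · calc ∑ σ : Equiv.Perm (Fin n), ∫ x, ((Equiv.Perm.sign σ : ℤ) : ℝ) * (pd h (σ i) x * Gs f i σ x)
        = ∑ σ : Equiv.Perm (Fin n), - ∫ x, ((Equiv.Perm.sign σ : ℤ) : ℝ) * (h x * pd (Gs f i σ) (σ i) x) := by
          apply Finset.sum_congr rfl
          intro σ _
          rw [integral_const_mul, integral_const_mul, hibp]
          ring
      _ = - ∫ x, ∑ σ : Equiv.Perm (Fin n), ((Equiv.Perm.sign σ : ℤ) : ℝ) * (h x * pd (Gs f i σ) (σ i) x) := by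
          rw [integral_finsetSum, Finset.sum_neg_distrib]
          intro σ _
          exact (hi2 _ σ).const_mul _
      _ = 0 := by
          rw [neg_eq_zero]
          have h3 : ∀ x, ∑ σ : Equiv.Perm (Fin n), ((Equiv.Perm.sign σ : ℤ) : ℝ) *
              (h x * pd (Gs f i σ) (σ i) x) = 0 := by
            intro x
            have h4 := alg_zero hf i x
            calc ∑ σ : Equiv.Perm (Fin n), ((Equiv.Perm.sign σ : ℤ) : ℝ) * (h x * pd (Gs f i σ) (σ i) x)
                = h x * ∑ σ : Equiv.Perm (Fin n), ((Equiv.Perm.sign σ : ℤ) : ℝ) * pd (Gs f i σ) (σ i) x := by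
                  rw [Finset.mul_sum]
                  exact Finset.sum_congr rfl fun σ _ => by ring
              _ = 0 := by rw [h4, mul_zero]
          simp only [h3]
          simp
  · intro σ _
    exact (hi1 _ σ).const_mul _


end H248.ID.J01

namespace H248.ID

export J01 (null_lagrangian)

end H248.ID
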