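import Pool.Agent.H248.ID.Defs

set_option autoImplicit false
open MeasureTheory Metric Set Filter Topology
open scoped ENNReal NNReal ContDiff

namespace H248.ID.J03



/-! ### auxiliary results -/

open Classical in
/-- the radius used for the local injectivity -/
noncomputable def rad {n : ℕ} (A : E n →L[ℝ] E n) : ℝ≥0 :=
  if h : A.det ≠ 0 then
    (if ‖((A.toContinuousLinearEquivOfDetNeZero h).symm : E n →L[ℝ] E n)‖₊ = 0 then 1
      else ‖((A.toContinuousLinearEquivOfDetNeZero h).symm : E n →L[ℝ] E n)‖₊⁻¹ / 2)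
  else 1

theorem rad_ne {n : ℕ} (A : E n →L[ℝ] E n) : rad A ≠ 0 := by
  unfold rad
  split_ifs with h h2
  · exact one_ne_zero
  · have : ‖((A.toContinuousLinearEquivOfDetNeZero h).symm : E n →L[ℝ] E n)‖₊⁻¹ ≠ 0 :=
      inv_ne_zero h2
    exact div_ne_zero this two_ne_zero
  · exact one_ne_zero

theorem injOn_of_approx {n : ℕ} {f : E n → E n} {A : E n →L[ℝ] E n} {P : Set (E n)}
    (hA : A.det ≠ 0) (h : ApproximatesLinearOn f A P (rad A)) : InjOn f P := by
  have h' : ApproximatesLinearOn f
      ((A.toContinuousLinearEquivOfDetNeZero hA : E n ≃L[ℝ] E n) : E n →L[ℝ] E n) P (rad A) := by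
    rw [ContinuousLinearMap.coe_toContinuousLinearEquivOfDetNeZero]
    exact h
  apply h'.injOn
  rcases (A.toContinuousLinearEquivOfDetNeZero hA).subsingleton_or_nnnorm_symm_pos with h1 | h1
  · exact Or.inl h1
  · right
    unfold rad
    rw [dif_pos hA, if_neg h1.ne']
    exact half_lt_self (inv_pos.2 h1)

/-- local area formula on the set where the determinant does not vanish -/
theorem area_pos {n : ℕ} {f : E n → E n} {f' : E n → E n →L[ℝ] E n} {S : Set (E n)}
    (hS : MeasurableSet S) (hf' : ∀ x ∈ S, HasFDerivWithinAt f (f' x) S x)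
    (hdet : ∀ x ∈ S, (f' x).det ≠ 0) :
    ∃ M : E n → ℝ≥0∞, Measurable M ∧ (∀ y, M y = (⊤ : ℝ≥0∞) ∨ ∃ m : ℕ, M y = m) ∧ (S = ∅ → ∀ y, M y = 0) ∧
      Measure.map f ((volume.restrict S).withDensity (fun x => ENNReal.ofReal |(f' x).det|)) =
        volume.withDensity M := by
  classical
  rcases S.eq_empty_or_nonempty with hemp | hne
  · subst hemp
    refine ⟨fun _ => 0, measurable_const, fun y => Or.inr ⟨0, by simp⟩, fun _ _ => rfl, ?_⟩
    simp
  obtain ⟨t, A, tdisj, tmeas, tcov, tapp, tA⟩ :=
    exists_partition_approximatesLinearOn_of_hasFDerivWithinAt f S f' hf' rad rad_ne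
  have hinj : ∀ k, InjOn f (S ∩ t k) := by
    intro k
    obtain ⟨y, hy, hAy⟩ := tA hne k
    exact injOn_of_approx (by rw [hAy]; exact hdet y hy) (tapp k)
  have hPm : ∀ k, MeasurableSet (S ∩ t k) := fun k => hS.inter (tmeas k)
  have hPf : ∀ k, ∀ x ∈ S ∩ t k, HasFDerivWithinAt f (f' x) (S ∩ t k) x := fun k x hx =>
    (hf' x hx.1).mono inter_subset_left
  have hIm : ∀ k, MeasurableSet (f '' (S ∩ t k)) := fun k =>
    measurable_image_of_fderivWithin (hPm k) (hPf k) (hinj k)
  have hSU : (⋃ k, S ∩ t k) = S := by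
    rw [← inter_iUnion]
    exact inter_eq_left.2 tcov
  have hPd : Pairwise (Function.onFun Disjoint fun k => S ∩ t k) := fun i j hij =>
    (tdisj hij).mono inter_subset_right inter_subset_right
  set M : E n → ℝ≥0∞ := fun y => ∑' k, (f '' (S ∩ t k)).indicator (fun _ => 1) y with hM
  have hMm : Measurable M := Measurable.tsum fun k => measurable_const.indicator (hIm k)
  have hfae : AEMeasurable f (volume.restrict S) :=
    ContinuousOn.aemeasurable (fun x hx => (hf' x hx).continuousWithinAt) hS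
  refine ⟨M, hMm, ?_, fun h => absurd h hne.ne_empty, ?_⟩
  · intro y
    by_cases hy : M y = ⊤
    · exact Or.inl hy
    right
    have hfin : {k : ℕ | (1 : ℝ≥0∞) ≤ (f '' (S ∩ t k)).indicator (fun _ => (1 : ℝ≥0∞)) y}.Finite :=
      ENNReal.finite_const_le_of_tsum_ne_top hy one_ne_zero
    refine ⟨∑ k ∈ hfin.toFinset, (f '' (S ∩ t k)).indicator (fun _ => 1) y, ?_⟩
    have h1 : M y = ∑ k ∈ hfin.toFinset, (f '' (S ∩ t k)).indicator (fun _ => (1 : ℝ≥0∞)) y := by
      apply tsum_eq_sum
      intro k hk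
      rw [Set.Finite.mem_toFinset] at hk
      by_cases h2 : y ∈ f '' (S ∩ t k)
      · exfalso
        apply hk
        show (1 : ℝ≥0∞) ≤ (f '' (S ∩ t k)).indicator (fun _ => (1 : ℝ≥0∞)) y
        rw [indicator_of_mem h2]
      · exact indicator_of_notMem h2 _
    rw [h1, Nat.cast_sum]
    refine Finset.sum_congr rfl fun k _ => ?_
    by_cases h2 : y ∈ f '' (S ∩ t k)
    · rw [indicator_of_mem h2, indicator_of_mem h2]; simp
    · rw [indicator_of_notMem h2, indicator_of_notMem h2]; simp
  · apply Measure.ext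
    intro B hB
    have hac : (volume.restrict S).withDensity (fun x => ENNReal.ofReal |(f' x).det|) ≪
      volume.restrict S := withDensity_absolutelyContinuous _ _
    have hnull : NullMeasurableSet (f ⁻¹' B) (volume.restrict S) := hfae.nullMeasurable hB
    rw [Measure.map_apply_of_aemeasurable (hfae.mono_ac hac) hB, withDensity_apply₀ _ hnull,
      ← lintegral_indicator₀ hnull, withDensity_apply _ hB]
    have e1 : ∀ x, (f ⁻¹' B).indicator (fun x => ENNReal.ofReal |(f' x).det|) x =
        ENNReal.ofReal |(f' x).det| * B.indicator (fun _ => 1) (f x) := by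
      intro x
      by_cases hx : f x ∈ B
      · rw [indicator_of_mem (show x ∈ f ⁻¹' B from hx), indicator_of_mem hx, mul_one]
      · rw [indicator_of_notMem (show x ∉ f ⁻¹' B from hx), indicator_of_notMem hx, mul_zero]
    simp only [e1]
    have e2 : ∫⁻ x in S, ENNReal.ofReal |(f' x).det| * B.indicator (fun _ => 1) (f x) =
        ∑' k, ∫⁻ x in S ∩ t k, ENNReal.ofReal |(f' x).det| * B.indicator (fun _ => 1) (f x) := by
      conv_lhs => rw [← hSU]
      exact lintegral_iUnion hPm hPd _
    rw [e2]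
    have e3 : ∫⁻ y in B, M y = ∑' k, ∫⁻ y in B, (f '' (S ∩ t k)).indicator (fun _ => 1) y :=
      lintegral_tsum fun k => (measurable_const.indicator (hIm k)).aemeasurable
    rw [e3]
    congr 1
    funext k
    rw [← lintegral_image_eq_lintegral_abs_det_fderiv_mul volume (hPm k) (hPf k) (hinj k)
      (B.indicator fun _ => 1), lintegral_indicator hB, lintegral_indicator (hIm k),
      Measure.restrict_restrict hB, Measure.restrict_restrict (hIm k), inter_comm]

/-- the integrated form -/
theorem area_pos_integral {n : ℕ} {f : E n → E n} {f' : E n → E n →L[ℝ] E n} {S : Set (E n)}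
    (hS : MeasurableSet S) (hf' : ∀ x ∈ S, HasFDerivWithinAt f (f' x) S x)
    (hdet : ∀ x ∈ S, (f' x).det ≠ 0) (hint : IntegrableOn (fun x => (f' x).det) S) :
    ∃ N : E n → ℕ, Measurable N ∧ Integrable (fun y => (N y : ℝ)) ∧ (S = ∅ → ∀ y, N y = 0) ∧
      ∀ ψ : E n → ℝ, Measurable ψ →
        ∫ x in S, ψ (f x) * |(f' x).det| = ∫ y, ψ y * N y := by
  obtain ⟨M, hMm, hMint, hM0, hMeq⟩ := area_pos hS hf' hdet
  have hdetm : AEMeasurable (fun x => ENNReal.ofReal |(f' x).det|) (volume.restrict S) :=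
    aemeasurable_ofReal_abs_det_fderivWithin volume hS hf'
  have hfin : ∫⁻ y, M y ≠ ⊤ := by
    have h1 : (volume.withDensity M) univ = ∫⁻ y, M y := by
      rw [withDensity_apply _ MeasurableSet.univ, Measure.restrict_univ]
    have hfae : AEMeasurable f (volume.restrict S) :=
      ContinuousOn.aemeasurable (fun x hx => (hf' x hx).continuousWithinAt) hS
    have hac : (volume.restrict S).withDensity (fun x => ENNReal.ofReal |(f' x).det|) ≪
      volume.restrict S := withDensity_absolutelyContinuous _ _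
    rw [← h1, ← hMeq, Measure.map_apply_of_aemeasurable (hfae.mono_ac hac) MeasurableSet.univ,
      preimage_univ, withDensity_apply _ MeasurableSet.univ, Measure.restrict_univ]
    have h2 := hint.2
    rw [hasFiniteIntegral_iff_norm] at h2
    exact h2.ne
  have hMae : ∀ᵐ y, M y < ⊤ := ae_lt_top hMm hfin
  have hNM : ∀ y, M y < ⊤ → ((⌊(M y).toReal⌋₊ : ℕ) : ℝ) = (M y).toReal := by
    intro y hy
    rcases hMint y with h1 | ⟨m, h1⟩
    · exact absurd h1 hy.ne
    · rw [h1, ENNReal.toReal_natCast, Nat.floor_natCast]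
  have hNae : ∀ᵐ y, ((⌊(M y).toReal⌋₊ : ℕ) : ℝ) = (M y).toReal := hMae.mono hNM
  refine ⟨fun y => ⌊(M y).toReal⌋₊, Nat.measurable_floor.comp hMm.ennreal_toReal, ?_, ?_, ?_⟩
  · have h1 : Integrable (fun y => (M y).toReal) :=
      integrable_toReal_of_lintegral_ne_top hMm.aemeasurable hfin
    exact h1.congr (hNae.mono fun y hy => hy.symm)
  · intro h y
    show ⌊(M y).toReal⌋₊ = 0
    rw [hM0 h y]
    simp
  · intro ψ hψ
    have hfae : AEMeasurable f (volume.restrict S) :=
      ContinuousOn.aemeasurable (fun x hx => (hf' x hx).continuousWithinAt) hS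
    have hac : (volume.restrict S).withDensity (fun x => ENNReal.ofReal |(f' x).det|) ≪
      volume.restrict S := withDensity_absolutelyContinuous _ _
    have e1 : ∫ y, ψ y ∂(Measure.map f ((volume.restrict S).withDensity
        (fun x => ENNReal.ofReal |(f' x).det|))) = ∫ x in S, ψ (f x) * |(f' x).det| := by
      rw [integral_map (hfae.mono_ac hac) hψ.aestronglyMeasurable,
        integral_withDensity_eq_integral_toReal_smul₀ hdetm
          (Eventually.of_forall fun x => ENNReal.ofReal_lt_top)]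
      refine integral_congr_ae (Eventually.of_forall fun x => ?_)
      show (ENNReal.ofReal |(f' x).det|).toReal • ψ (f x) = ψ (f x) * |(f' x).det|
      rw [ENNReal.toReal_ofReal (abs_nonneg _), smul_eq_mul, mul_comm]
    rw [← e1, hMeq, integral_withDensity_eq_integral_toReal_smul₀ hMm.aemeasurable hMae]
    refine integral_congr_ae (hNae.mono fun y hy => ?_)
    show (M y).toReal • ψ y = ψ y * ((⌊(M y).toReal⌋₊ : ℕ) : ℝ)
    rw [hy, smul_eq_mul, mul_comm]



/-- L2. area formula with integer multiplicity -/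
theorem area_integer {n : ℕ} {f : E n → E n} {f' : E n → E n →L[ℝ] E n} {s : Set (E n)}
    (hs : MeasurableSet s) (hf' : ∀ x ∈ s, HasFDerivWithinAt f (f' x) s x)
    (hint : IntegrableOn (fun x => (f' x).det) s) :
    ∃ N : E n → ℤ, Measurable N ∧ Integrable (fun y => (N y : ℝ)) ∧
      (∀ ψ : E n → ℝ, Measurable ψ → (∃ C : ℝ, ∀ y, |ψ y| ≤ C) →
        ∫ x in s, ψ (f x) * (f' x).det = ∫ y, ψ y * N y) ∧
      ((∀ x ∈ s, 0 ≤ (f' x).det) → ∀ y, 0 ≤ N y) := by
  classical
  -- a measurable version of the derivative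
  have hf'ae : AEMeasurable f' (volume.restrict s) := aemeasurable_fderivWithin volume hs hf'
  set F' := hf'ae.mk f' with hF'
  have hF'm : Measurable F' := hf'ae.measurable_mk
  have hF'ae : f' =ᵐ[volume.restrict s] F' := hf'ae.ae_eq_mk
  set Z : Set (E n) := toMeasurable (volume.restrict s) {x | f' x ≠ F' x} with hZ
  have hZm : MeasurableSet Z := measurableSet_toMeasurable _ _
  have hZ0 : (volume.restrict s) Z = 0 := by
    rw [hZ, measure_toMeasurable]
    exact hF'ae
  have hZsub : ∀ x, x ∉ Z → f' x = F' x := by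
    intro x hx
    by_contra hne
    exact hx (subset_toMeasurable _ _ hne)
  have hdetc : Continuous (fun A : E n →L[ℝ] E n => A.det) := ContinuousLinearMap.continuous_det
  have hdm : Measurable (fun x => (F' x).det) := hdetc.measurable.comp hF'm
  set Sp : Set (E n) := (s \ Z) ∩ {x | 0 < (F' x).det} with hSp
  set Sm : Set (E n) := (s \ Z) ∩ {x | (F' x).det < 0} with hSm
  have hSpm : MeasurableSet Sp := (hs.diff hZm).inter (measurableSet_lt measurable_const hdm)
  have hSmm : MeasurableSet Sm := (hs.diff hZm).inter (measurableSet_lt hdm measurable_const)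
  have hSps : Sp ⊆ s := fun x hx => hx.1.1
  have hSms : Sm ⊆ s := fun x hx => hx.1.1
  have hpp : ∀ x ∈ Sp, 0 < (f' x).det := by
    intro x hx
    rw [hZsub x hx.1.2]
    exact hx.2
  have hmm : ∀ x ∈ Sm, (f' x).det < 0 := by
    intro x hx
    rw [hZsub x hx.1.2]
    exact hx.2
  obtain ⟨Np, Np1, Np2, Np3, Np4⟩ := area_pos_integral (f := f) (f' := f') hSpm
    (fun x hx => (hf' x (hSps hx)).mono hSps) (fun x hx => (hpp x hx).ne') (hint.mono_set hSps)
  obtain ⟨Nm, Nm1, Nm2, Nm3, Nm4⟩ := area_pos_integral (f := f) (f' := f') hSmm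
    (fun x hx => (hf' x (hSms hx)).mono hSms) (fun x hx => (hmm x hx).ne) (hint.mono_set hSms)
  refine ⟨fun y => (Np y : ℤ) - (Nm y : ℤ), ?_, ?_, ?_, ?_⟩
  · exact ((measurable_from_nat (f := fun k : ℕ => (k : ℤ))).comp Np1).sub
      ((measurable_from_nat (f := fun k : ℕ => (k : ℤ))).comp Nm1)
  · have h1 := Np2.sub Nm2
    refine h1.congr (Eventually.of_forall fun y => ?_)
    show (Np y : ℝ) - (Nm y : ℝ) = (((Np y : ℤ) - (Nm y : ℤ) : ℤ) : ℝ)
    push_cast
    ring
  · intro ψ hψ ⟨C, hC⟩
    have hfae : AEMeasurable f (volume.restrict s) :=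
      ContinuousOn.aemeasurable (fun x hx => (hf' x hx).continuousWithinAt) hs
    have hψf : AEStronglyMeasurable (fun x => ψ (f x)) (volume.restrict s) :=
      (hψ.comp_aemeasurable hfae).aestronglyMeasurable
    have hI : IntegrableOn (fun x => ψ (f x) * (f' x).det) s := by
      refine Integrable.bdd_mul (c := C) hint hψf (Eventually.of_forall fun x => ?_)
      rw [Real.norm_eq_abs]
      exact hC _
    have hdisj : Disjoint Sp Sm := by
      rw [Set.disjoint_left]
      intro x h1 h2
      have a1 : 0 < (F' x).det := h1.2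
      have a2 : (F' x).det < 0 := h2.2
      linarith
    have e1 : ∫ x in s, ψ (f x) * (f' x).det = ∫ x in Sp ∪ Sm, ψ (f x) * (f' x).det := by
      apply setIntegral_eq_of_subset_of_ae_sdiff_eq_zero hs.nullMeasurableSet
        (union_subset hSps hSms)
      have hZae : ∀ᵐ x, ¬ (x ∈ Z ∩ s) := by
        have : volume (Z ∩ s) = 0 := by
          rw [← Measure.restrict_apply hZm]; exact hZ0
        exact measure_eq_zero_iff_ae_notMem.1 this
      refine hZae.mono fun x hx hxs => ?_
      have h1 : x ∉ Z := fun h => hx ⟨h, hxs.1⟩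
      have h2 : (F' x).det = 0 := by
        by_contra hne
        apply hxs.2
        rcases lt_or_gt_of_ne hne with h3 | h3
        · exact Or.inr ⟨⟨hxs.1, h1⟩, h3⟩
        · exact Or.inl ⟨⟨hxs.1, h1⟩, h3⟩
      rw [hZsub x h1, h2, mul_zero]
    rw [e1, setIntegral_union hdisj hSmm (hI.mono_set hSps) (hI.mono_set hSms)]
    have e2 : ∫ x in Sp, ψ (f x) * (f' x).det = ∫ y, ψ y * Np y := by
      rw [← Np4 ψ hψ]
      refine setIntegral_congr_fun hSpm fun x hx => ?_
      show ψ (f x) * (f' x).det = ψ (f x) * |(f' x).det|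
      rw [abs_of_pos (hpp x hx)]
    have e3 : ∫ x in Sm, ψ (f x) * (f' x).det = - ∫ y, ψ y * Nm y := by
      rw [← Nm4 ψ hψ, ← integral_neg]
      refine setIntegral_congr_fun hSmm fun x hx => ?_
      show ψ (f x) * (f' x).det = -(ψ (f x) * |(f' x).det|)
      rw [abs_of_neg (hmm x hx)]
      ring
    have i1 : Integrable (fun y => ψ y * (Np y : ℝ)) :=
      Integrable.bdd_mul (c := C) Np2 hψ.aestronglyMeasurable
        (Eventually.of_forall fun x => by rw [Real.norm_eq_abs]; exact hC _)
    have i2 : Integrable (fun y => ψ y * (Nm y : ℝ)) :=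
      Integrable.bdd_mul (c := C) Nm2 hψ.aestronglyMeasurable
        (Eventually.of_forall fun x => by rw [Real.norm_eq_abs]; exact hC _)
    rw [e2, e3, ← sub_eq_add_neg, ← integral_sub i1 i2]
    refine integral_congr_ae (Eventually.of_forall fun y => ?_)
    show ψ y * (Np y : ℝ) - ψ y * (Nm y : ℝ) = ψ y * (((Np y : ℤ) - (Nm y : ℤ) : ℤ) : ℝ)
    push_cast
    ring
  · intro hnn y
    have hempty : Sm = ∅ := by
      rw [Set.eq_empty_iff_forall_notMem]
      intro x hx
      have a1 := hmm x hx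
      have a2 := hnn x (hSms hx)
      linarith
    show 0 ≤ (Np y : ℤ) - (Nm y : ℤ)
    rw [Nm3 hempty y]
    simp


end H248.ID.J03

namespace H248.ID

export J03 (area_integer)

end H248.ID
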