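import Pool.Agent.H248.ID.J05
import Pool.Agent.H248.ID.J12a

set_option autoImplicit false
open MeasureTheory Metric Set Filter Topology
open scoped ENNReal NNReal ContDiff

namespace H248.ID.J12b






/-! ### helper lemmas -/

namespace L13B

variable {n : ℕ}

theorem sn_nonneg (M : Matrix (Fin n) (Fin n) ℝ) : 0 ≤ sn M :=
  Finset.sum_nonneg fun _ _ => Finset.sum_nonneg fun _ _ => abs_nonneg _

theorem sn_sub_le (M N : Matrix (Fin n) (Fin n) ℝ) : sn (M - N) ≤ sn M + sn N := by
  unfold sn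
  rw [← Finset.sum_add_distrib]
  refine Finset.sum_le_sum fun i _ => ?_
  rw [← Finset.sum_add_distrib]
  refine Finset.sum_le_sum fun j _ => ?_
  rw [Matrix.sub_apply]
  exact abs_sub _ _

theorem sn_tri (M N P : Matrix (Fin n) (Fin n) ℝ) : sn (M - N) ≤ sn (M - P) + sn (N - P) := by
  have h := sn_sub_le (M - P) (N - P)
  have e : M - P - (N - P) = M - N := by abel
  rwa [e] at h

theorem tendsto_entry {M : ℕ → Matrix (Fin n) (Fin n) ℝ} {M0 : Matrix (Fin n) (Fin n) ℝ}
    (h : Tendsto M atTop (𝓝 M0)) (i j : Fin n) :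
    Tendsto (fun k => M k i j) atTop (𝓝 (M0 i j)) := by
  have h1 : Continuous (fun M : Matrix (Fin n) (Fin n) ℝ => M i j) := continuous_id.matrix_elem i j
  exact (h1.tendsto M0).comp h

theorem sn_tendsto {M : ℕ → Matrix (Fin n) (Fin n) ℝ} {M0 : Matrix (Fin n) (Fin n) ℝ}
    (h : Tendsto M atTop (𝓝 M0)) : Tendsto (fun k => sn (M k - M0)) atTop (𝓝 0) := by
  unfold sn
  have h1 : Tendsto (fun k => ∑ i, ∑ j, |(M k - M0) i j|) atTop
      (𝓝 (∑ _i : Fin n, ∑ _j : Fin n, (0 : ℝ))) := by
    refine tendsto_finsetSum _ fun i _ => tendsto_finsetSum _ fun j _ => ?_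
    have h2 := (tendsto_entry h i j).sub_const (M0 i j)
    rw [sub_self] at h2
    have h3 := h2.abs
    rw [abs_zero] at h3
    exact h3
  simpa using h1

theorem sn_tendsto' {M : ℕ → Matrix (Fin n) (Fin n) ℝ} {M0 : Matrix (Fin n) (Fin n) ℝ}
    (h : Tendsto M atTop (𝓝 M0)) : Tendsto (fun k => sn (M k)) atTop (𝓝 (sn M0)) := by
  unfold sn
  refine tendsto_finsetSum _ fun i _ => tendsto_finsetSum _ fun j _ => ?_
  exact (tendsto_entry h i j).abs

theorem toC_apply (M : Matrix (Fin n) (Fin n) ℝ) (v : E n) (i : Fin n) :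
    toC M v i = ∑ j, M i j * v j := by
  unfold toC
  simp [Matrix.mulVec, dotProduct]

theorem toC_norm (M N : Matrix (Fin n) (Fin n) ℝ) (v : E n) :
    ‖toC M v - toC N v‖ ≤ sn (M - N) * ‖v‖ := by
  rw [pi_norm_le_iff_of_nonneg (mul_nonneg (sn_nonneg _) (norm_nonneg _))]
  intro i
  rw [Pi.sub_apply, toC_apply, toC_apply, ← Finset.sum_sub_distrib]
  calc ‖∑ j, (M i j * v j - N i j * v j)‖ ≤ ∑ j, ‖M i j * v j - N i j * v j‖ := norm_sum_le _ _
    _ ≤ ∑ j, |(M - N) i j| * ‖v‖ := by
        refine Finset.sum_le_sum fun j _ => ?_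
        rw [← sub_mul, norm_mul, Real.norm_eq_abs, Matrix.sub_apply]
        exact mul_le_mul_of_nonneg_left (norm_le_pi_norm v j) (abs_nonneg _)
    _ = (∑ j, |(M - N) i j|) * ‖v‖ := by rw [Finset.sum_mul]
    _ ≤ sn (M - N) * ‖v‖ := by
        apply mul_le_mul_of_nonneg_right _ (norm_nonneg _)
        unfold sn
        exact Finset.single_le_sum (f := fun i => ∑ j, |(M - N) i j|)
          (fun i _ => Finset.sum_nonneg fun _ _ => abs_nonneg _) (Finset.mem_univ i)

theorem fderiv_sum_pd {h : E n → ℝ} {x : E n} (v : E n) :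
    fderiv ℝ h x v = ∑ j, pd h j x * v j := by
  have hv : v = ∑ j, v j • (Pi.single j (1 : ℝ) : E n) := by
    ext i
    rw [Finset.sum_apply]
    simp [Pi.single_apply]
  conv_lhs => rw [hv]
  rw [map_sum]
  refine Finset.sum_congr rfl fun j _ => ?_
  rw [map_smul, smul_eq_mul, mul_comm]
  rfl

theorem comp_diff {F : E n → E n} {x : E n} (hF : DifferentiableAt ℝ F x) (i : Fin n) :
    DifferentiableAt ℝ (fun y => F y i) x := by
  exact (differentiableAt_pi.1 hF) i

theorem fderiv_eq_toC {F : E n → E n} {x : E n} (hF : DifferentiableAt ℝ F x) :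
    fderiv ℝ F x = toC (jac F x) := by
  ext v i
  rw [toC_apply]
  have h1 : fderiv ℝ F x v i = fderiv ℝ (fun y => F y i) x v := by
    have h2 : HasFDerivAt (fun y => F y i)
        ((ContinuousLinearMap.proj i : (E n) →L[ℝ] ℝ).comp (fderiv ℝ F x)) x :=
      (ContinuousLinearMap.proj (R := ℝ) (φ := fun _ : Fin n => ℝ) i).hasFDerivAt.comp x
        hF.hasFDerivAt
    rw [h2.fderiv]
    rfl
  rw [h1, fderiv_sum_pd]
  rfl

theorem pd_cont {F : E n → ℝ} (hF : ContDiff ℝ 1 F) (j : Fin n) : Continuous (pd F j) := by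
  unfold pd
  exact (hF.continuous_fderiv (by norm_num)).clm_apply continuous_const

theorem jac_cont {F : E n → E n} (hF : ContDiff ℝ ∞ F) (i j : Fin n) :
    Continuous fun x => jac F x i j := by
  have h1 : ContDiff ℝ 1 (fun y => F y i) :=
    (contDiff_pi.1 hF i).of_le (by exact_mod_cast le_top)
  exact pd_cont h1 j

theorem sn_cont {M : E n → Matrix (Fin n) (Fin n) ℝ} (h : ∀ i j, Continuous fun x => M x i j) :
    Continuous fun x => sn (M x) := by
  unfold sn
  exact continuous_finsetSum _ fun i _ => continuous_finsetSum _ fun j _ => (h i j).abs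

theorem sn_meas {M : E n → Matrix (Fin n) (Fin n) ℝ} (h : ∀ i j, Measurable fun x => M x i j) :
    Measurable fun x => sn (M x) := by
  unfold sn
  exact Finset.measurable_sum _ fun i _ => Finset.measurable_sum _ fun j _ =>
    (h i j).abs

theorem gr_le {F G : E n → E n} (hF : ContDiff ℝ ∞ F) (hG : ContDiff ℝ ∞ G) (i : Fin n) (x : E n) :
    gr (fun y => F y i - G y i) x ≤ sn (jac F x - jac G x) := by
  have hFi : DifferentiableAt ℝ (fun y => F y i) x :=
    comp_diff (hF.differentiable (by simp) x) i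
  have hGi : DifferentiableAt ℝ (fun y => G y i) x :=
    comp_diff (hG.differentiable (by simp) x) i
  have h1 : ∀ j, pd (fun y => F y i - G y i) j x = (jac F x - jac G x) i j := by
    intro j
    unfold pd
    rw [fderiv_fun_sub hFi hGi]
    rfl
  unfold gr
  simp only [h1]
  unfold sn
  exact Finset.single_le_sum (f := fun i => ∑ j, |(jac F x - jac G x) i j|)
    (fun i _ => Finset.sum_nonneg fun _ _ => abs_nonneg _) (Finset.mem_univ i)

/-- choice of a fast subsequence -/
theorem choose_sub {f : E n → E n} {Df : E n → Matrix (Fin n) (Fin n) ℝ}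
    (hDm : ∀ i j, Measurable fun x => Df x i j) {a : E n} {R : ℝ}
    {F : ℕ → E n → E n} (hF : ∀ k, ContDiff ℝ ∞ (F k)) {Φ : E n → ℝ}
    (hΦ : IntegrableOn Φ (closedBall a R))
    (hconv : ∀ᵐ x ∂(volume.restrict (closedBall a R)),
      Tendsto (fun k => F k x) atTop (𝓝 (f x)) ∧ Tendsto (fun k => jac (F k) x) atTop (𝓝 (Df x)))
    (hdom : ∀ᵐ x ∂(volume.restrict (closedBall a R)), ∀ k, sn (jac (F k) x) ≤ Φ x) :
    ∃ κ : ℕ → ℕ, StrictMono κ ∧ ∀ k, ∫ x in closedBall a R,
      sn (jac (F (κ (k + 1))) x - jac (F (κ k)) x) ≤ (1 / 8 : ℝ) ^ k := by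
  set B := closedBall a R with hB
  have hsub : ∀ (M N : E n → Matrix (Fin n) (Fin n) ℝ), (∀ i j, Measurable fun x => M x i j) →
      (∀ i j, Measurable fun x => N x i j) → ∀ i j, Measurable fun x => (M x - N x) i j := by
    intro M N hM hN i j
    exact (hM i j).sub (hN i j)
  have hjm : ∀ k i j, Measurable fun x => jac (F k) x i j := fun k i j =>
    (jac_cont (hF k) i j).measurable
  have hbound : ∀ k, ∀ᵐ x ∂(volume.restrict B), sn (jac (F k) x - Df x) ≤ 2 * Φ x := by
    intro k
    filter_upwards [hconv, hdom] with x h1 h2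
    have h3 : sn (Df x) ≤ Φ x := le_of_tendsto' (sn_tendsto' h1.2) h2
    have h4 := sn_sub_le (jac (F k) x) (Df x)
    have h5 := h2 k
    linarith
  have hint : ∀ k, IntegrableOn (fun x => sn (jac (F k) x - Df x)) B := by
    intro k
    refine Integrable.mono' (hΦ.const_mul 2) (sn_meas (hsub _ _ (hjm k) hDm)).aestronglyMeasurable ?_
    filter_upwards [hbound k] with x hx
    rw [Real.norm_of_nonneg (sn_nonneg _)]
    exact hx
  have hlim : Tendsto (fun k => ∫ x in B, sn (jac (F k) x - Df x)) atTop (𝓝 0) := by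
    have h := tendsto_integral_of_dominated_convergence (μ := volume.restrict B)
      (F := fun k x => sn (jac (F k) x - Df x)) (f := fun _ => (0 : ℝ)) (fun x => 2 * Φ x)
      (fun k => (sn_meas (hsub _ _ (hjm k) hDm)).aestronglyMeasurable) (hΦ.const_mul 2)
      (fun k => by
        filter_upwards [hbound k] with x hx
        rw [Real.norm_of_nonneg (sn_nonneg _)]
        exact hx)
      (by
        filter_upwards [hconv] with x hx
        exact sn_tendsto hx.2)
    simpa using h
  have hev : ∀ k : ℕ, ∀ᶠ m in atTop, ∫ x in B, sn (jac (F m) x - Df x) ≤ (1 / 8 : ℝ) ^ k / 2 := by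
    intro k
    exact hlim.eventually (Iic_mem_nhds (by positivity))
  obtain ⟨κ, hκ, hκ2⟩ := extraction_forall_of_eventually hev
  refine ⟨κ, hκ, fun k => ?_⟩
  have h1 := hκ2 k
  have h2 := hκ2 (k + 1)
  have h3 : ∫ x in B, sn (jac (F (κ (k + 1))) x - jac (F (κ k)) x) ≤
      ∫ x in B, (sn (jac (F (κ (k + 1))) x - Df x) + sn (jac (F (κ k)) x - Df x)) := by
    apply integral_mono_of_nonneg (Eventually.of_forall fun x => sn_nonneg _)
      ((hint _).add (hint _))
    exact Eventually.of_forall fun x => sn_tri _ _ _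
  rw [integral_add (hint _) (hint _)] at h3
  have h4 : (1 / 8 : ℝ) ^ (k + 1) ≤ (1 / 8 : ℝ) ^ k := by
    apply pow_le_pow_of_le_one (by norm_num) (by norm_num) (by omega)
  linarith

end L13B

open L13B in
/-- L13. approximate differentiability -/
theorem approx_diff {n : ℕ} (hn : 1 ≤ n) {f : E n → E n} {Df : E n → Matrix (Fin n) (Fin n) ℝ}
    (hfm : Measurable f) (hDm : ∀ i j, Measurable fun x => Df x i j) {a : E n} {R : ℝ} (hR : 0 < R)
    {F : ℕ → E n → E n} (hF : ∀ k, ContDiff ℝ ∞ (F k)) {Φ : E n → ℝ}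
    (hΦ : IntegrableOn Φ (closedBall a R))
    (hconv : ∀ᵐ x ∂(volume.restrict (closedBall a R)),
      Tendsto (fun k => F k x) atTop (𝓝 (f x)) ∧ Tendsto (fun k => jac (F k) x) atTop (𝓝 (Df x)))
    (hdom : ∀ᵐ x ∂(volume.restrict (closedBall a R)), ∀ k, sn (jac (F k) x) ≤ Φ x) :
    ∃ A : ℕ → Set (E n), (∀ j, MeasurableSet (A j)) ∧ (∀ j, A j ⊆ closedBall a (R / 4)) ∧
      volume (closedBall a (R / 4) \ ⋃ j, A j) = 0 ∧
      ∀ j, ∀ x ∈ A j, HasFDerivWithinAt f (toC (Df x)) (A j) x := by
  classical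
  obtain ⟨κ, hκ, hκ2⟩ := choose_sub hDm hF hΦ hconv hdom
  set B := closedBall a R with hB
  have hBm : MeasurableSet B := measurableSet_closedBall
  have hBc : IsCompact B := isCompact_closedBall _ _
  set s : ℕ → E n → ℝ := fun k x => sn (jac (F (κ (k + 1))) x - jac (F (κ k)) x) with hs
  have hsc : ∀ k, Continuous (s k) := fun k => sn_cont fun i j =>
    (jac_cont (hF _) i j).sub (jac_cont (hF _) i j)
  set g : ℕ → E n → ℝ := fun k => B.indicator (s k) with hg
  have hgi : ∀ k, Integrable (g k) := fun k =>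
    (integrable_indicator_iff hBm).2 ((hsc k).continuousOn.integrableOn_compact hBc)
  have hg0 : ∀ k x, 0 ≤ g k x := fun k x => Set.indicator_nonneg (fun x _ => sn_nonneg _) x
  have hgint : ∀ k, ∫ x, g k x ≤ (1 / 8 : ℝ) ^ k := by
    intro k
    rw [hg, integral_indicator hBm]
    exact hκ2 k
  -- the bad sets
  set U : ℕ → Set (E n) := fun k => bad (g k) ((1 / 2 : ℝ) ^ k) with hU
  set V : ℕ → Set (E n) := fun k => toMeasurable volume (U k) with hV
  have hVm : ∀ k, MeasurableSet (V k) := fun k => measurableSet_toMeasurable _ _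
  have hUV : ∀ k, U k ⊆ V k := fun k => subset_toMeasurable _ _
  have hVv : ∀ k, volume (V k) ≤ ENNReal.ofReal (2 * 5 ^ n * (1 / 4 : ℝ) ^ k) := by
    intro k
    rw [hV, measure_toMeasurable]
    have h1 := bad_volume (hgi k) (hg0 k) (lam := (1 / 2 : ℝ) ^ k) (by positivity)
    refine h1.trans (ENNReal.ofReal_le_ofReal ?_)
    have h2 : ∫ x in {x | (1 / 2 : ℝ) ^ k / 2 < g k x}, g k x ≤ (1 / 8 : ℝ) ^ k :=
      (setIntegral_le_integral (hgi k) (Eventually.of_forall (hg0 k))).trans (hgint k)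
    calc 2 * 5 ^ n / (1 / 2 : ℝ) ^ k * ∫ x in {x | (1 / 2 : ℝ) ^ k / 2 < g k x}, g k x
        ≤ 2 * 5 ^ n / (1 / 2 : ℝ) ^ k * (1 / 8 : ℝ) ^ k := by gcongr
      _ = 2 * 5 ^ n * (1 / 4 : ℝ) ^ k := by
          rw [div_mul_eq_mul_div, mul_div_assoc, ← div_pow]
          norm_num
  -- the good set of convergence
  set Cs : Set (E n) := {x | Tendsto (fun k => F k x) atTop (𝓝 (f x)) ∧
    Tendsto (fun k => jac (F k) x) atTop (𝓝 (Df x))} with hCs
  set N : Set (E n) := toMeasurable (volume.restrict B) Csᶜ with hN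
  have hNm : MeasurableSet N := measurableSet_toMeasurable _ _
  have hN0 : (volume.restrict B) N = 0 := by
    rw [hN, measure_toMeasurable]
    exact hconv
  have hNC : ∀ x, x ∉ N → x ∈ Cs := by
    intro x hx
    by_contra h
    exact hx (subset_toMeasurable _ _ h)
  -- the sets A
  set A : ℕ → Set (E n) := fun M => closedBall a (R / 4) ∩ ((⋂ k, ⋂ (_ : M ≤ k), (V k)ᶜ) ∩ Nᶜ)
    with hA
  have hAm : ∀ M, MeasurableSet (A M) := fun M =>
    measurableSet_closedBall.inter ((MeasurableSet.iInter fun k => MeasurableSet.iInter fun _ =>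
      (hVm k).compl).inter hNm.compl)
  refine ⟨A, hAm, fun M => inter_subset_left, ?_, ?_⟩
  · -- full measure
    have hsum : ∑' k, volume (V k) ≠ ⊤ := by
      refine ne_top_of_le_ne_top ?_ (ENNReal.tsum_le_tsum hVv)
      rw [← ENNReal.ofReal_tsum_of_nonneg (fun k => by positivity)
        ((summable_geometric_of_lt_one (by norm_num) (by norm_num)).mul_left _)]
      exact ENNReal.ofReal_ne_top
    have hBC : volume {x | ∃ᶠ k in atTop, x ∈ V k} = 0 :=
      measure_setOfPred_frequently_eq_zero (p := fun k x => x ∈ V k) hsum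
    have hsub : closedBall a (R / 4) \ ⋃ j, A j ⊆ (N ∩ B) ∪ {x | ∃ᶠ k in atTop, x ∈ V k} := by
      rintro x ⟨hx1, hx2⟩
      by_cases hxN : x ∈ N
      · left
        refine ⟨hxN, ?_⟩
        exact closedBall_subset_closedBall (by linarith) hx1
      · right
        rw [mem_ofPred_eq, Filter.Frequently]
        intro hev
        rw [eventually_atTop] at hev
        obtain ⟨M, hM⟩ := hev
        apply hx2
        refine mem_iUnion.2 ⟨M, hx1, ?_, hxN⟩
        exact mem_iInter₂.2 fun k hk => hM k hk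
    refine measure_mono_null hsub ?_
    rw [measure_union_null_iff]
    refine ⟨?_, hBC⟩
    rw [← Measure.restrict_apply hNm]
    exact hN0
  · -- differentiability
    intro M x hx
    have hdistB : ∀ z ∈ A M, ∀ w ∈ A M, dist z w ≤ R / 2 := by
      intro z hz w hw
      have h1 : dist z a ≤ R / 4 := hz.1
      have h2 : dist w a ≤ R / 4 := hw.1
      have h3 := dist_triangle_right z w a
      linarith
    -- estimate of one step
    have hstep : ∀ k, M ≤ k → ∀ y ∈ A M, ∀ i : Fin n,
        |(F (κ (k + 1)) x i - F (κ k) x i) - (F (κ (k + 1)) y i - F (κ k) y i)| ≤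
          2 ^ (n + 1) * (1 / 2 : ℝ) ^ k * dist x y := by
      intro k hk y hy i
      have hcd : ContDiff ℝ 1 (fun y => F (κ (k + 1)) y i - F (κ k) y i) := by
        have h1 : ContDiff ℝ 1 (fun y => F (κ (k + 1)) y i) :=
          (contDiff_pi.1 (hF _) i).of_le (by exact_mod_cast le_top)
        have h2 : ContDiff ℝ 1 (fun y => F (κ k) y i) :=
          (contDiff_pi.1 (hF _) i).of_le (by exact_mod_cast le_top)
        exact h1.sub h2
      have hpt : ∀ z ∈ A M, ∀ ρ : ℝ, 0 < ρ → ρ ≤ dist x y →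
          ∫ w in closedBall z ρ, gr (fun y => F (κ (k + 1)) y i - F (κ k) y i) w ≤
            (1 / 2 : ℝ) ^ k * (2 * ρ) ^ n := by
        intro z hz ρ hρ hρ2
        have hzV : z ∉ V k := by
          have := mem_iInter₂.1 hz.2.1 k hk
          exact this
        have hzU : z ∉ U k := fun h => hzV (hUV k h)
        have h1 : ∫ w in closedBall z ρ, g k w ≤ (1 / 2 : ℝ) ^ k * (2 * ρ) ^ n := by
          by_contra hcon
          push Not at hcon
          exact hzU ⟨ρ, hρ, hcon⟩
        refine le_trans ?_ h1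
        have hzB : closedBall z ρ ⊆ B := by
          apply closedBall_subset_closedBall'
          have h2 : dist z a ≤ R / 4 := hz.1
          have h3 := hdistB x hx y hy
          linarith
        have h4 : ∫ w in closedBall z ρ, g k w = ∫ w in closedBall z ρ, s k w := by
          apply setIntegral_congr_fun measurableSet_closedBall
          intro w hw
          simp only [hg]
          rw [Set.indicator_of_mem (hzB hw)]
        rw [h4]
        apply integral_mono_of_nonneg (Eventually.of_forall fun w =>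
            Finset.sum_nonneg fun _ _ => abs_nonneg _)
          ((hsc k).continuousOn.integrableOn_compact (isCompact_closedBall _ _))
        exact Eventually.of_forall fun w => gr_le (hF _) (hF _) i w
      exact pointwise_max hn hcd (hpt x hx) (hpt y hy)
    -- sum of the steps
    have hsum : ∀ K, M ≤ K → ∀ y ∈ A M, ∀ i : Fin n, ∀ d : ℕ,
        |(F (κ (K + d)) x i - F (κ K) x i) - (F (κ (K + d)) y i - F (κ K) y i)| ≤
          2 ^ (n + 1) * (2 * (1 / 2 : ℝ) ^ K - 2 * (1 / 2 : ℝ) ^ (K + d)) * dist x y := by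
      intro K hK y hy i d
      induction d with
      | zero => simp
      | succ d ih =>
        have h1 := hstep (K + d) (by omega) y hy i
        have e1 : (F (κ (K + (d + 1))) x i - F (κ K) x i) - (F (κ (K + (d + 1))) y i - F (κ K) y i) =
            ((F (κ (K + d)) x i - F (κ K) x i) - (F (κ (K + d)) y i - F (κ K) y i)) +
            ((F (κ (K + d + 1)) x i - F (κ (K + d)) x i) -
              (F (κ (K + d + 1)) y i - F (κ (K + d)) y i)) := by
          rw [← add_assoc]
          ring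
        rw [e1]
        refine (abs_add_le _ _).trans ?_
        refine (add_le_add ih h1).trans (le_of_eq ?_)
        rw [← add_assoc, pow_succ (1 / 2 : ℝ) (K + d)]
        ring
    have hlimK : ∀ K, M ≤ K → ∀ y ∈ A M,
        ‖(f y - F (κ K) y) - (f x - F (κ K) x)‖ ≤ 2 ^ (n + 2) * (1 / 2 : ℝ) ^ K * ‖y - x‖ := by
      intro K hK y hy
      rw [pi_norm_le_iff_of_nonneg (by positivity)]
      intro i
      have hxC := hNC x hx.2.2
      have hyC := hNC y hy.2.2
      have hκt : Tendsto (fun d => κ (K + d)) atTop atTop :=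
        hκ.tendsto_atTop.comp (tendsto_add_atTop_nat K |>.congr fun d => by rw [add_comm])
      have tx : Tendsto (fun d => F (κ (K + d)) x i) atTop (𝓝 (f x i)) :=
        ((tendsto_pi_nhds.1 hxC.1) i).comp hκt
      have ty : Tendsto (fun d => F (κ (K + d)) y i) atTop (𝓝 (f y i)) :=
        ((tendsto_pi_nhds.1 hyC.1) i).comp hκt
      have t1 : Tendsto (fun d =>
          |(F (κ (K + d)) x i - F (κ K) x i) - (F (κ (K + d)) y i - F (κ K) y i)|) atTop
          (𝓝 |(f x i - F (κ K) x i) - (f y i - F (κ K) y i)|) :=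
        ((tx.sub_const _).sub (ty.sub_const _)).abs
      have h1 : |(f x i - F (κ K) x i) - (f y i - F (κ K) y i)| ≤
          2 ^ (n + 2) * (1 / 2 : ℝ) ^ K * dist x y := by
        refine le_of_tendsto' t1 fun d => (hsum K hK y hy i d).trans ?_
        have h2 : 0 ≤ (1 / 2 : ℝ) ^ (K + d) := by positivity
        have h3 : (2 : ℝ) ^ (n + 1) * (2 * (1 / 2 : ℝ) ^ K - 2 * (1 / 2 : ℝ) ^ (K + d)) ≤
            2 ^ (n + 2) * (1 / 2 : ℝ) ^ K := by
          have h4 : (2 : ℝ) ^ (n + 2) = 2 ^ (n + 1) * 2 := by rw [pow_succ]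
          rw [h4, mul_assoc]
          apply mul_le_mul_of_nonneg_left _ (by positivity)
          linarith
        exact mul_le_mul_of_nonneg_right h3 dist_nonneg
      rw [Pi.sub_apply, Pi.sub_apply, Pi.sub_apply, Real.norm_eq_abs, abs_sub_comm,
        ← dist_eq_norm, dist_comm]
      exact h1
    -- conclusion
    rw [hasFDerivWithinAt_iff_isLittleO, Asymptotics.isLittleO_iff]
    intro ε hε
    have hxC := hNC x hx.2.2
    have tj : Tendsto (fun K => sn (jac (F (κ K)) x - Df x)) atTop (𝓝 0) :=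
      (sn_tendsto hxC.2).comp hκ.tendsto_atTop
    have tp : Tendsto (fun K : ℕ => 2 ^ (n + 2) * (1 / 2 : ℝ) ^ K) atTop (𝓝 0) := by
      have := (tendsto_pow_atTop_nhds_zero_of_lt_one (by norm_num : (0 : ℝ) ≤ 1 / 2)
        (by norm_num)).const_mul ((2 : ℝ) ^ (n + 2))
      simpa using this
    obtain ⟨K, hK1, hK2, hK3⟩ := ((tj.eventually (Iic_mem_nhds (show (0 : ℝ) < ε / 3 by positivity))).and
      ((tp.eventually (Iic_mem_nhds (show (0 : ℝ) < ε / 3 by positivity))).and
        (eventually_ge_atTop M))).exists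
    have hd : DifferentiableAt ℝ (F (κ K)) x := (hF (κ K)).differentiable (by simp) x
    have hd2 := hd.hasFDerivAt.isLittleO.def (show (0 : ℝ) < ε / 3 by positivity)
    rw [fderiv_eq_toC hd] at hd2
    rw [eventually_nhdsWithin_iff]
    filter_upwards [hd2] with y hy hyA
    have e1 := hlimK K hK3 y hyA
    have e2 := toC_norm (jac (F (κ K)) x) (Df x) (y - x)
    have e3 : f y - f x - (toC (Df x)) (y - x) = ((f y - F (κ K) y) - (f x - F (κ K) x)) +
        ((F (κ K) y - F (κ K) x - (toC (jac (F (κ K)) x)) (y - x)) +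
        (toC (jac (F (κ K)) x) (y - x) - toC (Df x) (y - x))) := by abel
    rw [e3]
    refine (norm_add_le _ _).trans ?_
    have e4 := norm_add_le (F (κ K) y - F (κ K) x - (toC (jac (F (κ K)) x)) (y - x))
      (toC (jac (F (κ K)) x) (y - x) - toC (Df x) (y - x))
    have hn0 := norm_nonneg (y - x)
    have e5 : 2 ^ (n + 2) * (1 / 2 : ℝ) ^ K * ‖y - x‖ ≤ ε / 3 * ‖y - x‖ :=
      mul_le_mul_of_nonneg_right hK2 hn0
    have e6 : sn (jac (F (κ K)) x - Df x) * ‖y - x‖ ≤ ε / 3 * ‖y - x‖ :=
      mul_le_mul_of_nonneg_right hK1 hn0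
    linarith


end H248.ID.J12b

namespace H248.ID

export J12b (approx_diff)

end H248.ID
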