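import Pool.Agent.H248.ID.Defs

set_option autoImplicit false
open MeasureTheory Metric Set Filter Topology
open scoped ENNReal NNReal ContDiff

namespace H248.ID.J20




/-- M1 -/
theorem entry_le_norm {n : ℕ} (M : Matrix (Fin n) (Fin n) ℝ) (i j : Fin n) :
    |M i j| ≤ ‖Matrix.toEuclideanCLM (𝕜 := ℝ) M‖ := by
  have h1 : ‖(Matrix.toEuclideanCLM (𝕜 := ℝ) M) (EuclideanSpace.single j (1 : ℝ))‖ ≤
      ‖Matrix.toEuclideanCLM (𝕜 := ℝ) M‖ := by
    have := (Matrix.toEuclideanCLM (𝕜 := ℝ) M).le_opNorm (EuclideanSpace.single j (1 : ℝ))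
    simpa using this
  have h2 : ‖((Matrix.toEuclideanCLM (𝕜 := ℝ) M) (EuclideanSpace.single j (1 : ℝ))) i‖ ≤
      ‖(Matrix.toEuclideanCLM (𝕜 := ℝ) M) (EuclideanSpace.single j (1 : ℝ))‖ :=
    PiLp.norm_apply_le _ i
  have h3 : ((Matrix.toEuclideanCLM (𝕜 := ℝ) M) (EuclideanSpace.single j (1 : ℝ))) i = M i j := by
    have h4 : (Matrix.toEuclideanCLM (𝕜 := ℝ) M) (EuclideanSpace.single j (1 : ℝ))
        = WithLp.toLp 2 (M.mulVec (Pi.single j 1)) := by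
      exact Matrix.toEuclideanCLM_toLp M (Pi.single j 1)
    rw [h4]
    simp
  rw [h3, Real.norm_eq_abs] at h2
  exact h2.trans h1

theorem abs_le_sn {n : ℕ} (M : Matrix (Fin n) (Fin n) ℝ) (i j : Fin n) : |M i j| ≤ sn M := by
  unfold sn
  calc |M i j| ≤ ∑ j, |M i j| :=
        Finset.single_le_sum (f := fun j => |M i j|) (fun _ _ => abs_nonneg _) (Finset.mem_univ j)
    _ ≤ ∑ i, ∑ j, |M i j| :=
        Finset.single_le_sum (f := fun i => ∑ j, |M i j|)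
          (fun _ _ => Finset.sum_nonneg fun _ _ => abs_nonneg _) (Finset.mem_univ i)

theorem sn_nonneg {n : ℕ} (M : Matrix (Fin n) (Fin n) ℝ) : 0 ≤ sn M :=
  Finset.sum_nonneg fun _ _ => Finset.sum_nonneg fun _ _ => abs_nonneg _

theorem sn_smul {n : ℕ} (c : ℝ) (M : Matrix (Fin n) (Fin n) ℝ) : sn (c • M) = |c| * sn M := by
  unfold sn
  simp [abs_mul, Finset.mul_sum]

theorem abs_det_le {n : ℕ} (M : Matrix (Fin n) (Fin n) ℝ) (x : ℝ) (hx : ∀ i j, |M i j| ≤ x) :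
    |M.det| ≤ (n.factorial : ℝ) * x ^ n := by
  have := Matrix.det_le (A := M) (abv := AbsoluteValue.abs) (x := x) hx
  simpa using this

/-- M2 -/
theorem sn_adj_le {n : ℕ} (hn : 1 ≤ n) : ∃ C : ℝ, 0 < C ∧ ∀ M : Matrix (Fin n) (Fin n) ℝ,
    sn M.adjugate ≤ C * sn M ^ (n - 1) := by
  obtain ⟨m, rfl⟩ : ∃ m, n = m + 1 := ⟨n - 1, by omega⟩
  refine ⟨((m + 1 : ℕ) : ℝ) * (((m + 1 : ℕ) : ℝ) * (m.factorial : ℝ)), by positivity, ?_⟩
  intro M
  have hent : ∀ i j, |M.adjugate i j| ≤ (m.factorial : ℝ) * sn M ^ m := by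
    intro i j
    rw [Matrix.adjugate_fin_succ_eq_det_submatrix]
    rw [abs_mul]
    have h1 : |(-1 : ℝ) ^ (j + i : ℕ)| = 1 := by
      rw [abs_pow]; simp
    rw [h1, one_mul]
    apply abs_det_le
    intro a b
    exact abs_le_sn M _ _
  calc sn M.adjugate = ∑ i, ∑ j, |M.adjugate i j| := rfl
    _ ≤ ∑ i : Fin (m + 1), ∑ j : Fin (m + 1), (m.factorial : ℝ) * sn M ^ m :=
        Finset.sum_le_sum fun i _ => Finset.sum_le_sum fun j _ => hent i j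
    _ = ((m + 1 : ℕ) : ℝ) * (((m + 1 : ℕ) : ℝ) * (m.factorial : ℝ)) * sn M ^ (m + 1 - 1) := by
        simp
        ring

/-- M3 -/
theorem det_pow_le {n : ℕ} (hn : 1 ≤ n) : ∃ C : ℝ, 0 < C ∧ ∀ M : Matrix (Fin n) (Fin n) ℝ,
    |M.det| ^ (n - 1) ≤ C * sn M.adjugate ^ n := by
  refine ⟨(n.factorial : ℝ), by positivity, ?_⟩
  intro M
  have h1 : |M.adjugate.det| = |M.det| ^ (n - 1) := by
    rw [Matrix.det_adjugate, abs_pow, Fintype.card_fin]
  rw [← h1]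
  exact abs_det_le _ _ (abs_le_sn _)

/-- M4 -/
theorem sn_mul_det_le {n : ℕ} (hn : 2 ≤ n) : ∃ C : ℝ, 0 < C ∧ ∀ M : Matrix (Fin n) (Fin n) ℝ,
    sn M * |M.det| ^ (n - 2) ≤ C * sn M.adjugate ^ (n - 1) := by
  obtain ⟨C, hC, h⟩ := sn_adj_le (n := n) (by omega)
  refine ⟨C, hC, ?_⟩
  intro M
  have h1 := h M.adjugate
  rw [Matrix.adjugate_adjugate M (by rw [Fintype.card_fin]; omega), sn_smul, Fintype.card_fin,
    abs_pow] at h1
  linarith [mul_comm (sn M) (|M.det| ^ (n - 2))]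


end H248.ID.J20

namespace H248.ID

export J20 (entry_le_norm sn_adj_le det_pow_le sn_mul_det_le)

end H248.ID
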