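import Pool.Agent.H248.ID.SmoothBad
import Pool.Agent.H248.ID.J20
import Pool.Agent.H248.ID.J02

set_option autoImplicit false
open MeasureTheory Metric Set Filter Topology
open scoped ENNReal NNReal ContDiff

namespace H248.ID.J10


/-! ### AVAILABLE (proved; Pool/Agent/Helper795/LusinN.lean) -/

/-- the weights -/
noncomputable def aw (m : ℕ) : ℝ := Real.exp ((m : ℝ) / 2) / m

lemma aw_ratio {m : ℕ} (hm : 4 ≤ m) : 5 * aw m ≤ 4 * aw (m + 1) := by
  unfold aw
  have hm' : (4 : ℝ) ≤ m := by exact_mod_cast hm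
  have h0 : (0 : ℝ) < m := by linarith
  have h1 : Real.exp (((m + 1 : ℕ) : ℝ) / 2) = Real.exp ((m : ℝ) / 2) * Real.exp (1 / 2) := by
    rw [← Real.exp_add]; push_cast; ring_nf
  have h2 : (1.6 : ℝ) ≤ Real.exp (1 / 2) := by
    have h3 : Real.exp (1 / 2) * Real.exp (1 / 2) = Real.exp 1 := by
      rw [← Real.exp_add]; norm_num
    have h4 := Real.exp_one_gt_d9
    have h5 := Real.exp_pos (1 / 2 : ℝ)
    nlinarith
  rw [h1]
  have hE := Real.exp_pos ((m : ℝ) / 2)
  push_cast
  rw [mul_div_assoc', mul_div_assoc', div_le_div_iff₀ h0 (by linarith)]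
  have : 5 * ((m : ℝ) + 1) ≤ 4 * 1.6 * m := by nlinarith
  have h6 : 4 * 1.6 * (m : ℝ) ≤ 4 * Real.exp (1 / 2) * m := by nlinarith
  nlinarith

lemma aw_nonneg (m : ℕ) : 0 ≤ aw m := by unfold aw; positivity

lemma aw_le {m : ℕ} (hm : 4 ≤ m) {ε G : ℝ} (hε : 0 < ε) (hε1 : ε ≤ 1)
    (hG : ε * Real.exp m < G) :
    aw m ≤ 2 / Real.sqrt ε * (Real.sqrt G / Real.log (Real.exp 1 + G)) := by
  have hm' : (4 : ℝ) ≤ m := by exact_mod_cast hm
  have h0 : (0 : ℝ) < m := by linarith
  have hG0 : 0 < G := lt_trans (by positivity) hG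
  set T : ℝ := G / ε with hT
  have hT0 : 0 < T := by positivity
  have hTm : Real.exp m < T := by rw [hT, lt_div_iff₀ hε]; linarith
  set x : ℝ := Real.log T with hx
  have hxm : (m : ℝ) < x := by rw [hx, Real.lt_log_iff_exp_lt hT0]; exact hTm
  have hx0 : 0 < x := by linarith
  have hTx : Real.exp x = T := Real.exp_log hT0
  -- (ii)
  have h1 : aw m ≤ Real.exp (x / 2) / x := by
    unfold aw
    rw [div_le_div_iff₀ h0 hx0]
    have h2 : x / m ≤ Real.exp ((x - m) / 2) := by
      have h3 := Real.add_one_le_exp ((x - m) / 2)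
      refine le_trans ?_ h3
      rw [div_le_iff₀ h0]
      nlinarith
    have h4 : Real.exp (x / 2) = Real.exp (m / 2) * Real.exp ((x - m) / 2) := by
      rw [← Real.exp_add]; ring_nf
    rw [h4]
    rw [div_le_iff₀ h0] at h2
    have := Real.exp_pos ((m : ℝ) / 2)
    nlinarith
  have h5 : Real.exp (x / 2) = Real.sqrt G / Real.sqrt ε := by
    rw [← Real.sqrt_div hG0.le, ← hT, ← hTx, Real.sqrt_eq_rpow, ← Real.exp_mul]
    ring_nf
  have h6 : Real.log (Real.exp 1 + G) ≤ 2 * x := by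
    have h7 : Real.exp 1 + G ≤ T ^ 2 := by
      have hGT : G ≤ T := by rw [hT, le_div_iff₀ hε]; nlinarith
      have he : Real.exp 1 ≤ T := (Real.exp_le_exp.2 (by linarith)).trans hTm.le
      have h2T : 2 ≤ T := by
        have := Real.add_one_le_exp (m : ℝ)
        linarith
      nlinarith
    calc Real.log (Real.exp 1 + G) ≤ Real.log (T ^ 2) := Real.log_le_log (by positivity) h7
      _ = 2 * x := by rw [Real.log_pow]; norm_num [hx]
  have hlog : 1 ≤ Real.log (Real.exp 1 + G) := by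
    rw [Real.le_log_iff_exp_le (by positivity)]; linarith
  calc aw m ≤ Real.exp (x / 2) / x := h1
    _ = (Real.sqrt G / Real.sqrt ε) / x := by rw [h5]
    _ ≤ (Real.sqrt G / Real.sqrt ε) / (Real.log (Real.exp 1 + G) / 2) := by
        apply div_le_div_of_nonneg_left (by positivity) (by positivity)
        linarith
    _ = _ := by field_simp

lemma aw_sum {m₀ : ℕ} (hm : 4 ≤ m₀) {ε G : ℝ} (hε : 0 < ε) (N : ℕ)
    (hG : ε * Real.exp ((N + m₀ : ℕ) : ℝ) < G) :
    ∑ k ∈ Finset.range (N + 1), (if ε * Real.exp ((k + m₀ : ℕ) : ℝ) < G then aw (k + m₀) else 0) ≤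
      5 * aw (N + m₀) := by
  induction N with
  | zero =>
    simp only [zero_add, Finset.range_one, Finset.sum_singleton]
    split_ifs
    · linarith [aw_nonneg m₀]
    · linarith [aw_nonneg m₀]
  | succ N ih =>
    have hlt : ε * Real.exp ((N + m₀ : ℕ) : ℝ) < G := by
      refine lt_of_le_of_lt ?_ hG
      gcongr
      omega
    rw [Finset.sum_range_succ, if_pos hG]
    have h1 := ih hlt
    have h2 := aw_ratio (m := N + m₀) (by omega)
    have h3 : N + m₀ + 1 = N + 1 + m₀ := by ring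
    rw [h3] at h2
    linarith

lemma aw_sum' {m₀ : ℕ} (hm : 4 ≤ m₀) {ε G : ℝ} (hε : 0 < ε) (hε1 : ε ≤ 1) (hG0 : 0 ≤ G) (N : ℕ) :
    ∑ k ∈ Finset.range N, (if ε * Real.exp ((k + m₀ : ℕ) : ℝ) < G then aw (k + m₀) else 0) ≤
      10 / Real.sqrt ε * (Real.sqrt G / Real.log (Real.exp 1 + G)) := by
  have hlog : 1 ≤ Real.log (Real.exp 1 + G) := by
    rw [Real.le_log_iff_exp_le (by positivity)]; linarith
  induction N with
  | zero => simp; positivity
  | succ N ih =>
    by_cases hc : ε * Real.exp ((N + m₀ : ℕ) : ℝ) < G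
    · have h1 := aw_sum hm hε N hc
      have h2 := aw_le (m := N + m₀) (by omega) hε hε1 hc
      have h3 : 10 / Real.sqrt ε * (Real.sqrt G / Real.log (Real.exp 1 + G)) =
        5 * (2 / Real.sqrt ε * (Real.sqrt G / Real.log (Real.exp 1 + G))) := by ring
      linarith
    · rw [Finset.sum_range_succ, if_neg hc, add_zero]
      exact ih

lemma harmonic_top {m₀ : ℕ} (hm : 1 ≤ m₀) : ∑' k : ℕ, ENNReal.ofReal (1 / ((k + m₀ : ℕ) : ℝ)) = ⊤ := by
  by_contra hne
  have h1 := ENNReal.summable_toReal hne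
  have h2 : Summable fun k : ℕ => 1 / ((k + m₀ : ℕ) : ℝ) := by
    refine h1.congr fun k => ?_
    rw [ENNReal.toReal_ofReal (by positivity)]
  have h3 : Summable fun k : ℕ => 1 / (k : ℝ) :=
    (summable_nat_add_iff (f := fun k : ℕ => 1 / (k : ℝ)) m₀).1 h2
  exact Real.not_summable_one_div_natCast h3

theorem level_sum {α : Type*} [MeasurableSpace α] (μ : Measure α) {G : α → ℝ} (hGm : Measurable G)
    (hG0 : ∀ x, 0 ≤ G x) {n : ℕ} (hn : 2 ≤ n) {ε : ℝ} (hε : 0 < ε) (hε1 : ε ≤ 1) {m₀ : ℕ}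
    (hm : 4 ≤ m₀) {C c : ℝ≥0∞} (hC : C ≠ ⊤)
    (hfin : ∫⁻ x, ENNReal.ofReal (G x ^ n / Real.log (Real.exp 1 + G x)) ∂μ ≠ ⊤)
    (hc : ∀ k : ℕ, c ≤ C * ENNReal.ofReal (Real.exp (((k + m₀ : ℕ) : ℝ) / 2)) *
      ∫⁻ x in {x | ε * Real.exp ((k + m₀ : ℕ) : ℝ) < G x}, ENNReal.ofReal (G x ^ ((n : ℝ) - 1 / 2)) ∂μ) :
    c = 0 := by
  by_contra hc0
  have hms : ∀ k : ℕ, MeasurableSet {x | ε * Real.exp ((k + m₀ : ℕ) : ℝ) < G x} := fun k =>
    measurableSet_lt measurable_const hGm
  have hpm : Measurable fun x => ENNReal.ofReal (G x ^ ((n : ℝ) - 1 / 2)) :=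
    (hGm.pow_const _).ennreal_ofReal
  have hfm : ∀ k : ℕ, Measurable fun x => ({x | ε * Real.exp ((k + m₀ : ℕ) : ℝ) < G x}).indicator
      (fun x => ENNReal.ofReal (aw (k + m₀)) * ENNReal.ofReal (G x ^ ((n : ℝ) - 1 / 2))) x :=
    fun k => (hpm.const_mul _).indicator (hms k)
  have h1 : ∑' k : ℕ, ENNReal.ofReal (1 / ((k + m₀ : ℕ) : ℝ)) * c ≤
      C * ∫⁻ x, ENNReal.ofReal (10 / Real.sqrt ε) *
        ENNReal.ofReal (G x ^ n / Real.log (Real.exp 1 + G x)) ∂μ := by
    calc ∑' k : ℕ, ENNReal.ofReal (1 / ((k + m₀ : ℕ) : ℝ)) * c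
        ≤ ∑' k : ℕ, C * ∫⁻ x, ({x | ε * Real.exp ((k + m₀ : ℕ) : ℝ) < G x}).indicator
            (fun x => ENNReal.ofReal (aw (k + m₀)) * ENNReal.ofReal (G x ^ ((n : ℝ) - 1 / 2))) x ∂μ := by
          refine ENNReal.tsum_le_tsum fun k => ?_
          calc ENNReal.ofReal (1 / ((k + m₀ : ℕ) : ℝ)) * c
              ≤ ENNReal.ofReal (1 / ((k + m₀ : ℕ) : ℝ)) * (C * ENNReal.ofReal (Real.exp (((k + m₀ : ℕ) : ℝ) / 2)) *
      ∫⁻ x in {x | ε * Real.exp ((k + m₀ : ℕ) : ℝ) < G x}, ENNReal.ofReal (G x ^ ((n : ℝ) - 1 / 2)) ∂μ) := by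
                gcongr
                exact hc k
            _ = C * (ENNReal.ofReal (aw (k + m₀)) *
                ∫⁻ x in {x | ε * Real.exp ((k + m₀ : ℕ) : ℝ) < G x}, ENNReal.ofReal (G x ^ ((n : ℝ) - 1 / 2)) ∂μ) := by
                have : ENNReal.ofReal (aw (k + m₀)) = ENNReal.ofReal (1 / ((k + m₀ : ℕ) : ℝ)) *
                    ENNReal.ofReal (Real.exp (((k + m₀ : ℕ) : ℝ) / 2)) := by
                  rw [← ENNReal.ofReal_mul (by positivity)]
                  unfold aw
                  congr 1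
                  ring
                rw [this]
                ring
            _ = _ := by
                rw [lintegral_indicator (hms k), lintegral_const_mul _ hpm]
      _ = C * ∫⁻ x, ∑' k : ℕ, ({x | ε * Real.exp ((k + m₀ : ℕ) : ℝ) < G x}).indicator
            (fun x => ENNReal.ofReal (aw (k + m₀)) * ENNReal.ofReal (G x ^ ((n : ℝ) - 1 / 2))) x ∂μ := by
          rw [ENNReal.tsum_mul_left, lintegral_tsum fun k => (hfm k).aemeasurable]
      _ ≤ _ := by
          gcongr with x
          refine ENNReal.tsum_le_of_sum_range_le fun N => ?_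
          have h2 : ∀ k : ℕ, ({x | ε * Real.exp ((k + m₀ : ℕ) : ℝ) < G x}).indicator
            (fun x => ENNReal.ofReal (aw (k + m₀)) * ENNReal.ofReal (G x ^ ((n : ℝ) - 1 / 2))) x =
            ENNReal.ofReal (if ε * Real.exp ((k + m₀ : ℕ) : ℝ) < G x then aw (k + m₀) else 0) *
              ENNReal.ofReal (G x ^ ((n : ℝ) - 1 / 2)) := by
            intro k
            by_cases hk : ε * Real.exp ((k + m₀ : ℕ) : ℝ) < G x
            · rw [indicator_of_mem (by exact hk), if_pos hk]
            · rw [indicator_of_notMem (by exact hk), if_neg hk]; simp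
          rw [Finset.sum_congr rfl fun k _ => h2 k, ← Finset.sum_mul,
            ← ENNReal.ofReal_sum_of_nonneg, ← ENNReal.ofReal_mul, ← ENNReal.ofReal_mul (by positivity)]
          · refine ENNReal.ofReal_le_ofReal ?_
            have h3 := aw_sum' hm hε hε1 (hG0 x) N
            have h4 : 0 ≤ G x ^ ((n : ℝ) - 1 / 2) := Real.rpow_nonneg (hG0 x) _
            have h5 : Real.sqrt (G x) * G x ^ ((n : ℝ) - 1 / 2) = G x ^ n := by
              have hn0 : (2 : ℝ) ≤ n := by exact_mod_cast hn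
              rw [Real.sqrt_eq_rpow, ← Real.rpow_add_of_nonneg (hG0 x) (by norm_num) (by linarith),
                ← Real.rpow_natCast]
              congr 1
              ring
            calc _ ≤ (10 / Real.sqrt ε * (Real.sqrt (G x) / Real.log (Real.exp 1 + G x))) *
                  G x ^ ((n : ℝ) - 1 / 2) := mul_le_mul_of_nonneg_right h3 h4
              _ = 10 / Real.sqrt ε * ((Real.sqrt (G x) * G x ^ ((n : ℝ) - 1 / 2)) /
                  Real.log (Real.exp 1 + G x)) := by ring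
              _ = _ := by rw [h5]
          · refine Finset.sum_nonneg fun k _ => ?_
            split_ifs
            · exact aw_nonneg _
            · exact le_rfl
          · intro k _
            split_ifs
            · exact aw_nonneg _
            · exact le_rfl
  rw [ENNReal.tsum_mul_right, harmonic_top (by omega), ENNReal.top_mul hc0, top_le_iff] at h1
  have hgm : Measurable fun x => ENNReal.ofReal (G x ^ n / Real.log (Real.exp 1 + G x)) := by
    refine Measurable.ennreal_ofReal ?_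
    exact (hGm.pow_const n).div (Real.measurable_log.comp (measurable_const.add hGm))
  rw [lintegral_const_mul _ hgm] at h1
  exact ENNReal.mul_ne_top hC (ENNReal.mul_ne_top ENNReal.ofReal_ne_top hfin) h1







/-! ### auxiliary lemmas -/

noncomputable def th (s : ℝ) : ℝ := max 0 (min 1 (3 - s))

lemma th_cont : Continuous th := by unfold th; fun_prop

lemma th_nonneg (s : ℝ) : 0 ≤ th s := le_max_left _ _

lemma th_le_one (s : ℝ) : th s ≤ 1 := max_le zero_le_one (min_le_left _ _)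

lemma th_eq_one {s : ℝ} (h : s ≤ 2) : th s = 1 := by
  unfold th; rw [min_eq_left (by linarith), max_eq_right zero_le_one]

lemma th_eq_zero {s : ℝ} (h : 3 ≤ s) : th s = 0 := by
  unfold th; rw [max_eq_left]; exact (min_le_right _ _).trans (by linarith)

noncomputable def kp (s : ℝ) : ℝ := max 0 (min 1 (4 * s - 1))

lemma kp_cont : Continuous kp := by unfold kp; fun_prop

lemma kp_nonneg (s : ℝ) : 0 ≤ kp s := le_max_left _ _

lemma kp_le_one (s : ℝ) : kp s ≤ 1 := max_le zero_le_one (min_le_left _ _)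

lemma kp_eq_one {s : ℝ} (h : 1 / 2 ≤ s) : kp s = 1 := by
  unfold kp; rw [min_eq_left (by linarith), max_eq_right zero_le_one]

lemma kp_eq_zero {s : ℝ} (h : s ≤ 1 / 4) : kp s = 0 := by
  unfold kp; rw [max_eq_left]; exact (min_le_right _ _).trans (by linarith)

lemma pd_cont {n : ℕ} {h : E n → ℝ} (hh : ContDiff ℝ ∞ h) (j : Fin n) : Continuous (pd h j) := by
  unfold pd
  exact (hh.continuous_fderiv (by simp)).clm_apply continuous_const

lemma jac_cont {n : ℕ} {f : E n → E n} (hf : ContDiff ℝ ∞ f) : Continuous (jac f) := by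
  apply continuous_matrix
  intro i j
  have : ContDiff ℝ ∞ (fun y => f y i) := contDiff_pi.1 hf i
  exact pd_cont this j

lemma sn_nonneg {n : ℕ} (M : Matrix (Fin n) (Fin n) ℝ) : 0 ≤ sn M :=
  Finset.sum_nonneg fun _ _ => Finset.sum_nonneg fun _ _ => abs_nonneg _

lemma sn_cont {n : ℕ} : Continuous (sn : Matrix (Fin n) (Fin n) ℝ → ℝ) := by
  unfold sn
  apply continuous_finsetSum
  intro i _
  apply continuous_finsetSum
  intro j _
  exact (continuous_id.matrix_elem i j).abs

lemma snadj_cont {n : ℕ} : Continuous (fun M : Matrix (Fin n) (Fin n) ℝ => sn M.adjugate) :=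
  sn_cont.comp (continuous_id.matrix_adjugate)

lemma meas_comp {n : ℕ} {Df : E n → Matrix (Fin n) (Fin n) ℝ}
    (hDm : ∀ i j, Measurable fun x => Df x i j) {φ : Matrix (Fin n) (Fin n) ℝ → ℝ}
    (hφ : Continuous φ) : Measurable (fun x => φ (Df x)) := by
  have h1 : Measurable (fun x => (fun i j => Df x i j : Fin n → Fin n → ℝ)) := by
    rw [measurable_pi_iff]
    intro i
    rw [measurable_pi_iff]
    intro j
    exact hDm i j
  have h2 : Continuous (fun M : Fin n → Fin n → ℝ => φ (Matrix.of M)) := hφ.comp continuous_id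
  exact h2.measurable.comp h1

lemma col_le {n : ℕ} (M : Matrix (Fin n) (Fin n) ℝ) (i : Fin n) (u : Fin n → ℝ) {L : ℝ}
    (hu : ∀ j, |u j| ≤ L) : |∑ j, M j i * u j| ≤ L * sn M := by
  calc |∑ j, M j i * u j| ≤ ∑ j, |M j i * u j| := Finset.abs_sum_le_sum_abs _ _
    _ ≤ ∑ j, L * |M j i| := by
        apply Finset.sum_le_sum
        intro j _
        rw [abs_mul, mul_comm]
        exact mul_le_mul_of_nonneg_right (hu j) (abs_nonneg _)
    _ = L * ∑ j, |M j i| := by rw [Finset.mul_sum]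
    _ ≤ L * sn M := by
        have hL : 0 ≤ L := (abs_nonneg _).trans (hu i)
        apply mul_le_mul_of_nonneg_left _ hL
        unfold sn
        apply Finset.sum_le_sum
        intro j _
        exact Finset.single_le_sum (f := fun k => |M j k|) (fun k _ => abs_nonneg _)
          (Finset.mem_univ i)

/-- real bound for det -/
lemma det_le_of {n : ℕ} (hn : 2 ≤ n) {C : ℝ} (hC : 0 < C) {M : Matrix (Fin n) (Fin n) ℝ}
    (hM : |M.det| ^ (n - 1) ≤ C * sn M.adjugate ^ n) {t : ℝ} (ht : sn M.adjugate ≤ 3 * t)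
    (ht0 : 0 ≤ t) :
    |M.det| ≤ (C * 3 ^ n) ^ (1 / ((n : ℝ) - 1)) * t ^ ((n : ℝ) / ((n : ℝ) - 1)) := by
  have hn1 : (0 : ℝ) < (n : ℝ) - 1 := by
    have : (2 : ℝ) ≤ n := by exact_mod_cast hn
    linarith
  have hcast : ((n - 1 : ℕ) : ℝ) = (n : ℝ) - 1 := by
    rw [Nat.cast_sub (by omega)]; simp
  have h1 : |M.det| ^ (n - 1) ≤ (C * 3 ^ n) * t ^ n := by
    calc |M.det| ^ (n - 1) ≤ C * sn M.adjugate ^ n := hM
      _ ≤ C * (3 * t) ^ n := by
          apply mul_le_mul_of_nonneg_left _ hC.le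
          exact pow_le_pow_left₀ (sn_nonneg _) ht n
      _ = (C * 3 ^ n) * t ^ n := by rw [mul_pow]; ring
  have h2 : |M.det| = (|M.det| ^ (n - 1)) ^ (1 / ((n : ℝ) - 1)) := by
    rw [← Real.rpow_natCast, ← Real.rpow_mul (abs_nonneg _), hcast, mul_one_div_cancel hn1.ne',
      Real.rpow_one]
  rw [h2]
  calc (|M.det| ^ (n - 1)) ^ (1 / ((n : ℝ) - 1))
      ≤ ((C * 3 ^ n) * t ^ n) ^ (1 / ((n : ℝ) - 1)) :=
        Real.rpow_le_rpow (by positivity) h1 (by positivity)
    _ = (C * 3 ^ n) ^ (1 / ((n : ℝ) - 1)) * (t ^ n) ^ (1 / ((n : ℝ) - 1)) :=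
        Real.mul_rpow (by positivity) (by positivity)
    _ = _ := by
        congr 1
        rw [← Real.rpow_natCast, ← Real.rpow_mul ht0]
        congr 1
        ring

lemma det_th_le {n : ℕ} (hn : 2 ≤ n) {C : ℝ} (hC : 0 < C)
    (hdet : ∀ M : Matrix (Fin n) (Fin n) ℝ, |M.det| ^ (n - 1) ≤ C * sn M.adjugate ^ n)
    (M : Matrix (Fin n) (Fin n) ℝ) {lam : ℝ} (hlam : 0 < lam) :
    |M.det * th (sn M.adjugate / lam)| ≤
      (C * 3 ^ n) ^ (1 / ((n : ℝ) - 1)) * lam ^ ((n : ℝ) / ((n : ℝ) - 1)) := by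
  by_cases h : sn M.adjugate ≤ 3 * lam
  · have h1 := det_le_of hn hC (hdet M) h hlam.le
    rw [abs_mul, abs_of_nonneg (th_nonneg _)]
    calc |M.det| * th (sn M.adjugate / lam) ≤ |M.det| * 1 :=
          mul_le_mul_of_nonneg_left (th_le_one _) (abs_nonneg _)
      _ = |M.det| := mul_one _
      _ ≤ _ := h1
  · push Not at h
    rw [th_eq_zero (by rw [le_div_iff₀ hlam]; exact h.le), mul_zero, abs_zero]
    have : 0 < C * 3 ^ n := by positivity
    positivity

lemma eta_zero {n : ℕ} {η : E n → ℝ} {x : E n} (hx : x ∉ tsupport η) : η x = 0 :=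
  image_eq_zero_of_notMem_tsupport hx

lemma pd_zero {n : ℕ} {η : E n → ℝ} {x : E n} (hx : x ∉ tsupport η) (j : Fin n) :
    pd η j x = 0 := by
  unfold pd
  have : fderiv ℝ η x = 0 := by
    by_contra h
    exact hx (support_fderiv_subset ℝ (f := η) h)
  rw [this]; rfl

lemma step1 {n : ℕ} (hn : 2 ≤ n) {C₀ C₃ : ℝ} (hC₀ : 0 < C₀) (hC₃ : 0 < C₃)
    (hdet : ∀ M : Matrix (Fin n) (Fin n) ℝ, |M.det| ^ (n - 1) ≤ C₃ * sn M.adjugate ^ n)
    {f : E n → E n} (hf : ContDiff ℝ ∞ f) {a : E n} {R : ℝ}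
    {η : E n → ℝ} (hη : ContDiff ℝ ∞ η) (hηB : tsupport η ⊆ closedBall a R)
    {ψ : E n → ℝ} (hψ : ContDiff ℝ ∞ ψ) (i : Fin n) {P L : ℝ}
    (hP0 : 0 ≤ P) (hL0 : 0 ≤ L)
    (hL : ∀ x, |η x| ≤ L) (hP2 : ∀ y, |pd ψ i y| ≤ P)
    {lam : ℝ} (hlam : 1 ≤ lam) {V : Set (E n)} (hVm : MeasurableSet V)
    (hVB : V ⊆ closedBall a R)
    (hV1 : ∀ x ∈ tsupport η, 2 * lam ≤ sn (jac f x).adjugate → x ∈ V) {X : ℝ}
    (hV2 : (volume V).toReal ≤ C₀ / lam * X)
    (hV3 : |∫ x in V, η x * pd ψ i (f x) * (jac f x).det| ≤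
      C₀ * P * L * lam ^ (1 / ((n : ℝ) - 1)) * X) :
    |(∫ x in closedBall a R, η x * pd ψ i (f x) *
          ((jac f x).det * th (sn (jac f x).adjugate / lam))) +
        ∫ x in closedBall a R, ψ (f x) * ∑ j, (jac f x).adjugate j i * pd η j x| ≤
      (C₀ * P * L + L * P * (C₃ * 3 ^ n) ^ (1 / ((n : ℝ) - 1)) * C₀) *
        lam ^ (1 / ((n : ℝ) - 1)) * X := by
  have hn1 : (0 : ℝ) < (n : ℝ) - 1 := by
    have : (2 : ℝ) ≤ n := by exact_mod_cast hn
    linarith
  have hlam0 : 0 < lam := by linarith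
  set B := closedBall a R with hB
  have hBm : MeasurableSet B := measurableSet_closedBall
  have hBc : IsCompact B := isCompact_closedBall a R
  have hcs : HasCompactSupport η := hBc.of_isClosed_subset (isClosed_tsupport η) hηB
  have hjc := jac_cont hf
  have hfc : Continuous f := hf.continuous
  have hIc : Continuous (fun x => η x * pd ψ i (f x)) :=
    hη.continuous.mul ((pd_cont hψ i).comp hfc)
  have hJc : Continuous (fun x => (jac f x).det) := hjc.matrix_det
  have hgc : Continuous (fun x => sn (jac f x).adjugate) := snadj_cont.comp hjc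
  have hthc : Continuous (fun x => th (sn (jac f x).adjugate / lam)) :=
    th_cont.comp (hgc.div_const lam)
  have hint : ∀ {u : E n → ℝ}, Continuous u → IntegrableOn u B := fun hu =>
    hu.continuousOn.integrableOn_compact hBc
  -- integration by parts on B
  have hibp := ibp_smooth hf hη hcs hψ i
  have hA : ∫ x, η x * pd ψ i (f x) * (jac f x).det =
      ∫ x in B, η x * pd ψ i (f x) * (jac f x).det := by
    symm
    apply setIntegral_eq_integral_of_forall_compl_eq_zero
    intro x hx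
    rw [eta_zero (fun h => hx (hηB h))]; ring
  have hS : ∫ x, ψ (f x) * ∑ j, (jac f x).adjugate j i * pd η j x =
      ∫ x in B, ψ (f x) * ∑ j, (jac f x).adjugate j i * pd η j x := by
    symm
    apply setIntegral_eq_integral_of_forall_compl_eq_zero
    intro x hx
    rw [Finset.sum_eq_zero, mul_zero]
    intro j _
    rw [pd_zero (fun h => hx (hηB h)), mul_zero]
  rw [hA, hS] at hibp
  have e1 : (∫ x in B, ψ (f x) * ∑ j, (jac f x).adjugate j i * pd η j x) =
      - ∫ x in B, η x * pd ψ i (f x) * (jac f x).det := by rw [hibp, neg_neg]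
  rw [e1, ← sub_eq_add_neg]
  -- the difference
  have i1 : IntegrableOn (fun x => η x * pd ψ i (f x) *
      ((jac f x).det * th (sn (jac f x).adjugate / lam))) B := hint (hIc.mul (hJc.mul hthc))
  have i2 : IntegrableOn (fun x => η x * pd ψ i (f x) * (jac f x).det) B := hint (hIc.mul hJc)
  rw [← integral_sub i1 i2]
  have e2 : (∫ x in B, (η x * pd ψ i (f x) *
      ((jac f x).det * th (sn (jac f x).adjugate / lam)) - η x * pd ψ i (f x) * (jac f x).det)) =
      ∫ x in V, (η x * pd ψ i (f x) *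
      ((jac f x).det * th (sn (jac f x).adjugate / lam)) -
        η x * pd ψ i (f x) * (jac f x).det) := by
    apply setIntegral_eq_of_subset_of_forall_sdiff_eq_zero hBm hVB
    rintro x ⟨-, hxV⟩
    by_cases hx : x ∈ tsupport η
    · have h1 : sn (jac f x).adjugate < 2 * lam := by
        by_contra h
        push Not at h
        exact hxV (hV1 x hx h)
      rw [th_eq_one (by rw [div_le_iff₀ hlam0]; exact h1.le)]
      ring
    · rw [eta_zero hx]; ring
  rw [e2, integral_sub (i1.mono_set hVB) (i2.mono_set hVB)]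
  have b1 : |∫ x in V, η x * pd ψ i (f x) *
      ((jac f x).det * th (sn (jac f x).adjugate / lam))| ≤
      (L * P * ((C₃ * 3 ^ n) ^ (1 / ((n : ℝ) - 1)) * lam ^ ((n : ℝ) / ((n : ℝ) - 1)))) *
        (volume V).toReal := by
    have h1 := norm_setIntegral_le_of_norm_le_const (μ := volume) (s := V)
      (f := fun x => η x * pd ψ i (f x) *
      ((jac f x).det * th (sn (jac f x).adjugate / lam)))
      (C := L * P * ((C₃ * 3 ^ n) ^ (1 / ((n : ℝ) - 1)) * lam ^ ((n : ℝ) / ((n : ℝ) - 1))))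
      ((measure_mono hVB).trans_lt hBc.measure_lt_top) (by
        intro x _
        rw [Real.norm_eq_abs, abs_mul, abs_mul]
        exact mul_le_mul (mul_le_mul (hL x) (hP2 _) (abs_nonneg _) hL0)
          (det_th_le hn hC₃ hdet _ hlam0) (abs_nonneg _) (mul_nonneg hL0 hP0))
    exact h1
  have hK0 : 0 ≤ (C₃ * 3 ^ n) ^ (1 / ((n : ℝ) - 1)) := by positivity
  have b2 : (L * P * ((C₃ * 3 ^ n) ^ (1 / ((n : ℝ) - 1)) * lam ^ ((n : ℝ) / ((n : ℝ) - 1)))) *
        (volume V).toReal ≤ L * P * (C₃ * 3 ^ n) ^ (1 / ((n : ℝ) - 1)) * C₀ *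
        lam ^ (1 / ((n : ℝ) - 1)) * X := by
    have h3 : lam ^ ((n : ℝ) / ((n : ℝ) - 1)) = lam * lam ^ (1 / ((n : ℝ) - 1)) := by
      rw [← Real.rpow_one_add' hlam0.le (by positivity)]
      congr 1
      field_simp
      ring
    have h4 : lam ^ ((n : ℝ) / ((n : ℝ) - 1)) * (volume V).toReal ≤
        C₀ * lam ^ (1 / ((n : ℝ) - 1)) * X := by
      rw [h3]
      calc lam * lam ^ (1 / ((n : ℝ) - 1)) * (volume V).toReal ≤
          lam * lam ^ (1 / ((n : ℝ) - 1)) * (C₀ / lam * X) := by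
            apply mul_le_mul_of_nonneg_left hV2 (by positivity)
        _ = C₀ * lam ^ (1 / ((n : ℝ) - 1)) * X := by field_simp
    calc (L * P * ((C₃ * 3 ^ n) ^ (1 / ((n : ℝ) - 1)) * lam ^ ((n : ℝ) / ((n : ℝ) - 1)))) *
        (volume V).toReal = (L * P * (C₃ * 3 ^ n) ^ (1 / ((n : ℝ) - 1))) *
          (lam ^ ((n : ℝ) / ((n : ℝ) - 1)) * (volume V).toReal) := by ring
      _ ≤ (L * P * (C₃ * 3 ^ n) ^ (1 / ((n : ℝ) - 1))) *
          (C₀ * lam ^ (1 / ((n : ℝ) - 1)) * X) :=
          mul_le_mul_of_nonneg_left h4 (mul_nonneg (mul_nonneg hL0 hP0) hK0)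
      _ = _ := by ring
  calc _ ≤ |∫ x in V, η x * pd ψ i (f x) *
      ((jac f x).det * th (sn (jac f x).adjugate / lam))| +
      |∫ x in V, η x * pd ψ i (f x) * (jac f x).det| := abs_sub _ _
    _ ≤ L * P * (C₃ * 3 ^ n) ^ (1 / ((n : ℝ) - 1)) * C₀ *
        lam ^ (1 / ((n : ℝ) - 1)) * X + C₀ * P * L * lam ^ (1 / ((n : ℝ) - 1)) * X :=
        add_le_add (b1.trans b2) hV3
    _ = _ := by ring


lemma limit_step {n : ℕ} (hn : 2 ≤ n) {C₃ : ℝ} (hC₃ : 0 < C₃)
    (hdet : ∀ M : Matrix (Fin n) (Fin n) ℝ, |M.det| ^ (n - 1) ≤ C₃ * sn M.adjugate ^ n)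
    {f : E n → E n} {Df : E n → Matrix (Fin n) (Fin n) ℝ}
    (hDm : ∀ i j, Measurable fun x => Df x i j) {a : E n} {R : ℝ}
    {F : ℕ → E n → E n} (hF : ∀ k, ContDiff ℝ ∞ (F k)) {Φ : E n → ℝ}
    (hΦ : IntegrableOn Φ (closedBall a R))
    (hconv : ∀ᵐ x ∂(volume.restrict (closedBall a R)),
      Tendsto (fun k => F k x) atTop (𝓝 (f x)) ∧ Tendsto (fun k => jac (F k) x) atTop (𝓝 (Df x)))
    (hdom : ∀ᵐ x ∂(volume.restrict (closedBall a R)), ∀ k, sn (jac (F k) x).adjugate ≤ Φ x)
    (hgi : IntegrableOn (fun x => sn (Df x).adjugate) (closedBall a R))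
    {η : E n → ℝ} (hη : ContDiff ℝ ∞ η)
    {ψ : E n → ℝ} (hψ : ContDiff ℝ ∞ ψ) (i : Fin n) {P L : ℝ}
    (hP0 : 0 ≤ P) (hL0 : 0 ≤ L)
    (hL : ∀ x, |η x| ≤ L) (hL2 : ∀ x j, |pd η j x| ≤ L) (hP1 : ∀ y, |ψ y| ≤ P)
    (hP2 : ∀ y, |pd ψ i y| ≤ P)
    {lam : ℝ} (hlam : 1 ≤ lam) {C' : ℝ} (hC' : 0 ≤ C')
    (hstep : ∀ k, |(∫ x in closedBall a R, η x * pd ψ i (F k x) *
          ((jac (F k) x).det * th (sn (jac (F k) x).adjugate / lam))) +
        ∫ x in closedBall a R, ψ (F k x) * ∑ j, (jac (F k) x).adjugate j i * pd η j x| ≤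
      C' * lam ^ (1 / ((n : ℝ) - 1)) *
        ∫ x in closedBall a R ∩ {x | lam / 2 < sn (jac (F k) x).adjugate},
          sn (jac (F k) x).adjugate) :
    |(∫ x in closedBall a R, η x * pd ψ i (f x) *
          ((Df x).det * th (sn (Df x).adjugate / lam))) +
        ∫ x in closedBall a R, ψ (f x) * ∑ j, (Df x).adjugate j i * pd η j x| ≤
      C' * lam ^ (1 / ((n : ℝ) - 1)) *
        ∫ x in closedBall a R ∩ {x | lam / 4 < sn (Df x).adjugate},
          sn (Df x).adjugate := by
  have hlam0 : 0 < lam := by linarith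
  set B := closedBall a R with hB
  have hBm : MeasurableSet B := measurableSet_closedBall
  have hBc : IsCompact B := isCompact_closedBall a R
  have hBfin : volume B ≠ ⊤ := hBc.measure_lt_top.ne
  have hjc := fun k => jac_cont (hF k)
  have hFc := fun k => (hF k).continuous
  have hIc : ∀ k, Continuous (fun x => η x * pd ψ i (F k x)) := fun k =>
    hη.continuous.mul ((pd_cont hψ i).comp (hFc k))
  have hJc : ∀ k, Continuous (fun x => (jac (F k) x).det) := fun k => (hjc k).matrix_det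
  have hgc : ∀ k, Continuous (fun x => sn (jac (F k) x).adjugate) :=
    fun k => snadj_cont.comp (hjc k)
  have hthc : ∀ k, Continuous (fun x => th (sn (jac (F k) x).adjugate / lam)) :=
    fun k => th_cont.comp ((hgc k).div_const lam)
  have hkpc : ∀ k, Continuous (fun x => kp (sn (jac (F k) x).adjugate / lam)) :=
    fun k => kp_cont.comp ((hgc k).div_const lam)
  have hWc : ∀ k, Continuous (fun x => ψ (F k x) * ∑ j, (jac (F k) x).adjugate j i * pd η j x) := by
    intro k
    apply (hψ.continuous.comp (hFc k)).mul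
    apply continuous_finsetSum
    intro j _
    exact ((hjc k).matrix_adjugate.matrix_elem j i).mul (pd_cont hη j)
  have hint : ∀ {u : E n → ℝ}, Continuous u → IntegrableOn u B := fun hu =>
    hu.continuousOn.integrableOn_compact hBc
  have ham : ∀ {u : E n → ℝ}, Continuous u → AEStronglyMeasurable u (volume.restrict B) :=
    fun hu => (hint hu).aestronglyMeasurable
  have hconst : ∀ c : ℝ, Integrable (fun _ : E n => c) (volume.restrict B) := fun c =>
    integrableOn_const hBfin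
  have hc1 : ∀ k, Continuous (fun x => η x * pd ψ i (F k x) *
          ((jac (F k) x).det * th (sn (jac (F k) x).adjugate / lam))) := fun k =>
    (hIc k).mul ((hJc k).mul (hthc k))
  have hc3 : ∀ k, Continuous (fun x => sn (jac (F k) x).adjugate *
        kp (sn (jac (F k) x).adjugate / lam)) := fun k => (hgc k).mul (hkpc k)
  -- limits
  have t1 : Tendsto (fun k => ∫ x in B, η x * pd ψ i (F k x) *
          ((jac (F k) x).det * th (sn (jac (F k) x).adjugate / lam))) atTop
      (𝓝 (∫ x in B, η x * pd ψ i (f x) *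
          ((Df x).det * th (sn (Df x).adjugate / lam)))) := by
    apply tendsto_integral_of_dominated_convergence
      (fun _ => L * P * ((C₃ * 3 ^ n) ^ (1 / ((n : ℝ) - 1)) * lam ^ ((n : ℝ) / ((n : ℝ) - 1))))
      (fun k => ham (hc1 k)) (hconst _)
    · intro k
      refine Filter.Eventually.of_forall fun x => ?_
      rw [Real.norm_eq_abs, abs_mul, abs_mul]
      exact mul_le_mul (mul_le_mul (hL x) (hP2 _) (abs_nonneg _) hL0)
          (det_th_le hn hC₃ hdet _ hlam0) (abs_nonneg _) (mul_nonneg hL0 hP0)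
    · filter_upwards [hconv] with x hx
      have h1 : Tendsto (fun k => pd ψ i (F k x)) atTop (𝓝 (pd ψ i (f x))) :=
        ((pd_cont hψ i).tendsto _).comp hx.1
      have h2 : Tendsto (fun k => (jac (F k) x).det) atTop (𝓝 (Df x).det) :=
        ((continuous_id.matrix_det : Continuous (fun M : Matrix (Fin n) (Fin n) ℝ => M.det)).tendsto
          _).comp hx.2
      have h3 : Tendsto (fun k => sn (jac (F k) x).adjugate) atTop (𝓝 (sn (Df x).adjugate)) :=
        (snadj_cont.tendsto _).comp hx.2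
      have h4 : Tendsto (fun k => th (sn (jac (F k) x).adjugate / lam)) atTop
          (𝓝 (th (sn (Df x).adjugate / lam))) := (th_cont.tendsto _).comp (h3.div_const lam)
      exact (tendsto_const_nhds.mul h1).mul (h2.mul h4)
  have t2 : Tendsto (fun k => ∫ x in B, ψ (F k x) *
        ∑ j, (jac (F k) x).adjugate j i * pd η j x) atTop
      (𝓝 (∫ x in B, ψ (f x) * ∑ j, (Df x).adjugate j i * pd η j x)) := by
    apply tendsto_integral_of_dominated_convergence (fun x => P * (L * Φ x))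
      (fun k => ham (hWc k)) ((hΦ.const_mul L).const_mul P)
    · intro k
      filter_upwards [hdom] with x hx
      rw [Real.norm_eq_abs, abs_mul]
      have h1 := col_le (jac (F k) x).adjugate i (fun j => pd η j x) (fun j => hL2 x j)
      exact mul_le_mul (hP1 _) (h1.trans (mul_le_mul_of_nonneg_left (hx k) hL0))
        (abs_nonneg _) hP0
    · filter_upwards [hconv] with x hx
      have h1 : Tendsto (fun k => ψ (F k x)) atTop (𝓝 (ψ (f x))) :=
        (hψ.continuous.tendsto _).comp hx.1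
      refine h1.mul ?_
      apply tendsto_finsetSum
      intro j _
      have h2 : Tendsto (fun k => (jac (F k) x).adjugate j i) atTop (𝓝 ((Df x).adjugate j i)) :=
        ((continuous_id.matrix_adjugate.matrix_elem j i : Continuous
          (fun M : Matrix (Fin n) (Fin n) ℝ => M.adjugate j i)).tendsto _).comp hx.2
      exact h2.mul tendsto_const_nhds
  have t3 : Tendsto (fun k => ∫ x in B, sn (jac (F k) x).adjugate *
        kp (sn (jac (F k) x).adjugate / lam)) atTop
      (𝓝 (∫ x in B, sn (Df x).adjugate * kp (sn (Df x).adjugate / lam))) := by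
    apply tendsto_integral_of_dominated_convergence Φ
      (fun k => ham (hc3 k)) hΦ
    · intro k
      filter_upwards [hdom] with x hx
      rw [Real.norm_eq_abs, abs_mul, abs_of_nonneg (sn_nonneg _), abs_of_nonneg (kp_nonneg _)]
      calc _ ≤ sn (jac (F k) x).adjugate * 1 :=
            mul_le_mul_of_nonneg_left (kp_le_one _) (sn_nonneg _)
        _ = sn (jac (F k) x).adjugate := mul_one _
        _ ≤ Φ x := hx k
    · filter_upwards [hconv] with x hx
      have h3 : Tendsto (fun k => sn (jac (F k) x).adjugate) atTop (𝓝 (sn (Df x).adjugate)) :=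
        (snadj_cont.tendsto _).comp hx.2
      exact h3.mul ((kp_cont.tendsto _).comp (h3.div_const lam))
  have hstep' : ∀ k, |(∫ x in B, η x * pd ψ i (F k x) *
          ((jac (F k) x).det * th (sn (jac (F k) x).adjugate / lam))) +
        ∫ x in B, ψ (F k x) * ∑ j, (jac (F k) x).adjugate j i * pd η j x| ≤
      C' * lam ^ (1 / ((n : ℝ) - 1)) * ∫ x in B, sn (jac (F k) x).adjugate *
        kp (sn (jac (F k) x).adjugate / lam) := by
    intro k
    refine (hstep k).trans ?_
    apply mul_le_mul_of_nonneg_left _ (by positivity)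
    have hm : MeasurableSet {x | lam / 2 < sn (jac (F k) x).adjugate} :=
      measurableSet_lt measurable_const (hgc k).measurable
    have h1 : ∫ x in B ∩ {x | lam / 2 < sn (jac (F k) x).adjugate}, sn (jac (F k) x).adjugate =
        ∫ x in B ∩ {x | lam / 2 < sn (jac (F k) x).adjugate}, sn (jac (F k) x).adjugate *
        kp (sn (jac (F k) x).adjugate / lam) := by
      apply setIntegral_congr_fun (hBm.inter hm)
      rintro x ⟨-, hx⟩
      have hx' : lam / 2 < sn (jac (F k) x).adjugate := hx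
      simp only
      rw [kp_eq_one, mul_one]
      rw [le_div_iff₀ hlam0]
      linarith
    rw [h1]
    apply setIntegral_mono_set (hint (hc3 k))
    · exact Filter.Eventually.of_forall fun x => mul_nonneg (sn_nonneg _) (kp_nonneg _)
    · exact Filter.Eventually.of_forall inter_subset_left
  have hle := le_of_tendsto_of_tendsto' ((t1.add t2).abs) (t3.const_mul
    (C' * lam ^ (1 / ((n : ℝ) - 1)))) hstep'
  refine hle.trans ?_
  apply mul_le_mul_of_nonneg_left _ (by positivity)
  have hgm : Measurable (fun x => sn (Df x).adjugate) := meas_comp hDm snadj_cont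
  have hm : MeasurableSet {x | lam / 4 < sn (Df x).adjugate} :=
    measurableSet_lt measurable_const hgm
  have e1 : ∫ x in B, sn (Df x).adjugate * kp (sn (Df x).adjugate / lam) =
      ∫ x in B ∩ {x | lam / 4 < sn (Df x).adjugate},
        sn (Df x).adjugate * kp (sn (Df x).adjugate / lam) := by
    apply setIntegral_eq_of_subset_of_forall_sdiff_eq_zero hBm inter_subset_left
    rintro x ⟨hxB, hx⟩
    have h1 : sn (Df x).adjugate ≤ lam / 4 := by
      by_contra h
      push Not at h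
      exact hx ⟨hxB, h⟩
    rw [kp_eq_zero, mul_zero]
    rw [div_le_iff₀ hlam0]
    linarith
  rw [e1]
  have hsub : B ∩ {x | lam / 4 < sn (Df x).adjugate} ⊆ B := inter_subset_left
  have hgi' := hgi.mono_set hsub
  apply setIntegral_mono_on _ hgi' (hBm.inter hm)
  · intro x _
    calc _ ≤ sn (Df x).adjugate * 1 :=
            mul_le_mul_of_nonneg_left (kp_le_one _) (sn_nonneg _)
      _ = sn (Df x).adjugate := mul_one _
  · apply Integrable.mono' hgi'
    · exact (hgm.mul (kp_cont.measurable.comp (hgm.div_const lam))).aestronglyMeasurable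
    · refine Filter.Eventually.of_forall fun x => ?_
      rw [Real.norm_eq_abs, abs_mul, abs_of_nonneg (sn_nonneg _), abs_of_nonneg (kp_nonneg _)]
      calc _ ≤ sn (Df x).adjugate * 1 :=
            mul_le_mul_of_nonneg_left (kp_le_one _) (sn_nonneg _)
        _ = sn (Df x).adjugate := mul_one _


lemma log_cmp {n : ℕ} (hn : 2 ≤ n) {G : ℝ} (hG : 0 ≤ G) :
    Real.log (Real.exp 1 + G ^ (n - 1)) ≤ n * Real.log (Real.exp 1 + G) := by
  have he : 2 ≤ Real.exp 1 := by
    have := Real.add_one_le_exp (1 : ℝ); linarith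
  have hpos : 0 < Real.exp 1 + G := by linarith
  rw [← Real.log_pow]
  apply Real.log_le_log (by positivity)
  have h1 : (Real.exp 1 + G) ^ n = (Real.exp 1 + G) ^ (n - 1) * (Real.exp 1 + G) := by
    rw [← pow_succ]; congr 1; omega
  have h2 : G ^ (n - 1) ≤ (Real.exp 1 + G) ^ (n - 1) :=
    pow_le_pow_left₀ hG (by linarith) _
  have h3 : Real.exp 1 ≤ (Real.exp 1 + G) ^ (n - 1) := by
    calc Real.exp 1 ≤ Real.exp 1 + G := by linarith
      _ = (Real.exp 1 + G) ^ 1 := (pow_one _).symm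
      _ ≤ (Real.exp 1 + G) ^ (n - 1) := pow_le_pow_right₀ (by linarith) (by omega)
  rw [h1]
  nlinarith



/-- (B). `g^{n/(n-1)}/log (e+g)` integrable implies that the distributional and the pointwise
determinants agree. -/
theorem identity_B {n : ℕ} (hn : 2 ≤ n) {f : E n → E n} {Df : E n → Matrix (Fin n) (Fin n) ℝ}
    (hfm : Measurable f) (hDm : ∀ i j, Measurable fun x => Df x i j) {a : E n} {R : ℝ} (hR : 0 < R)
    {F : ℕ → E n → E n} (hF : ∀ k, ContDiff ℝ ∞ (F k)) {Φ : E n → ℝ}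
    (hΦ : IntegrableOn Φ (closedBall a R))
    (hconv : ∀ᵐ x ∂(volume.restrict (closedBall a R)),
      Tendsto (fun k => F k x) atTop (𝓝 (f x)) ∧ Tendsto (fun k => jac (F k) x) atTop (𝓝 (Df x)))
    (hdom : ∀ᵐ x ∂(volume.restrict (closedBall a R)), ∀ k, sn (jac (F k) x).adjugate ≤ Φ x)
    (hJ : IntegrableOn (fun x => (Df x).det) (closedBall a R))
    (hg : IntegrableOn (fun x => sn (Df x).adjugate ^ ((n : ℝ) / ((n : ℝ) - 1)) /
      Real.log (Real.exp 1 + sn (Df x).adjugate)) (closedBall a R))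
    {η : E n → ℝ} (hη : ContDiff ℝ ∞ η) (hη' : tsupport η ⊆ closedBall a (R / 2))
    {ψ : E n → ℝ} (hψ : ContDiff ℝ ∞ ψ) (hψ' : HasCompactSupport ψ) (i : Fin n) :
    ∫ x in closedBall a R, η x * pd ψ i (f x) * (Df x).det =
      - ∫ x in closedBall a R, ψ (f x) * ∑ j, (Df x).adjugate j i * pd η j x := by
  obtain ⟨C₀, hC₀, hbad⟩ := smooth_bad hn
  obtain ⟨C₃, hC₃, hdet⟩ := det_pow_le (n := n) (by omega)
  have hn2 : (2 : ℝ) ≤ n := by exact_mod_cast hn
  have hn1 : (0 : ℝ) < (n : ℝ) - 1 := by linarith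
  have hcast : ((n - 1 : ℕ) : ℝ) = (n : ℝ) - 1 := by
    rw [Nat.cast_sub (by omega)]; simp
  have hn0 : n - 1 ≠ 0 := by omega
  set B := closedBall a R with hB
  have hBm : MeasurableSet B := measurableSet_closedBall
  have hBc : IsCompact B := isCompact_closedBall a R
  have hBfin : volume B ≠ ⊤ := hBc.measure_lt_top.ne
  have hηB : tsupport η ⊆ B := hη'.trans (closedBall_subset_closedBall (by linarith))
  have hcs : HasCompactSupport η := hBc.of_isClosed_subset (isClosed_tsupport η) hηB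
  -- bounds
  obtain ⟨L1, hL1⟩ : ∃ c, ∀ x, ‖η x‖ ≤ c := hcs.exists_bound_of_continuous hη.continuous
  have hgrc : Continuous (gr η) := by
    unfold gr
    apply continuous_finsetSum
    intro j _
    exact (pd_cont hη j).abs
  have hgrs : HasCompactSupport (gr η) := by
    have h := (hcs.fderiv (𝕜 := ℝ)).comp_left
      (g := fun T : (E n →L[ℝ] ℝ) => ∑ j, |T (Pi.single j 1)|) (by simp)
    exact h
  obtain ⟨L2, hL2⟩ : ∃ c, ∀ x, ‖gr η x‖ ≤ c := hgrs.exists_bound_of_continuous hgrc
  obtain ⟨P1, hP1⟩ : ∃ c, ∀ x, ‖ψ x‖ ≤ c := hψ'.exists_bound_of_continuous hψ.continuous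
  have hpds : HasCompactSupport (pd ψ i) := by
    have h := (hψ'.fderiv (𝕜 := ℝ)).comp_left
      (g := fun T : (E n →L[ℝ] ℝ) => T (Pi.single i 1)) (by simp)
    exact h
  obtain ⟨P2, hP2⟩ : ∃ c, ∀ x, ‖pd ψ i x‖ ≤ c := hpds.exists_bound_of_continuous (pd_cont hψ i)
  have hL10 : 0 ≤ L1 := (norm_nonneg _).trans (hL1 0)
  have hL20 : 0 ≤ L2 := (norm_nonneg _).trans (hL2 0)
  have hP10 : 0 ≤ P1 := (norm_nonneg _).trans (hP1 0)
  have hP20 : 0 ≤ P2 := (norm_nonneg _).trans (hP2 0)
  set L := L1 + L2 with hLdef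
  set P := P1 + P2 with hPdef
  have hL0 : 0 ≤ L := by positivity
  have hP0 : 0 ≤ P := by positivity
  have hLa : ∀ x, |η x| ≤ L := fun x => (hL1 x).trans (by linarith)
  have hLb : ∀ x, gr η x ≤ L := fun x => (le_abs_self _).trans ((hL2 x).trans (by linarith))
  have hLc : ∀ x j, |pd η j x| ≤ L := fun x j =>
    (Finset.single_le_sum (f := fun j => |pd η j x|) (fun k _ => abs_nonneg _)
      (Finset.mem_univ j)).trans (hLb x)
  have hPa : ∀ x, |ψ x| ≤ P := fun x => (hP1 x).trans (by linarith)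
  have hPb : ∀ x, |pd ψ i x| ≤ P := fun x => (hP2 x).trans (by linarith)
  -- integrability of g
  have hgm : Measurable (fun x => sn (Df x).adjugate) := meas_comp hDm snadj_cont
  have hJm : Measurable (fun x => (Df x).det) :=
    meas_comp hDm (continuous_id.matrix_det)
  have hgi : IntegrableOn (fun x => sn (Df x).adjugate) B := by
    apply Integrable.mono' hΦ hgm.aestronglyMeasurable
    filter_upwards [hconv, hdom] with x hx hx2
    rw [Real.norm_eq_abs, abs_of_nonneg (sn_nonneg _)]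
    have h3 : Tendsto (fun k => sn (jac (F k) x).adjugate) atTop (𝓝 (sn (Df x).adjugate)) :=
      (snadj_cont.tendsto _).comp hx.2
    exact le_of_tendsto' h3 hx2
  have hgki : ∀ k, IntegrableOn (fun x => sn (jac (F k) x).adjugate) B := fun k =>
    (snadj_cont.comp (jac_cont (hF k))).continuousOn.integrableOn_compact hBc
  have hgkle : ∀ k, ∫ x in B, sn (jac (F k) x).adjugate ≤ ∫ x in B, Φ x := by
    intro k
    apply integral_mono_ae (hgki k) hΦ
    filter_upwards [hdom] with x hx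
    exact hx k
  set K : ℝ := C₀ * P * L + L * P * (C₃ * 3 ^ n) ^ (1 / ((n : ℝ) - 1)) * C₀ with hK
  have hK0 : 0 ≤ K := by positivity
  set S : ℝ := ∫ x in B, ψ (f x) * ∑ j, (Df x).adjugate j i * pd η j x with hS
  set lam0 : ℝ := max 1 (C₀ * (∫ x in B, Φ x) / (R / 2) ^ n) with hlam0
  have hRn : 0 < (R / 2) ^ n := by positivity
  have hmain : ∀ lam : ℝ, lam0 ≤ lam →
      |(∫ x in B, η x * pd ψ i (f x) *
          ((Df x).det * th (sn (Df x).adjugate / lam))) + S| ≤
      K * lam ^ (1 / ((n : ℝ) - 1)) *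
        ∫ x in B ∩ {x | lam / 4 < sn (Df x).adjugate}, sn (Df x).adjugate := by
    intro lam hlam
    have hl1 : 1 ≤ lam := (le_max_left _ _).trans hlam
    have hl2 : C₀ * (∫ x in B, Φ x) / (R / 2) ^ n ≤ lam := (le_max_right _ _).trans hlam
    rw [div_le_iff₀ hRn] at hl2
    apply limit_step hn hC₃ hdet hDm hF hΦ hconv hdom hgi hη hψ i hP0 hL0 hLa hLc hPa hPb hl1 hK0
    intro k
    obtain ⟨V, hVm, hVB, hV1, hV2, hV3⟩ := hbad (F k) (hF k) a R (R / 2) (by positivity) η hη
      (hη'.trans (closedBall_subset_closedBall (by linarith))) ψ hψ i P L hLa hLb hPa hPb lam hl1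
      ((mul_le_mul_of_nonneg_left (hgkle k) hC₀.le).trans hl2)
    exact step1 hn hC₀ hC₃ hdet (hF k) hη hηB hψ i hP0 hL0 hLa hPb hl1 hVm hVB hV1 hV2 hV3
  -- lam → ∞
  set lm : ℕ → ℝ := fun m => Real.exp (m * ((n : ℝ) - 1)) with hlm
  have hlmpos : ∀ m, 0 < lm m := fun m => Real.exp_pos _
  have hlmT : Tendsto lm atTop atTop := by
    apply Real.tendsto_exp_atTop.comp
    exact (tendsto_natCast_atTop_atTop).atTop_mul_const hn1
  have hIm : Measurable (fun x => η x * pd ψ i (f x)) :=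
    hη.continuous.measurable.mul ((pd_cont hψ i).measurable.comp hfm)
  have t1 : Tendsto (fun m => ∫ x in B, η x * pd ψ i (f x) *
          ((Df x).det * th (sn (Df x).adjugate / lm m))) atTop
      (𝓝 (∫ x in B, η x * pd ψ i (f x) * (Df x).det)) := by
    apply tendsto_integral_of_dominated_convergence (fun x => L * P * |(Df x).det|)
    · intro m
      exact (hIm.mul (hJm.mul (th_cont.measurable.comp
        (hgm.div_const (lm m))))).aestronglyMeasurable
    · exact (hJ.abs).const_mul (L * P)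
    · intro m
      refine Filter.Eventually.of_forall fun x => ?_
      rw [Real.norm_eq_abs, abs_mul, abs_mul]
      refine mul_le_mul (mul_le_mul (hLa x) (hPb _) (abs_nonneg _) hL0) ?_ (abs_nonneg _)
        (mul_nonneg hL0 hP0)
      rw [abs_mul, abs_of_nonneg (th_nonneg _)]
      calc |(Df x).det| * th (sn (Df x).adjugate / lm m) ≤ |(Df x).det| * 1 :=
            mul_le_mul_of_nonneg_left (th_le_one _) (abs_nonneg _)
        _ = |(Df x).det| := mul_one _
    · refine Filter.Eventually.of_forall fun x => ?_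
      have h1 : Tendsto (fun m => sn (Df x).adjugate / lm m) atTop (𝓝 0) :=
        hlmT.const_div_atTop _
      have h2 : Tendsto (fun m => th (sn (Df x).adjugate / lm m)) atTop (𝓝 (th 0)) :=
        (th_cont.tendsto _).comp h1
      rw [th_eq_one (by norm_num)] at h2
      have h3 := (tendsto_const_nhds (x := η x * pd ψ i (f x)) (f := (atTop : Filter ℕ))).mul
        ((tendsto_const_nhds (x := (Df x).det) (f := (atTop : Filter ℕ))).mul h2)
      rw [mul_one] at h3
      exact h3
  set c : ℝ := |(∫ x in B, η x * pd ψ i (f x) * (Df x).det) + S| with hc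
  have t2 := (t1.add_const S).abs
  suffices hc0 : c = 0 by
    rw [hc, abs_eq_zero] at hc0
    linarith
  by_contra hcne
  have hcpos : 0 < c := lt_of_le_of_ne (abs_nonneg _) (Ne.symm hcne)
  have hev : ∀ᶠ m in atTop, c / 2 ≤ |(∫ x in B, η x * pd ψ i (f x) *
          ((Df x).det * th (sn (Df x).adjugate / lm m))) + S| := by
    filter_upwards [t2.eventually (lt_mem_nhds (show c / 2 < c by linarith))] with m hm
    exact hm.le
  obtain ⟨m₀, hm₀⟩ := Filter.eventually_atTop.1
    ((hev.and (hlmT.eventually_ge_atTop lam0)).and (eventually_ge_atTop 4))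
  have hm4 : 4 ≤ m₀ := (hm₀ m₀ le_rfl).2
  -- G
  set G : E n → ℝ := fun x => sn (Df x).adjugate ^ (1 / ((n : ℝ) - 1)) with hG
  have hGm : Measurable G := hgm.pow_const _
  have hG0 : ∀ x, 0 ≤ G x := fun x => Real.rpow_nonneg (sn_nonneg _) _
  have hGg : ∀ x, G x ^ (n - 1) = sn (Df x).adjugate := by
    intro x
    rw [hG, ← Real.rpow_natCast, ← Real.rpow_mul (sn_nonneg _), hcast,
      one_div_mul_cancel hn1.ne', Real.rpow_one]
  have hGn : ∀ x, sn (Df x).adjugate ^ ((n : ℝ) / ((n : ℝ) - 1)) = G x ^ n := by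
    intro x
    rw [hG, ← Real.rpow_natCast, ← Real.rpow_mul (sn_nonneg _)]
    congr 1
    ring
  set ε : ℝ := (1 / 4 : ℝ) ^ (1 / ((n : ℝ) - 1)) with hε
  have hε0 : 0 < ε := by positivity
  have hε1 : ε ≤ 1 := Real.rpow_le_one (by norm_num) (by norm_num) (by positivity)
  have hεn : ε ^ (n - 1) = 1 / 4 := by
    rw [hε, ← Real.rpow_natCast, ← Real.rpow_mul (by norm_num), hcast,
      one_div_mul_cancel hn1.ne', Real.rpow_one]
  set μ := (volume : Measure (E n)).restrict B with hμ
  -- finiteness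
  have hfin : ∫⁻ x, ENNReal.ofReal (G x ^ n / Real.log (Real.exp 1 + G x)) ∂μ ≠ ⊤ := by
    have h1 : Integrable (fun x => (n : ℝ) * (sn (Df x).adjugate ^ ((n : ℝ) / ((n : ℝ) - 1)) /
      Real.log (Real.exp 1 + sn (Df x).adjugate))) μ := hg.const_mul _
    refine ((lintegral_mono fun x => ?_).trans_lt h1.lintegral_lt_top).ne
    apply ENNReal.ofReal_le_ofReal
    rw [hGn x, ← hGg x]
    have h2 := log_cmp hn (hG0 x)
    have he : 1 ≤ Real.exp 1 := by
      have := Real.add_one_le_exp (1 : ℝ); linarith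
    have h3 : 0 < Real.log (Real.exp 1 + G x) := by
      apply Real.log_pos
      have := Real.add_one_le_exp (1 : ℝ)
      have := hG0 x
      linarith
    have h4 : 0 < Real.log (Real.exp 1 + G x ^ (n - 1)) := by
      apply Real.log_pos
      have := Real.add_one_le_exp (1 : ℝ)
      have := pow_nonneg (hG0 x) (n - 1)
      linarith
    rw [← mul_div_assoc, div_le_div_iff₀ h3 h4]
    have h5 : 0 ≤ G x ^ n := pow_nonneg (hG0 x) n
    nlinarith
  have hlev := level_sum μ hGm hG0 hn hε0 hε1 hm4 (C := ENNReal.ofReal (K * (1 / Real.sqrt ε)))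
    (c := ENNReal.ofReal (c / 2)) ENNReal.ofReal_ne_top hfin ?_
  · rw [ENNReal.ofReal_eq_zero] at hlev
    linarith
  intro k
  set m : ℕ := k + m₀ with hm
  obtain ⟨⟨h1, h2⟩, -⟩ := hm₀ m (by omega)
  have h3 := h1.trans (hmain (lm m) h2)
  have h4 : lm m ^ (1 / ((n : ℝ) - 1)) = Real.exp m := by
    rw [hlm]
    simp only
    rw [← Real.exp_mul]
    congr 1
    field_simp
  have h5 : {x | lm m / 4 < sn (Df x).adjugate} = {x | ε * Real.exp (m : ℝ) < G x} := by
    ext x
    simp only [mem_setOf_eq]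
    rw [← pow_lt_pow_iff_left₀ (by positivity) (hG0 x) hn0, hGg x, mul_pow, hεn,
      ← Real.exp_nat_mul, hcast]
    have h6 : lm m / 4 = 1 / 4 * Real.exp (((n : ℝ) - 1) * m) := by
      rw [hlm]
      simp only
      rw [mul_comm (m : ℝ)]; ring
    rw [h6]
  rw [h4, h5] at h3
  have hTm : MeasurableSet {x | ε * Real.exp (m : ℝ) < G x} :=
    measurableSet_lt measurable_const hGm
  have h6 : ∫ x in B ∩ {x | ε * Real.exp (m : ℝ) < G x}, sn (Df x).adjugate =
      ∫ x in {x | ε * Real.exp (m : ℝ) < G x}, sn (Df x).adjugate ∂μ := by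
    rw [hμ, Measure.restrict_restrict hTm, inter_comm]
  rw [h6] at h3
  have hgi' : Integrable (fun x => sn (Df x).adjugate)
      (μ.restrict {x | ε * Real.exp (m : ℝ) < G x}) := Integrable.restrict hgi
  have h7 : ENNReal.ofReal (∫ x in {x | ε * Real.exp (m : ℝ) < G x}, sn (Df x).adjugate ∂μ) =
      ∫⁻ x in {x | ε * Real.exp (m : ℝ) < G x}, ENNReal.ofReal (sn (Df x).adjugate) ∂μ :=
    ofReal_integral_eq_lintegral_ofReal hgi' (Filter.Eventually.of_forall fun x => sn_nonneg _)
  have hse : 0 < Real.sqrt ε := Real.sqrt_pos.2 hε0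
  calc ENNReal.ofReal (c / 2) ≤ ENNReal.ofReal (K * Real.exp m *
        ∫ x in {x | ε * Real.exp (m : ℝ) < G x}, sn (Df x).adjugate ∂μ) :=
        ENNReal.ofReal_le_ofReal h3
    _ = ENNReal.ofReal K * (ENNReal.ofReal (Real.exp m) *
        ∫⁻ x in {x | ε * Real.exp (m : ℝ) < G x}, ENNReal.ofReal (sn (Df x).adjugate) ∂μ) := by
        rw [ENNReal.ofReal_mul (by positivity), h7, ENNReal.ofReal_mul hK0, mul_assoc]
    _ = ENNReal.ofReal K * ∫⁻ x in {x | ε * Real.exp (m : ℝ) < G x},
        ENNReal.ofReal (Real.exp m) * ENNReal.ofReal (sn (Df x).adjugate) ∂μ := by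
        rw [lintegral_const_mul _ hgm.ennreal_ofReal]
    _ ≤ ENNReal.ofReal K * ∫⁻ x in {x | ε * Real.exp (m : ℝ) < G x},
        (ENNReal.ofReal (1 / Real.sqrt ε) * ENNReal.ofReal (Real.exp ((m : ℝ) / 2))) *
          ENNReal.ofReal (G x ^ ((n : ℝ) - 1 / 2)) ∂μ := by
        gcongr ENNReal.ofReal K * ?_
        apply setLIntegral_mono' hTm
        intro x hx
        have hx' : ε * Real.exp (m : ℝ) < G x := hx
        rw [← ENNReal.ofReal_mul (by positivity), ← ENNReal.ofReal_mul (by positivity),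
          ← ENNReal.ofReal_mul (by positivity)]
        apply ENNReal.ofReal_le_ofReal
        have h8 : G x ^ ((n : ℝ) - 1 / 2) = Real.sqrt (G x) * G x ^ (n - 1) := by
          rw [Real.sqrt_eq_rpow, ← Real.rpow_natCast,
            ← Real.rpow_add_of_nonneg (hG0 x) (by norm_num) (by positivity), hcast]
          congr 1
          ring
        have h9 : Real.sqrt ε * Real.exp ((m : ℝ) / 2) ≤ Real.sqrt (G x) := by
          rw [Real.exp_half, ← Real.sqrt_mul hε0.le]
          exact Real.sqrt_le_sqrt hx'.le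
        have h10 : Real.exp (m : ℝ) = Real.exp ((m : ℝ) / 2) * Real.exp ((m : ℝ) / 2) := by
          rw [← Real.exp_add]; congr 1; ring
        have h11 : Real.exp ((m : ℝ) / 2) ≤ 1 / Real.sqrt ε * Real.sqrt (G x) := by
          rw [one_div_mul_eq_div, le_div_iff₀ hse]
          linarith
        rw [h8, ← hGg x, h10]
        calc Real.exp ((m : ℝ) / 2) * Real.exp ((m : ℝ) / 2) * G x ^ (n - 1) ≤
            Real.exp ((m : ℝ) / 2) * (1 / Real.sqrt ε * Real.sqrt (G x)) * G x ^ (n - 1) := by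
              apply mul_le_mul_of_nonneg_right _ (pow_nonneg (hG0 x) _)
              exact mul_le_mul_of_nonneg_left h11 (by positivity)
          _ = _ := by ring
    _ = ENNReal.ofReal (K * (1 / Real.sqrt ε)) * ENNReal.ofReal (Real.exp ((m : ℝ) / 2)) *
        ∫⁻ x in {x | ε * Real.exp (m : ℝ) < G x},
          ENNReal.ofReal (G x ^ ((n : ℝ) - 1 / 2)) ∂μ := by
        rw [lintegral_const_mul _ (hGm.pow_const _).ennreal_ofReal, ENNReal.ofReal_mul hK0]
        ring


end H248.ID.J10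

namespace H248.ID

export J10 (identity_B)

end H248.ID
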