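import Pool.Agent.H248.ID.Defs

set_option autoImplicit false
open MeasureTheory Metric Set Filter Topology
open scoped ENNReal NNReal ContDiff

namespace H248.ID.J15



namespace Cap2Aux

variable {n : ℕ}

theorem int_mul {μ : Measure (E n)} {f : E n → E n} (hf : Measurable f) {a : E n → ℝ}
    (ha : Integrable a μ) {ρ : E n → ℝ} (hρ : Continuous ρ) (hρc : HasCompactSupport ρ) (y : E n) :
    Integrable (fun x => ρ (y - f x) * a x) μ := by
  obtain ⟨C, hC⟩ := hρ.bounded_above_of_compact_support hρc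
  refine ha.bdd_mul (c := C) ?_ ?_
  · exact (hρ.measurable.comp (measurable_const.sub hf)).aestronglyMeasurable
  · exact Eventually.of_forall fun x => hC _

theorem hasFDeriv {μ : Measure (E n)} {f : E n → E n} (hf : Measurable f) {a : E n → ℝ}
    (ha : Integrable a μ) {ρ : E n → ℝ} (hρ : ContDiff ℝ ∞ ρ) (hρc : HasCompactSupport ρ)
    (y : E n) :
    Integrable (fun x => a x • fderiv ℝ ρ (y - f x)) μ ∧
    HasFDerivAt (fun y => ∫ x, ρ (y - f x) * a x ∂μ) (∫ x, a x • fderiv ℝ ρ (y - f x) ∂μ) y := by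
  have hcf : Continuous (fderiv ℝ ρ) := hρ.continuous_fderiv (by simp)
  obtain ⟨C, hC⟩ := hcf.bounded_above_of_compact_support (hρc.fderiv (𝕜 := ℝ))
  have hmeas : ∀ z : E n, AEStronglyMeasurable (fun x => a x • fderiv ℝ ρ (z - f x)) μ := by
    intro z
    have h1 : Measurable (fun x => fderiv ℝ ρ (z - f x)) :=
      hcf.measurable.comp (measurable_const.sub hf)
    exact ha.aestronglyMeasurable.smul h1.aestronglyMeasurable
  refine ⟨?_, ?_⟩
  · refine Integrable.mono' (ha.norm.mul_const C) (hmeas y) (Eventually.of_forall fun x => ?_)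
    rw [norm_smul]
    exact mul_le_mul_of_nonneg_left (hC _) (norm_nonneg _)
  · refine hasFDerivAt_integral_of_dominated_of_fderiv_le (s := univ)
      (bound := fun x => ‖a x‖ * C) (F' := fun y x => a x • fderiv ℝ ρ (y - f x))
      Filter.univ_mem ?_ ?_ (hmeas y) ?_ (ha.norm.mul_const C) ?_
    · exact Eventually.of_forall fun z => (int_mul hf ha hρ.continuous hρc z).aestronglyMeasurable
    · exact int_mul hf ha hρ.continuous hρc y
    · refine Eventually.of_forall fun x z _ => ?_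
      rw [norm_smul]
      exact mul_le_mul_of_nonneg_left (hC _) (norm_nonneg _)
    · refine Eventually.of_forall fun x z _ => ?_
      have h1 : HasFDerivAt ρ (fderiv ℝ ρ (z - f x)) (z - f x) :=
        (hρ.differentiable (by simp) _).hasFDerivAt
      have h2 : HasFDerivAt (fun w : E n => w - f x) (ContinuousLinearMap.id ℝ (E n)) z :=
        (hasFDerivAt_id z).sub_const _
      have h3 := (h1.comp z h2).mul_const (a x)
      rw [ContinuousLinearMap.comp_id] at h3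
      exact h3

theorem contDiff_W {μ : Measure (E n)} {f : E n → E n} (hf : Measurable f) {a : E n → ℝ}
    (ha : Integrable a μ) {ρ : E n → ℝ} (hρ : ContDiff ℝ ∞ ρ) (hρc : HasCompactSupport ρ) :
    ContDiff ℝ 1 (fun y => ∫ x, ρ (y - f x) * a x ∂μ) := by
  rw [contDiff_one_iff_fderiv]
  refine ⟨fun y => (hasFDeriv hf ha hρ hρc y).2.differentiableAt, ?_⟩
  have h1 : fderiv ℝ (fun y => ∫ x, ρ (y - f x) * a x ∂μ) =
      fun y => ∫ x, a x • fderiv ℝ ρ (y - f x) ∂μ := by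
    ext1 y
    exact (hasFDeriv hf ha hρ hρc y).2.fderiv
  rw [h1]
  have hcf : Continuous (fderiv ℝ ρ) := hρ.continuous_fderiv (by simp)
  obtain ⟨C, hC⟩ := hcf.bounded_above_of_compact_support (hρc.fderiv (𝕜 := ℝ))
  refine continuous_of_dominated (bound := fun x => ‖a x‖ * C) ?_ ?_ (ha.norm.mul_const C) ?_
  · intro y
    exact (hasFDeriv hf ha hρ hρc y).1.aestronglyMeasurable
  · intro y
    refine Eventually.of_forall fun x => ?_
    rw [norm_smul]
    exact mul_le_mul_of_nonneg_left (hC _) (norm_nonneg _)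
  · refine Eventually.of_forall fun x => ?_
    exact (hcf.comp (continuous_id.sub continuous_const)).const_smul (a x)

theorem pd_W {μ : Measure (E n)} {f : E n → E n} (hf : Measurable f) {a : E n → ℝ}
    (ha : Integrable a μ) {ρ : E n → ℝ} (hρ : ContDiff ℝ ∞ ρ) (hρc : HasCompactSupport ρ)
    (i : Fin n) (y : E n) :
    pd (fun y => ∫ x, ρ (y - f x) * a x ∂μ) i y = ∫ x, pd ρ i (y - f x) * a x ∂μ := by
  unfold pd
  rw [(hasFDeriv hf ha hρ hρc y).2.fderiv,
    ContinuousLinearMap.integral_apply (hasFDeriv hf ha hρ hρc y).1]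
  congr 1
  ext x
  simp [mul_comm]

theorem pd_sub {ρ : E n → ℝ} (hρ : ContDiff ℝ ∞ ρ) (i : Fin n) (y z : E n) :
    pd (fun z => ρ (y - z)) i z = - pd ρ i (y - z) := by
  unfold pd
  have h1 : HasFDerivAt ρ (fderiv ℝ ρ (y - z)) (y - z) :=
    (hρ.differentiable (by simp) _).hasFDerivAt
  have h2 : HasFDerivAt (fun w : E n => y - w) (-ContinuousLinearMap.id ℝ (E n)) z :=
    (hasFDerivAt_id z).const_sub _
  have h3 := (h1.comp z h2).fderiv
  have h4 : (fun z => ρ (y - z)) = ρ ∘ (fun w : E n => y - w) := rfl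
  rw [h4, h3]
  simp

theorem lint_W {μ : Measure (E n)} [IsFiniteMeasure μ] {f : E n → E n} (hf : Measurable f)
    {a : E n → ℝ} (ha : Integrable a μ) (ha0 : ∀ x, 0 ≤ a x) {ρ : E n → ℝ} (hρ : ContDiff ℝ ∞ ρ)
    (hρc : HasCompactSupport ρ) (hρ0 : ∀ x, 0 ≤ ρ x) (hρ1 : ∫ x, ρ x = 1) :
    ∫⁻ y, ENNReal.ofReal (∫ x, ρ (y - f x) * a x ∂μ) = ENNReal.ofReal (∫ x, a x ∂μ) := by
  have h1 : ∀ y, ENNReal.ofReal (∫ x, ρ (y - f x) * a x ∂μ) =
      ∫⁻ x, ENNReal.ofReal (ρ (y - f x) * a x) ∂μ := by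
    intro y
    exact ofReal_integral_eq_lintegral_ofReal (int_mul hf ha hρ.continuous hρc y)
      (Eventually.of_forall fun x => mul_nonneg (hρ0 _) (ha0 _))
  simp_rw [h1]
  rw [lintegral_lintegral_swap]
  · have h2 : ∀ x, ∫⁻ y, ENNReal.ofReal (ρ (y - f x) * a x) = ENNReal.ofReal (a x) := by
      intro x
      have h3 : ∀ y, ENNReal.ofReal (ρ (y - f x) * a x) =
          ENNReal.ofReal (ρ (y - f x)) * ENNReal.ofReal (a x) :=
        fun y => ENNReal.ofReal_mul (hρ0 _)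
      simp_rw [h3]
      rw [lintegral_mul_const]
      · rw [lintegral_sub_right_eq_self (fun y => ENNReal.ofReal (ρ y)) (f x),
          ← ofReal_integral_eq_lintegral_ofReal
            (hρ.continuous.integrable_of_hasCompactSupport hρc)
            (Eventually.of_forall hρ0), hρ1]
        simp
      · exact (hρ.continuous.measurable.comp (measurable_id.sub_const _)).ennreal_ofReal
    simp_rw [h2]
    rw [ofReal_integral_eq_lintegral_ofReal ha (Eventually.of_forall ha0)]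
  · apply AEMeasurable.ennreal_ofReal
    have h4 : Measurable (fun p : E n × E n => ρ (p.1 - f p.2)) :=
      hρ.continuous.measurable.comp (measurable_fst.sub (hf.comp measurable_snd))
    exact h4.aemeasurable.mul (ha.aestronglyMeasurable.comp_snd).aemeasurable

theorem holder {μ : Measure (E n)} {m : ℕ} (hm : 1 ≤ m) {a b : E n → ℝ} (ha : Integrable a μ)
    (hb : Integrable b μ) (ha0 : ∀ x, 0 ≤ a x) (hb0 : ∀ x, 0 ≤ b x) :
    Integrable (fun x => a x ^ ((m : ℝ) / (m + 1)) * b x ^ (1 / ((m : ℝ) + 1))) μ ∧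
    ∫ x, a x ^ ((m : ℝ) / (m + 1)) * b x ^ (1 / ((m : ℝ) + 1)) ∂μ ≤
      (∫ x, a x ∂μ) ^ ((m : ℝ) / (m + 1)) * (∫ x, b x ∂μ) ^ (1 / ((m : ℝ) + 1)) := by
  have hm0 : (0 : ℝ) < m := by exact_mod_cast hm
  have hpq : (((m : ℝ) + 1) / m).HolderConjugate ((m : ℝ) + 1) := by
    rw [Real.holderConjugate_iff]
    constructor
    · rw [lt_div_iff₀ hm0]; linarith
    · field_simp
  have ha' : MemLp (fun x => a x ^ ((m : ℝ) / (m + 1))) (ENNReal.ofReal (((m : ℝ) + 1) / m)) μ := by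
    rw [← integrable_norm_rpow_iff]
    · refine ha.congr (Eventually.of_forall fun x => ?_)
      simp only
      rw [ENNReal.toReal_ofReal hpq.nonneg, Real.norm_of_nonneg (Real.rpow_nonneg (ha0 x) _),
        ← Real.rpow_mul (ha0 x)]
      rw [show (m : ℝ) / (m + 1) * ((m + 1) / m) = 1 by field_simp, Real.rpow_one]
    · exact (ha.aestronglyMeasurable.aemeasurable.pow_const _).aestronglyMeasurable
    · rw [Ne, ENNReal.ofReal_eq_zero, not_le]; exact hpq.pos
    · exact ENNReal.ofReal_ne_top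
  have hb' : MemLp (fun x => b x ^ (1 / ((m : ℝ) + 1))) (ENNReal.ofReal ((m : ℝ) + 1)) μ := by
    rw [← integrable_norm_rpow_iff]
    · refine hb.congr (Eventually.of_forall fun x => ?_)
      simp only
      rw [ENNReal.toReal_ofReal (by positivity), Real.norm_of_nonneg (Real.rpow_nonneg (hb0 x) _),
        ← Real.rpow_mul (hb0 x)]
      rw [show 1 / ((m : ℝ) + 1) * (m + 1) = 1 by field_simp, Real.rpow_one]
    · exact (hb.aestronglyMeasurable.aemeasurable.pow_const _).aestronglyMeasurable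
    · rw [Ne, ENNReal.ofReal_eq_zero, not_le]; positivity
    · exact ENNReal.ofReal_ne_top
  refine ⟨?_, ?_⟩
  · haveI : ENNReal.HolderConjugate (ENNReal.ofReal (((m : ℝ) + 1) / m))
        (ENNReal.ofReal ((m : ℝ) + 1)) := hpq.ennrealOfReal
    exact ha'.integrable_mul hb'
  · have h := integral_mul_le_Lp_mul_Lq_of_nonneg hpq
      (Eventually.of_forall fun x => Real.rpow_nonneg (ha0 x) ((m : ℝ) / (m + 1)))
      (Eventually.of_forall fun x => Real.rpow_nonneg (hb0 x) (1 / ((m : ℝ) + 1))) ha' hb'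
    have e1 : ∀ x, (a x ^ ((m : ℝ) / (m + 1))) ^ (((m : ℝ) + 1) / m) = a x := by
      intro x
      rw [← Real.rpow_mul (ha0 x), show (m : ℝ) / (m + 1) * ((m + 1) / m) = 1 by field_simp,
        Real.rpow_one]
    have e2 : ∀ x, (b x ^ (1 / ((m : ℝ) + 1))) ^ ((m : ℝ) + 1) = b x := by
      intro x
      rw [← Real.rpow_mul (hb0 x), show 1 / ((m : ℝ) + 1) * (m + 1) = 1 by field_simp,
        Real.rpow_one]
    simp_rw [e1, e2] at h
    rw [show 1 / (((m : ℝ) + 1) / m) = (m : ℝ) / (m + 1) by field_simp] at h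
    exact h

end Cap2Aux

open Cap2Aux



/-- Cap2. the mollified push-forward -/
theorem push_bound {m : ℕ} (hm : 1 ≤ m) {μ : Measure (E (m + 1))} [IsFiniteMeasure μ]
    {f : E (m + 1) → E (m + 1)} (hf : Measurable f) {α β : E (m + 1) → ℝ}
    {v : Fin (m + 1) → E (m + 1) → ℝ} (hα : Integrable α μ) (hβ : Integrable β μ)
    (hv : ∀ i, Integrable (v i) μ) (hα0 : ∀ x, 0 ≤ α x) (hβ0 : ∀ x, 0 ≤ β x)
    (hvb : ∀ i, ∀ᵐ x ∂μ, |v i x| ≤ α x ^ ((m : ℝ) / (m + 1)) * β x ^ (1 / ((m : ℝ) + 1)))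
    (hid : ∀ i, ∀ ψ : E (m + 1) → ℝ, ContDiff ℝ ∞ ψ → HasCompactSupport ψ →
      ∫ x, pd ψ i (f x) * α x ∂μ = - ∫ x, ψ (f x) * v i x ∂μ)
    (ρ : E (m + 1) → ℝ) (hρ : ContDiff ℝ ∞ ρ) (hρc : HasCompactSupport ρ) (hρ0 : ∀ x, 0 ≤ ρ x)
    (hρ1 : ∫ x, ρ x = 1) :
    ContDiff ℝ 1 (fun y => ∫ x, ρ (y - f x) * α x ∂μ) ∧
    (∀ y, 0 ≤ ∫ x, ρ (y - f x) * α x ∂μ) ∧
    (∀ y, gr (fun y => ∫ x, ρ (y - f x) * α x ∂μ) y ≤
      (m + 1) * (∫ x, ρ (y - f x) * α x ∂μ) ^ ((m : ℝ) / (m + 1)) *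
        (∫ x, ρ (y - f x) * β x ∂μ) ^ (1 / ((m : ℝ) + 1))) ∧
    Measurable (fun y => ∫ x, ρ (y - f x) * β x ∂μ) ∧
    (∫⁻ y, ENNReal.ofReal (∫ x, ρ (y - f x) * α x ∂μ) = ENNReal.ofReal (∫ x, α x ∂μ)) ∧
    (∫⁻ y, ENNReal.ofReal (∫ x, ρ (y - f x) * β x ∂μ) = ENNReal.ofReal (∫ x, β x ∂μ)) := by
  have hρs := hρ
  set W : E (m + 1) → ℝ := fun y => ∫ x, ρ (y - f x) * α x ∂μ with hW
  have hnn : ∀ (a : E (m + 1) → ℝ), (∀ x, 0 ≤ a x) → ∀ y, 0 ≤ ∫ x, ρ (y - f x) * a x ∂μ :=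
    fun a ha y => integral_nonneg fun x => mul_nonneg (hρ0 _) (ha _)
  refine ⟨contDiff_W hf hα hρ hρc, hnn α hα0, ?_, ?_, lint_W hf hα hα0 hρ hρc hρ0 hρ1,
    lint_W hf hβ hβ0 hρ hρc hρ0 hρ1⟩
  · intro y
    have key : ∀ i, |pd W i y| ≤ (∫ x, ρ (y - f x) * α x ∂μ) ^ ((m : ℝ) / (m + 1)) *
        (∫ x, ρ (y - f x) * β x ∂μ) ^ (1 / ((m : ℝ) + 1)) := by
      intro i
      have h1 : pd W i y = ∫ x, ρ (y - f x) * v i x ∂μ := by
        rw [hW, pd_W hf hα hρ hρc]
        have h2 := hid i (fun z => ρ (y - z)) (hρ.comp (contDiff_const.sub contDiff_id))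
          (hρc.comp_homeomorph (Homeomorph.subLeft y))
        simp_rw [pd_sub hρ i y] at h2
        simp_rw [neg_mul] at h2
        rw [integral_neg] at h2
        linarith
      rw [h1]
      have hcp : 0 ≤ (m : ℝ) / (m + 1) := by positivity
      have hcq : 0 ≤ 1 / ((m : ℝ) + 1) := by positivity
      obtain ⟨hI, hH⟩ := holder hm (int_mul hf hα hρ.continuous hρc y)
        (int_mul hf hβ hρ.continuous hρc y) (fun x => mul_nonneg (hρ0 _) (hα0 x))
        (fun x => mul_nonneg (hρ0 _) (hβ0 x))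
      have h3 : ∀ x, (ρ (y - f x) * α x) ^ ((m : ℝ) / (m + 1)) *
          (ρ (y - f x) * β x) ^ (1 / ((m : ℝ) + 1)) =
          ρ (y - f x) * (α x ^ ((m : ℝ) / (m + 1)) * β x ^ (1 / ((m : ℝ) + 1))) := by
        intro x
        rw [Real.mul_rpow (hρ0 _) (hα0 x), Real.mul_rpow (hρ0 _) (hβ0 x)]
        have h4 : ρ (y - f x) ^ ((m : ℝ) / (m + 1)) * ρ (y - f x) ^ (1 / ((m : ℝ) + 1)) =
            ρ (y - f x) := by
          have h5 : (m : ℝ) / (m + 1) + 1 / ((m : ℝ) + 1) = 1 := by field_simp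
          rw [← Real.rpow_add' (hρ0 _) (by rw [h5]; exact one_ne_zero), h5, Real.rpow_one]
        calc _ = (ρ (y - f x) ^ ((m : ℝ) / (m + 1)) * ρ (y - f x) ^ (1 / ((m : ℝ) + 1))) *
              (α x ^ ((m : ℝ) / (m + 1)) * β x ^ (1 / ((m : ℝ) + 1))) := by ring
          _ = _ := by rw [h4]
      calc |∫ x, ρ (y - f x) * v i x ∂μ| ≤ ∫ x, |ρ (y - f x) * v i x| ∂μ :=
            abs_integral_le_integral_abs
        _ ≤ ∫ x, (ρ (y - f x) * α x) ^ ((m : ℝ) / (m + 1)) *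
              (ρ (y - f x) * β x) ^ (1 / ((m : ℝ) + 1)) ∂μ := by
            apply integral_mono_ae (int_mul hf (hv i) hρ.continuous hρc y).abs hI
            filter_upwards [hvb i] with x hx
            rw [h3, abs_mul, abs_of_nonneg (hρ0 _)]
            exact mul_le_mul_of_nonneg_left hx (hρ0 _)
        _ ≤ _ := hH
    unfold gr
    calc ∑ j, |pd W j y| ≤ ∑ _j : Fin (m + 1), (∫ x, ρ (y - f x) * α x ∂μ) ^ ((m : ℝ) / (m + 1)) *
        (∫ x, ρ (y - f x) * β x ∂μ) ^ (1 / ((m : ℝ) + 1)) := Finset.sum_le_sum fun i _ => key i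
      _ = _ := by
        rw [Finset.sum_const, Finset.card_univ, Fintype.card_fin, nsmul_eq_mul]
        push_cast
        ring
  · exact (contDiff_W hf hβ hρ hρc).continuous.measurable


end H248.ID.J15

namespace H248.ID

export J15 (push_bound)

end H248.ID
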