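import Pool.Agent.H248.ID.J14
import Pool.Agent.H248.ID.J15

set_option autoImplicit false
open MeasureTheory Metric Set Filter Topology
open scoped ENNReal NNReal ContDiff

namespace H248.ID.J16






/-- shifted root -/
noncomputable def Wf (m : ℕ) (w : ℝ) : ℝ := (w + (1/4) ^ (m + 1)) ^ (1 / ((m : ℝ) + 1)) - 1/4

theorem Wf_d (m : ℕ) : (((1 : ℝ)/4) ^ (m + 1)) ^ (1 / ((m : ℝ) + 1)) = 1/4 := by
  have h := Real.pow_rpow_inv_natCast (x := (1 : ℝ)/4) (n := m + 1) (by norm_num) (Nat.succ_ne_zero m)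
  have e : (((m + 1 : ℕ) : ℝ))⁻¹ = 1 / ((m : ℝ) + 1) := by push_cast; rw [one_div]
  rwa [e] at h

theorem root_pow (m : ℕ) {x : ℝ} (hx : 0 ≤ x) : (x ^ (1 / ((m : ℝ) + 1))) ^ (m + 1) = x := by
  have h := Real.rpow_inv_natCast_pow (x := x) (n := m + 1) hx (Nat.succ_ne_zero m)
  have e : (((m + 1 : ℕ) : ℝ))⁻¹ = 1 / ((m : ℝ) + 1) := by push_cast; rw [one_div]
  rwa [e] at h

theorem Wf_nonneg (m : ℕ) {w : ℝ} (hw : 0 ≤ w) : 0 ≤ Wf m w := by
  unfold Wf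
  have h1 := Real.rpow_le_rpow (x := ((1 : ℝ)/4) ^ (m + 1)) (y := w + (1/4) ^ (m + 1))
    (z := 1 / ((m : ℝ) + 1)) (by positivity) (by linarith) (by positivity)
  rw [Wf_d] at h1
  linarith

theorem Wf_le (m : ℕ) {w : ℝ} (hw : 0 ≤ w) : Wf m w ≤ w ^ (1 / ((m : ℝ) + 1)) := by
  unfold Wf
  have hm1 : (1 : ℝ) ≤ (m : ℝ) + 1 := by
    have : (0 : ℝ) ≤ m := Nat.cast_nonneg m
    linarith
  have h1 := Real.rpow_add_le_add_rpow (p := 1 / ((m : ℝ) + 1)) (a := w) (b := (1/4) ^ (m + 1)) hw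
    (by positivity) (by positivity) (by rw [div_le_one (by positivity)]; exact hm1)
  rw [Wf_d] at h1
  linarith

theorem Wf_pow (m : ℕ) {w : ℝ} (hw : 0 ≤ w) : |Wf m w| ^ (m + 1) ≤ w := by
  rw [abs_of_nonneg (Wf_nonneg m hw)]
  calc Wf m w ^ (m + 1) ≤ (w ^ (1 / ((m : ℝ) + 1))) ^ (m + 1) :=
        pow_le_pow_left₀ (Wf_nonneg m hw) (Wf_le m hw) _
    _ = w := root_pow m hw

theorem Wf_big (m : ℕ) {w : ℝ} (hw : (7/8 : ℝ) ^ (m + 1) ≤ w) : 1/2 ≤ Wf m w := by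
  unfold Wf
  have h1 := Real.rpow_le_rpow (x := ((7 : ℝ)/8) ^ (m + 1)) (y := w + (1/4) ^ (m + 1))
    (z := 1 / ((m : ℝ) + 1)) (by positivity) (by
      have : (0 : ℝ) < (1/4) ^ (m + 1) := by positivity
      linarith) (by positivity)
  have h := Real.pow_rpow_inv_natCast (x := (7 : ℝ)/8) (n := m + 1) (by norm_num) (Nat.succ_ne_zero m)
  have e : (((m + 1 : ℕ) : ℝ))⁻¹ = 1 / ((m : ℝ) + 1) := by push_cast; rw [one_div]
  rw [e] at h
  rw [h] at h1
  linarith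

theorem Wf_deriv (m : ℕ) {w : ℝ} (hw : 0 ≤ w) :
    HasDerivAt (Wf m) (1 / ((m : ℝ) + 1) * (w + (1/4) ^ (m + 1)) ^ (1 / ((m : ℝ) + 1) - 1)) w := by
  have hpos : 0 < w + (1/4) ^ (m + 1) := by positivity
  have h1 : HasDerivAt (fun w : ℝ => w + (1/4) ^ (m + 1)) 1 w := (hasDerivAt_id w).add_const _
  have h2 := (h1.rpow_const (p := 1 / ((m : ℝ) + 1)) (Or.inl hpos.ne')).sub_const (1/4)
  rw [one_mul] at h2
  exact h2

theorem Wf_comp {m : ℕ} {w : E (m + 1) → ℝ} (hw : ContDiff ℝ 1 w) (hw0 : ∀ y, 0 ≤ w y) :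
    ContDiff ℝ 1 (fun y => Wf m (w y)) := by
  unfold Wf
  apply ContDiff.sub _ contDiff_const
  apply ContDiff.rpow_const_of_ne
  · exact hw.add contDiff_const
  · intro y
    have := hw0 y
    positivity

theorem gr_comp {m : ℕ} {w : E (m + 1) → ℝ} (hw : ContDiff ℝ 1 w) (hw0 : ∀ y, 0 ≤ w y)
    (y : E (m + 1)) :
    gr (fun y => Wf m (w y)) y =
      (1 / ((m : ℝ) + 1) * (w y + (1/4) ^ (m + 1)) ^ (1 / ((m : ℝ) + 1) - 1)) * gr w y := by
  have h1 := Wf_deriv m (hw0 y)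
  have h2 : HasFDerivAt w (fderiv ℝ w y) y := (hw.differentiable (by norm_num) y).hasFDerivAt
  have h3 := h1.comp_hasFDerivAt y h2
  have h0 := hw0 y
  have hc : 0 ≤ (1 / ((m : ℝ) + 1) * (w y + (1/4) ^ (m + 1)) ^ (1 / ((m : ℝ) + 1) - 1)) := by
    positivity
  unfold gr
  rw [Finset.mul_sum]
  apply Finset.sum_congr rfl
  intro j _
  have h4 : pd (fun y => Wf m (w y)) j y =
      (1 / ((m : ℝ) + 1) * (w y + (1/4) ^ (m + 1)) ^ (1 / ((m : ℝ) + 1) - 1)) * pd w j y := by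
    unfold pd
    have h5 := h3.fderiv
    change fderiv ℝ (fun y => Wf m (w y)) y = _ at h5
    rw [h5]; rfl
  rw [h4, abs_mul, abs_of_nonneg hc]

theorem gr_pow_le {m : ℕ} {w : E (m + 1) → ℝ} (hw : ContDiff ℝ 1 w) (hw0 : ∀ y, 0 ≤ w y)
    {τ : ℝ} (hτ : 0 ≤ τ) (y : E (m + 1))
    (hg : gr w y ≤ (m + 1) * w y ^ ((m : ℝ) / (m + 1)) * τ ^ (1 / ((m : ℝ) + 1))) :
    gr (fun y => Wf m (w y)) y ^ (m + 1) ≤ τ := by
  have h0 := hw0 y
  have hm : (0 : ℝ) < (m : ℝ) + 1 := by positivity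
  have hpos : 0 < w y + (1/4) ^ (m + 1) := by positivity
  have hgr0 : 0 ≤ gr (fun y => Wf m (w y)) y := Finset.sum_nonneg fun j _ => abs_nonneg _
  have hle : gr (fun y => Wf m (w y)) y ≤ τ ^ (1 / ((m : ℝ) + 1)) := by
    rw [gr_comp hw hw0]
    have hc : 0 ≤ (1 / ((m : ℝ) + 1) * (w y + (1/4) ^ (m + 1)) ^ (1 / ((m : ℝ) + 1) - 1)) := by
      positivity
    refine (mul_le_mul_of_nonneg_left hg hc).trans ?_
    have e1 : (1 / ((m : ℝ) + 1) - 1) = -((m : ℝ) / (m + 1)) := by field_simp; ring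
    rw [e1, Real.rpow_neg hpos.le]
    have h1 : w y ^ ((m : ℝ) / (m + 1)) ≤ (w y + (1/4) ^ (m + 1)) ^ ((m : ℝ) / (m + 1)) := by
      apply Real.rpow_le_rpow h0 _ (by positivity)
      have : (0 : ℝ) < (1/4) ^ (m + 1) := by positivity
      linarith
    have hB : 0 < (w y + (1/4) ^ (m + 1)) ^ ((m : ℝ) / (m + 1)) := Real.rpow_pos_of_pos hpos _
    have hτ' : 0 ≤ τ ^ (1 / ((m : ℝ) + 1)) := Real.rpow_nonneg hτ _
    have e2 : 1 / ((m : ℝ) + 1) * ((w y + (1/4) ^ (m + 1)) ^ ((m : ℝ) / (m + 1)))⁻¹ *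
        ((m + 1) * w y ^ ((m : ℝ) / (m + 1)) * τ ^ (1 / ((m : ℝ) + 1))) =
        (w y ^ ((m : ℝ) / (m + 1)) / (w y + (1/4) ^ (m + 1)) ^ ((m : ℝ) / (m + 1))) *
          τ ^ (1 / ((m : ℝ) + 1)) := by
      field_simp
    rw [e2]
    have h2 : w y ^ ((m : ℝ) / (m + 1)) / (w y + (1/4) ^ (m + 1)) ^ ((m : ℝ) / (m + 1)) ≤ 1 :=
      (div_le_one hB).2 h1
    exact mul_le_of_le_one_left hτ' h2
  calc gr (fun y => Wf m (w y)) y ^ (m + 1) ≤ (τ ^ (1 / ((m : ℝ) + 1))) ^ (m + 1) :=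
        pow_le_pow_left₀ hgr0 hle _
    _ = τ := root_pow m hτ

/-- the mollifiers -/
noncomputable def bmp (n : ℕ) (k : ℕ) : ContDiffBump (0 : E n) where
  rIn := 1 / ((k : ℝ) + 1)
  rOut := 2 / ((k : ℝ) + 1)
  rIn_pos := by positivity
  rIn_lt_rOut := by
    apply div_lt_div_of_pos_right (by norm_num) (by positivity)

theorem bmp_tendsto {n : ℕ} {N : E n → ℝ} (hN : Integrable N) :
    ∀ᵐ y, Tendsto (fun k => ∫ z, (bmp n k).normed volume (y - z) * N z) atTop (𝓝 (N y)) := by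
  have h1 : Tendsto (fun k => (bmp n k).rOut) atTop (𝓝 0) := by
    have := tendsto_one_div_add_atTop_nhds_zero_nat (𝕜 := ℝ)
    have h2 := this.const_mul 2
    simpa [bmp, div_eq_mul_inv] using h2
  have h2 : ∀ᶠ k in atTop, (bmp n k).rOut ≤ 2 * (bmp n k).rIn := by
    refine Eventually.of_forall fun k => ?_
    simp only [bmp]
    apply le_of_eq; ring
  have h3 := ContDiffBump.ae_convolution_tendsto_right_of_locallyIntegrable (φ := bmp n)
    (μ := (volume : Measure (E n))) h1 h2 hN.locallyIntegrable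
  filter_upwards [h3] with y hy
  refine hy.congr fun k => ?_
  rw [convolution_def]
  have := integral_sub_left_eq_self (μ := (volume : Measure (E n)))
    (fun t => (bmp n k).normed volume (y - t) * N t) y
  rw [← this]
  congr 1
  funext t
  simp



/-- Cap. -/
theorem cap {m : ℕ} (hm : 1 ≤ m) : ∃ C : ℝ, 0 < C ∧ ∀ (μ : Measure (E (m + 1)))
    [IsFiniteMeasure μ] (f : E (m + 1) → E (m + 1)), Measurable f → ∀ (α β : E (m + 1) → ℝ)
    (v : Fin (m + 1) → E (m + 1) → ℝ), Integrable α μ → Integrable β μ →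
    (∀ i, Integrable (v i) μ) → (∀ x, 0 ≤ α x) → (∀ x, 0 ≤ β x) →
    (∀ i, ∀ᵐ x ∂μ, |v i x| ≤ α x ^ ((m : ℝ) / (m + 1)) * β x ^ (1 / ((m : ℝ) + 1))) →
    (∀ i, ∀ ψ : E (m + 1) → ℝ, ContDiff ℝ ∞ ψ → HasCompactSupport ψ →
      ∫ x, pd ψ i (f x) * α x ∂μ = - ∫ x, ψ (f x) * v i x ∂μ) →
    ∀ (i : Fin (m + 1)) (s t : ℝ), C * (∫ x, α x ∂μ + ∫ x, β x ∂μ) < t - s →
    ∃ K : Set ℝ, IsCompact K ∧ K ⊆ Icc s t ∧ 0 < volume K ∧
      ∀ N : E (m + 1) → ℝ, Integrable N → (∀ y, N y = 0 ∨ 1 ≤ N y) →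
      (∀ ψ : E (m + 1) → ℝ, Continuous ψ → HasCompactSupport ψ → (∀ y, 0 ≤ ψ y) →
        ∫ y, ψ y * N y ≤ ∫ x, ψ (f x) * α x ∂μ) →
      ∀ᵐ y, y i ∈ K → N y = 0 := by
  obtain ⟨Cs, hCs, hslice⟩ := slice_sup hm
  refine ⟨2 ^ (m + 1) * (Cs.toReal + 1), by positivity, ?_⟩
  intro μ _ f hf α β v hα hβ hv hα0 hβ0 hvb hid i s t hst
  set ρ : ℕ → E (m + 1) → ℝ := fun k => (bmp (m + 1) k).normed volume with hρdef
  have hρs : ∀ k, ContDiff ℝ ∞ (ρ k) := fun k => (bmp (m + 1) k).contDiff_normed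
  have hρc : ∀ k, HasCompactSupport (ρ k) := fun k => (bmp (m + 1) k).hasCompactSupport_normed
  have hρ0 : ∀ k x, 0 ≤ ρ k x := fun k x => (bmp (m + 1) k).nonneg_normed x
  have hρ1 : ∀ k, ∫ x, ρ k x = 1 := fun k => (bmp (m + 1) k).integral_normed
  have hpb := fun k => push_bound hm hf hα hβ hv hα0 hβ0 hvb hid (ρ k) (hρs k) (hρc k) (hρ0 k) (hρ1 k)
  set w : ℕ → E (m + 1) → ℝ := fun k y => ∫ x, ρ k (y - f x) * α x ∂μ with hw
  set τ : ℕ → E (m + 1) → ℝ := fun k y => ∫ x, ρ k (y - f x) * β x ∂μ with hτ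
  have hw0 : ∀ k y, 0 ≤ w k y := fun k => (hpb k).2.1
  have hτ0 : ∀ k y, 0 ≤ τ k y := fun k y => integral_nonneg fun x => mul_nonneg (hρ0 k _) (hβ0 x)
  have hwC : ∀ k, ContDiff ℝ 1 (w k) := fun k => (hpb k).1
  have huC : ∀ k, ContDiff ℝ 1 (fun y => Wf m (w k y)) := fun k => Wf_comp (hwC k) (hw0 k)
  choose Λ hΛm hΛb hΛi using fun k => hslice (fun y => Wf m (w k y)) (huC k) i
  set Mt : ℝ := ∫ x, α x ∂μ + ∫ x, β x ∂μ with hMt
  have hIα : 0 ≤ ∫ x, α x ∂μ := integral_nonneg hα0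
  have hIβ : 0 ≤ ∫ x, β x ∂μ := integral_nonneg hβ0
  have hMt0 : 0 ≤ Mt := add_nonneg hIα hIβ
  have hΛint : ∀ k, ∫⁻ s, Λ k s ≤ ENNReal.ofReal Mt := by
    intro k
    rw [hΛi k]
    calc _ ≤ ∫⁻ y, (ENNReal.ofReal (w k y) + ENNReal.ofReal (τ k y)) := by
          apply lintegral_mono
          intro y
          simp only
          rw [← ENNReal.ofReal_add (hw0 k y) (hτ0 k y)]
          apply ENNReal.ofReal_le_ofReal
          exact add_le_add (Wf_pow m (hw0 k y))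
            (gr_pow_le (hwC k) (hw0 k) (hτ0 k y) y ((hpb k).2.2.1 y))
      _ = (∫⁻ y, ENNReal.ofReal (w k y)) + (∫⁻ y, ENNReal.ofReal (τ k y)) := by
          apply lintegral_add_left
          exact ((hwC k).continuous.measurable).ennreal_ofReal
      _ = ENNReal.ofReal (∫ x, α x ∂μ) + ENNReal.ofReal (∫ x, β x ∂μ) := by
          rw [← (hpb k).2.2.2.2.1, ← (hpb k).2.2.2.2.2]
      _ = ENNReal.ofReal Mt := (ENNReal.ofReal_add hIα hIβ).symm
  set G : ℝ → ℝ≥0∞ := fun s => liminf (fun k => Cs * Λ k s) atTop with hG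
  have hGm : Measurable G := Measurable.liminf (fun k => (hΛm k).const_mul Cs)
  have hGi : ∫⁻ s, G s ≤ Cs * ENNReal.ofReal Mt := by
    refine (lintegral_liminf_le (fun k => (hΛm k).const_mul Cs)).trans ?_
    refine liminf_le_of_le (by isBoundedDefault) ?_
    intro b hb
    obtain ⟨k, hk⟩ := hb.exists
    refine hk.trans ?_
    rw [lintegral_const_mul Cs (hΛm k)]
    gcongr
    exact hΛint k
  set c₀ : ℝ≥0∞ := ENNReal.ofReal ((1/2) ^ (m + 1)) with hc₀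
  have hc₀0 : c₀ ≠ 0 := by rw [hc₀, ne_eq, ENNReal.ofReal_eq_zero, not_le]; positivity
  have hc₀t : c₀ ≠ ⊤ := ENNReal.ofReal_ne_top
  set S : Set ℝ := Icc s t ∩ {x | G x < c₀} with hS
  have hSm : MeasurableSet S := measurableSet_Icc.inter (measurableSet_lt hGm measurable_const)
  have hvolS : 0 < volume S := by
    by_contra hcon
    have h0 : volume S = 0 := le_antisymm (not_lt.1 hcon) zero_le
    have h1 : volume (Icc s t) ≤ volume {x | c₀ ≤ G x} := by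
      calc volume (Icc s t) ≤ volume (S ∪ {x | c₀ ≤ G x}) := by
            apply measure_mono
            intro x hx
            by_cases hxG : G x < c₀
            · exact Or.inl ⟨hx, hxG⟩
            · exact Or.inr (not_lt.1 hxG)
        _ ≤ volume S + volume {x | c₀ ≤ G x} := measure_union_le _ _
        _ = volume {x | c₀ ≤ G x} := by rw [h0, zero_add]
    have h2 : c₀ * volume {x | c₀ ≤ G x} ≤ Cs * ENNReal.ofReal Mt :=
      (mul_meas_ge_le_lintegral hGm c₀).trans hGi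
    have h3 : c₀ * ENNReal.ofReal (t - s) ≤ Cs * ENNReal.ofReal Mt := by
      rw [← Real.volume_Icc]
      exact (mul_le_mul_right h1 c₀).trans h2
    rw [hc₀, ← ENNReal.ofReal_mul (by positivity), ← ENNReal.ofReal_toReal hCs,
      ← ENNReal.ofReal_mul ENNReal.toReal_nonneg] at h3
    have h4 : (1/2) ^ (m + 1) * (t - s) ≤ Cs.toReal * Mt := by
      rcases ENNReal.ofReal_le_ofReal_iff'.1 h3 with h | h
      · exact h
      · refine h.trans (by positivity)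
    have h5 : (1/2 : ℝ) ^ (m + 1) * (2 ^ (m + 1) * (Cs.toReal + 1) * Mt) <
        (1/2) ^ (m + 1) * (t - s) := mul_lt_mul_of_pos_left hst (by positivity)
    have h6 : (1/2 : ℝ) ^ (m + 1) * (2 ^ (m + 1) * (Cs.toReal + 1) * Mt) = (Cs.toReal + 1) * Mt := by
      have : (1/2 : ℝ) ^ (m + 1) * 2 ^ (m + 1) = 1 := by rw [← mul_pow]; norm_num
      calc _ = ((1/2 : ℝ) ^ (m + 1) * 2 ^ (m + 1)) * ((Cs.toReal + 1) * Mt) := by ring
        _ = _ := by rw [this, one_mul]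
    rw [h6] at h5
    linarith
  obtain ⟨K, hKS, hKc, hKpos⟩ := hSm.exists_lt_isCompact hvolS
  refine ⟨K, hKc, hKS.trans inter_subset_left, hKpos, ?_⟩
  intro N hN hN01 hNψ
  filter_upwards [bmp_tendsto hN] with y hy hyK
  rcases hN01 y with h | h
  · exact h
  · exfalso
    have hlt : ((7 : ℝ)/8) ^ (m + 1) < N y := lt_of_lt_of_le
      (pow_lt_one₀ (by norm_num) (by norm_num) (Nat.succ_ne_zero m)) h
    have hev := hy.eventually (lt_mem_nhds hlt)
    have hGy : c₀ ≤ G (y i) := by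
      apply le_liminf_of_le (by isBoundedDefault)
      filter_upwards [hev] with k hk
      have h1 : ∫ z, (bmp (m + 1) k).normed volume (y - z) * N z ≤ w k y := by
        have hcont : Continuous (fun z => ρ k (y - z)) :=
          (hρs k).continuous.comp (continuous_const.sub continuous_id)
        have hcs : HasCompactSupport (fun z => ρ k (y - z)) :=
          (hρc k).comp_homeomorph (Homeomorph.subLeft y)
        exact hNψ (fun z => ρ k (y - z)) hcont hcs (fun z => hρ0 k _)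
      have h2 : (7/8 : ℝ) ^ (m + 1) ≤ w k y := (hk.le).trans h1
      have h3 := Wf_big m h2
      refine le_trans ?_ (hΛb k y)
      apply ENNReal.ofReal_le_ofReal
      apply pow_le_pow_left₀ (by norm_num)
      exact h3.trans (le_abs_self _)
    exact absurd (hKS hyK).2 (not_lt.2 hGy)


end H248.ID.J16

namespace H248.ID

export J16 (cap)

end H248.ID
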