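import Pool.Agent.H248.ID.J08

set_option autoImplicit false
open MeasureTheory Metric Set Filter Topology
open scoped ENNReal NNReal ContDiff

namespace H248.ID.J17







/-- L15 with both integrals bounded separately -/
theorem exists_cutoff_strong {m : ℕ} (hm : 1 ≤ m) {a : E (m + 1)} {R l : ℝ} (hR : 0 < R) (hl : 0 < l)
    {J k : E (m + 1) → ℝ} (hk : Measurable k) (hk0 : ∀ x, 0 ≤ k x)
    (hJ0 : ∀ x, 0 ≤ J x) (hJ : IntegrableOn J (closedBall a R))
    (hexp : IntegrableOn (fun x => Real.exp (l * k x)) (closedBall a R)) {ε : ℝ} (hε : 0 < ε) :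
    ∃ r : ℝ, 0 < r ∧ r < R ∧ ∃ ζ : E (m + 1) → ℝ, ContDiff ℝ ∞ ζ ∧ tsupport ζ ⊆ closedBall a R ∧
      (∀ x, 0 ≤ ζ x) ∧ (∀ x, ζ x ≤ 1) ∧ (∀ x ∈ closedBall a r, ζ x = 1) ∧
      IntegrableOn (fun x => gr ζ x ^ (m + 1) * k x ^ m) (closedBall a R) ∧
      IntegrableOn (fun x => ζ x ^ (m + 1) * J x) (closedBall a R) ∧
      (∫ x in closedBall a R, ζ x ^ (m + 1) * J x) ≤ ε / 2 ∧
      (∫ x in closedBall a R, gr ζ x ^ (m + 1) * k x ^ m) ≤ ε / 2 := by
  classical
  obtain ⟨C, hC, hcut⟩ := cutoff (m + 1)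
  -- elementary facts on the balls
  have hball : ∀ i j : ℕ, i ≤ j → closedBall a (R / 2 ^ j) ⊆ closedBall a (R / 2 ^ i) := by
    intro i j hij
    apply closedBall_subset_closedBall
    apply div_le_div_of_nonneg_left hR.le (by positivity)
    exact pow_le_pow_right₀ (by norm_num) hij
  have hballR : ∀ j : ℕ, closedBall a (R / 2 ^ j) ⊆ closedBall a R := by
    intro j
    have := hball 0 j (Nat.zero_le j)
    simpa using this
  have hmeas : ∀ j : ℕ, MeasurableSet (closedBall a (R / 2 ^ j)) :=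
    fun j => isClosed_closedBall.measurableSet
  have hmeasR : MeasurableSet (closedBall a R) := isClosed_closedBall.measurableSet
  -- exponential bound
  set C2 : ℝ := (m.factorial : ℝ) * (2 / l) ^ m with hC2
  have hC2pos : 0 < C2 := by positivity
  have hexp2 : ∀ x, k x ^ m ≤ C2 * Real.exp (l * k x / 2) := by
    intro x
    have hkx := hk0 x
    have h1 := Real.pow_div_factorial_le_exp (l * k x / 2) (by positivity) m
    rw [div_le_iff₀ (by positivity)] at h1
    have h2 : k x ^ m = (2 / l) ^ m * (l * k x / 2) ^ m := by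
      rw [← mul_pow]; congr 1; field_simp
    rw [h2]
    calc (2 / l) ^ m * (l * k x / 2) ^ m
        ≤ (2 / l) ^ m * (Real.exp (l * k x / 2) * (m.factorial : ℝ)) :=
          mul_le_mul_of_nonneg_left h1 (by positivity)
      _ = C2 * Real.exp (l * k x / 2) := by rw [hC2]; ring
  have hexp3 : ∀ x, k x ^ m ≤ C2 * Real.exp (l * k x) := by
    intro x
    refine (hexp2 x).trans (mul_le_mul_of_nonneg_left ?_ hC2pos.le)
    apply Real.exp_le_exp.2
    have := mul_nonneg hl.le (hk0 x)
    linarith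
  have hkm : IntegrableOn (fun x => k x ^ m) (closedBall a R) := by
    refine Integrable.mono' (hexp.const_mul C2) (hk.pow_const m).aestronglyMeasurable ?_
    refine Eventually.of_forall fun x => ?_
    rw [Real.norm_of_nonneg (pow_nonneg (hk0 x) m)]
    exact hexp3 x
  set I0 : ℝ := ∫ x in closedBall a R, Real.exp (l * k x) with hI0
  have hI0nn : 0 ≤ I0 := by
    rw [hI0]; exact integral_nonneg fun x => (Real.exp_pos _).le
  set C1 : ℝ := ((2 / l) * ((m + 1 : ℕ) * Real.log 2)) ^ m * (2 * R) ^ (m + 1) + C2 * I0 with hC1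
  have hlog : 0 < Real.log 2 := Real.log_pos (by norm_num)
  have hC1nn : 0 ≤ C1 := by positivity
  have key : ∀ j : ℕ, 1 ≤ j →
      ∫ x in closedBall a (R / 2 ^ j), k x ^ m ≤ C1 * (j : ℝ) ^ m / ((2 : ℝ) ^ j) ^ (m + 1) := by
    intro j hj
    set b : ℝ := (2 / l) * ((m + 1 : ℕ) * ((j : ℝ) * Real.log 2)) with hb
    have hb0 : 0 ≤ b := by positivity
    have hexpb : Real.exp (-(l * b / 2)) = 1 / ((2 : ℝ) ^ j) ^ (m + 1) := by
      have h1 : l * b / 2 = ((m + 1 : ℕ) : ℝ) * ((j : ℝ) * Real.log 2) := by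
        rw [hb]; field_simp
      rw [h1, Real.exp_neg, Real.exp_nat_mul, Real.exp_nat_mul, Real.exp_log (by norm_num),
        one_div]
    have hpt : ∀ x, k x ^ m ≤ b ^ m + C2 * (1 / ((2 : ℝ) ^ j) ^ (m + 1)) * Real.exp (l * k x) := by
      intro x
      rcases le_or_gt (k x) b with h | h
      · have h1 : k x ^ m ≤ b ^ m := pow_le_pow_left₀ (hk0 x) h m
        have h2 : 0 ≤ C2 * (1 / ((2 : ℝ) ^ j) ^ (m + 1)) * Real.exp (l * k x) := by positivity
        linarith
      · have h1 := hexp2 x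
        have h2 : Real.exp (l * k x / 2) ≤ Real.exp (-(l * b / 2)) * Real.exp (l * k x) := by
          rw [← Real.exp_add]
          apply Real.exp_le_exp.2
          have := mul_lt_mul_of_pos_left h hl
          linarith
        rw [hexpb] at h2
        have h3 : C2 * Real.exp (l * k x / 2) ≤
            C2 * (1 / ((2 : ℝ) ^ j) ^ (m + 1) * Real.exp (l * k x)) :=
          mul_le_mul_of_nonneg_left h2 hC2pos.le
        have h4 : 0 ≤ b ^ m := pow_nonneg hb0 m
        have h5 : C2 * (1 / ((2 : ℝ) ^ j) ^ (m + 1) * Real.exp (l * k x)) =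
          C2 * (1 / ((2 : ℝ) ^ j) ^ (m + 1)) * Real.exp (l * k x) := by ring
        linarith
    have hexpj : IntegrableOn (fun x => Real.exp (l * k x)) (closedBall a (R / 2 ^ j)) :=
      hexp.mono_set (hballR j)
    have hfin : volume (closedBall a (R / 2 ^ j)) ≠ ⊤ := by
      rw [Real.volume_pi_closedBall a (by positivity)]
      exact ENNReal.ofReal_ne_top
    have hconst : IntegrableOn (fun _ : E (m + 1) => b ^ m) (closedBall a (R / 2 ^ j)) :=
      integrableOn_const hfin
    have hvol : volume.real (closedBall a (R / 2 ^ j)) = (2 * (R / 2 ^ j)) ^ (m + 1) := by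
      rw [Measure.real, Real.volume_pi_closedBall a (by positivity), ENNReal.toReal_ofReal
        (by positivity), Fintype.card_fin]
    have h1 : ∫ x in closedBall a (R / 2 ^ j), k x ^ m ≤
        ∫ x in closedBall a (R / 2 ^ j),
          (b ^ m + C2 * (1 / ((2 : ℝ) ^ j) ^ (m + 1)) * Real.exp (l * k x)) := by
      apply setIntegral_mono_on (hkm.mono_set (hballR j)) (hconst.add (hexpj.const_mul _)) (hmeas j)
      intro x _
      exact hpt x
    have h2 : ∫ x in closedBall a (R / 2 ^ j),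
          (b ^ m + C2 * (1 / ((2 : ℝ) ^ j) ^ (m + 1)) * Real.exp (l * k x)) =
        (2 * (R / 2 ^ j)) ^ (m + 1) * b ^ m + C2 * (1 / ((2 : ℝ) ^ j) ^ (m + 1)) *
          ∫ x in closedBall a (R / 2 ^ j), Real.exp (l * k x) := by
      rw [integral_add hconst (hexpj.const_mul _), integral_const_mul, setIntegral_const, hvol,
        smul_eq_mul]
    have h3 : ∫ x in closedBall a (R / 2 ^ j), Real.exp (l * k x) ≤ I0 := by
      apply setIntegral_mono_set hexp
      · exact Eventually.of_forall fun x => (Real.exp_pos _).le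
      · exact (hballR j).eventuallyLE
    have hj1 : (1 : ℝ) ≤ (j : ℝ) ^ m := one_le_pow₀ (by exact_mod_cast hj)
    have hp : (0 : ℝ) < ((2 : ℝ) ^ j) ^ (m + 1) := by positivity
    have h4 : (2 * (R / 2 ^ j)) ^ (m + 1) * b ^ m =
        ((2 / l) * ((m + 1 : ℕ) * Real.log 2)) ^ m * (2 * R) ^ (m + 1) * (j : ℝ) ^ m /
          ((2 : ℝ) ^ j) ^ (m + 1) := by
      have e1 : (2 * (R / 2 ^ j)) ^ (m + 1) = (2 * R) ^ (m + 1) / ((2 : ℝ) ^ j) ^ (m + 1) := by
        rw [← div_pow]; congr 1; ring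
      have e2 : b ^ m = ((2 / l) * ((m + 1 : ℕ) * Real.log 2)) ^ m * (j : ℝ) ^ m := by
        rw [hb, ← mul_pow]; congr 1; ring
      rw [e1, e2]; ring
    have h5 : C2 * (1 / ((2 : ℝ) ^ j) ^ (m + 1)) *
          ∫ x in closedBall a (R / 2 ^ j), Real.exp (l * k x) ≤
        C2 * I0 * (j : ℝ) ^ m / ((2 : ℝ) ^ j) ^ (m + 1) := by
      calc C2 * (1 / ((2 : ℝ) ^ j) ^ (m + 1)) *
            ∫ x in closedBall a (R / 2 ^ j), Real.exp (l * k x)
          ≤ C2 * (1 / ((2 : ℝ) ^ j) ^ (m + 1)) * I0 :=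
            mul_le_mul_of_nonneg_left h3 (by positivity)
        _ = C2 * I0 * 1 / ((2 : ℝ) ^ j) ^ (m + 1) := by ring
        _ ≤ C2 * I0 * (j : ℝ) ^ m / ((2 : ℝ) ^ j) ^ (m + 1) := by
            apply div_le_div_of_nonneg_right _ hp.le
            apply mul_le_mul_of_nonneg_left hj1 (by positivity)
    calc ∫ x in closedBall a (R / 2 ^ j), k x ^ m
        ≤ (2 * (R / 2 ^ j)) ^ (m + 1) * b ^ m + C2 * (1 / ((2 : ℝ) ^ j) ^ (m + 1)) *
          ∫ x in closedBall a (R / 2 ^ j), Real.exp (l * k x) := by rw [← h2]; exact h1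
      _ ≤ ((2 / l) * ((m + 1 : ℕ) * Real.log 2)) ^ m * (2 * R) ^ (m + 1) * (j : ℝ) ^ m /
          ((2 : ℝ) ^ j) ^ (m + 1) + C2 * I0 * (j : ℝ) ^ m / ((2 : ℝ) ^ j) ^ (m + 1) := by
            rw [h4]; linarith
      _ = C1 * (j : ℝ) ^ m / ((2 : ℝ) ^ j) ^ (m + 1) := by rw [hC1]; ring
  -- the choice of `N`
  have hJlim : Tendsto (fun j : ℕ => ∫ x in closedBall a (R / 2 ^ j), J x) atTop (𝓝 0) := by
    have h1 := tendsto_setIntegral_of_antitone (f := J) (μ := volume)
      (s := fun j : ℕ => closedBall a (R / 2 ^ j)) hmeas (fun i j hij => hball i j hij)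
      ⟨0, by simpa using hJ⟩
    have h2 : (⋂ j : ℕ, closedBall a (R / 2 ^ j)) = {a} := by
      ext x
      simp only [mem_iInter, mem_closedBall, mem_singleton_iff]
      constructor
      · intro h
        have h3 : Tendsto (fun j : ℕ => R / 2 ^ j) atTop (𝓝 0) := by
          have := tendsto_pow_atTop_nhds_zero_of_lt_one (r := (1 / 2 : ℝ)) (by norm_num)
            (by norm_num)
          have h4 := this.const_mul R
          rw [mul_zero] at h4
          refine h4.congr fun j => ?_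
          rw [one_div, inv_pow]; rfl
        have h5 : dist x a ≤ 0 := ge_of_tendsto' h3 h
        exact dist_le_zero.1 h5
      · rintro rfl j
        rw [dist_self]; positivity
    rw [h2, setIntegral_measure_zero J (measure_singleton a)] at h1
    exact h1
  obtain ⟨N0, hN0⟩ := (hJlim.eventually (gt_mem_nhds (half_pos hε))).exists_forall_of_atTop
  set N := max N0 1 with hN
  have hN1 : 1 ≤ N := le_max_right _ _
  have hJN : ∫ x in closedBall a (R / 2 ^ N), J x < ε / 2 := hN0 N (le_max_left _ _)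
  -- the choice of `M`
  set C3 : ℝ := (2 * C / R) ^ (m + 1) * C1 with hC3
  have hC3nn : 0 ≤ C3 := by positivity
  have hdiv : Tendsto (fun n => ∑ i ∈ Finset.range n, 1 / (i : ℝ)) atTop atTop :=
    (not_summable_iff_tendsto_nat_atTop_of_nonneg (fun n => by positivity)).1
      Real.not_summable_one_div_natCast
  obtain ⟨M, hM1, hM2⟩ : ∃ M : ℕ, N < M ∧
      1 + C3 * (2 / ε) ≤ ∑ j ∈ Finset.Ico N M, 1 / (j : ℝ) := by
    have h1 := (hdiv.eventually_ge_atTop
      (1 + C3 * (2 / ε) + ∑ i ∈ Finset.range N, 1 / (i : ℝ))).and (eventually_gt_atTop N)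
    obtain ⟨M, hM, hM'⟩ := h1.exists
    refine ⟨M, hM', ?_⟩
    rw [Finset.sum_Ico_eq_sub _ hM'.le]
    linarith
  set I : Finset ℕ := Finset.Ico N M with hI
  set Sg : ℝ := ∑ j ∈ I, 1 / (j : ℝ) with hSg
  have hSg1 : 1 ≤ Sg := by
    have : 0 ≤ C3 * (2 / ε) := by positivity
    linarith
  have hSg0 : 0 < Sg := by linarith
  have hIj : ∀ j ∈ I, 1 ≤ j := fun j hj => hN1.trans (Finset.mem_Ico.1 hj).1
  -- the cut-offs
  have hsum2 : ∀ j : ℕ, R / 2 ^ (j + 1) + R / 2 ^ (j + 1) = R / 2 ^ j := by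
    intro j; rw [pow_succ]; field_simp; norm_num
  choose χ h1 h2 h3 h4 h5 h6 using
    fun j : ℕ => hcut a (R / 2 ^ (j + 1)) (R / 2 ^ (j + 1)) (by positivity) (by positivity)
  simp only [hsum2] at h5 h6
  set c : ℕ → ℝ := fun j => 1 / (j : ℝ) / Sg with hc
  have hc0 : ∀ j, 0 ≤ c j := fun j => by simp only [hc]; positivity
  have hcsum : ∑ j ∈ I, c j = 1 := by
    simp only [hc]
    rw [← Finset.sum_div, ← hSg, div_self hSg0.ne']
  set ζ : E (m + 1) → ℝ := fun x => ∑ j ∈ I, c j * χ j x with hζ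
  have hζs : ContDiff ℝ ∞ ζ := ContDiff.sum fun j _ => contDiff_const.mul (h1 j)
  have hζ0 : ∀ x, 0 ≤ ζ x := fun x => Finset.sum_nonneg fun j _ => mul_nonneg (hc0 j) (h2 j x)
  have hζ1 : ∀ x, ζ x ≤ 1 := by
    intro x
    rw [← hcsum]
    apply Finset.sum_le_sum
    intro j _
    calc c j * χ j x ≤ c j * 1 := mul_le_mul_of_nonneg_left (h3 j x) (hc0 j)
      _ = c j := mul_one _
  have hζout : ∀ x, x ∉ closedBall a (R / 2 ^ N) → ζ x = 0 := by
    intro x hx
    apply Finset.sum_eq_zero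
    intro j hj
    rw [h5 j x (fun h => hx (hball N j (Finset.mem_Ico.1 hj).1 h)), mul_zero]
  have hζin : ∀ x ∈ closedBall a (R / 2 ^ M), ζ x = 1 := by
    intro x hx
    have : ∀ j ∈ I, c j * χ j x = c j := by
      intro j hj
      have hjM : j + 1 ≤ M := (Finset.mem_Ico.1 hj).2
      rw [h4 j x (hball (j + 1) M hjM hx), mul_one]
    show ∑ j ∈ I, c j * χ j x = 1
    rw [Finset.sum_congr rfl this, hcsum]
  -- gradient bound
  set A : ℕ → Set (E (m + 1)) :=
    fun j => closedBall a (R / 2 ^ j) \ closedBall a (R / 2 ^ (j + 1)) with hA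
  have hAm : ∀ j, MeasurableSet (A j) := fun j => (hmeas j).diff (hmeas (j + 1))
  have hAdisj : ∀ (x : E (m + 1)) (i j : ℕ), x ∈ A i → x ∈ A j → i = j := by
    have aux : ∀ (x : E (m + 1)) (i j : ℕ), x ∈ A i → x ∈ A j → ¬ i < j := by
      intro x i j hi hj hij
      exact hi.2 (hball (i + 1) j hij hj.1)
    intro x i j hi hj
    rcases lt_trichotomy i j with h | h | h
    · exact absurd h (aux x i j hi hj)
    · exact h
    · exact absurd h (aux x j i hj hi)
  have hgr : ∀ x, gr ζ x ≤ ∑ j ∈ I, c j * gr (χ j) x := by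
    intro x
    have hpd : ∀ i, pd ζ i x = ∑ j ∈ I, c j * pd (χ j) i x := by
      intro i
      unfold pd
      have hd : ∀ j ∈ I, DifferentiableAt ℝ (fun y => c j * χ j y) x := by
        intro j _
        exact ((h1 j).differentiable (by simp)).differentiableAt.const_mul (c j)
      rw [hζ, fderiv_fun_sum hd, ContinuousLinearMap.sum_apply]
      apply Finset.sum_congr rfl
      intro j _
      rw [fderiv_const_mul ((h1 j).differentiable (by simp)).differentiableAt]
      rfl
    unfold gr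
    calc ∑ i, |pd ζ i x| = ∑ i, |∑ j ∈ I, c j * pd (χ j) i x| := by
          apply Finset.sum_congr rfl
          intro i _
          rw [hpd]
      _ ≤ ∑ i, ∑ j ∈ I, c j * |pd (χ j) i x| := by
          apply Finset.sum_le_sum
          intro i _
          refine (Finset.abs_sum_le_sum_abs _ _).trans (le_of_eq ?_)
          apply Finset.sum_congr rfl
          intro j _
          rw [abs_mul, abs_of_nonneg (hc0 j)]
      _ = ∑ j ∈ I, c j * ∑ i, |pd (χ j) i x| := by
          rw [Finset.sum_comm]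
          apply Finset.sum_congr rfl
          intro j _
          rw [Finset.mul_sum]
  have hgr0 : ∀ x, 0 ≤ gr ζ x := fun x => Finset.sum_nonneg fun i _ => abs_nonneg _
  set D : ℕ → ℝ := fun j => (c j * (C / (R / 2 ^ (j + 1)))) ^ (m + 1) with hD
  have hD0 : ∀ j, 0 ≤ D j := fun j => by
    simp only [hD]
    have := hc0 j
    positivity
  have hG : ∀ x, gr ζ x ^ (m + 1) * k x ^ m ≤
      ∑ j ∈ I, (A j).indicator (fun x => D j * k x ^ m) x := by
    intro x
    have hkx : 0 ≤ k x ^ m := pow_nonneg (hk0 x) m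
    have hnn : ∀ j ∈ I, 0 ≤ (A j).indicator (fun x => D j * k x ^ m) x := by
      intro j _
      apply indicator_nonneg
      intro y _
      exact mul_nonneg (hD0 j) (pow_nonneg (hk0 y) m)
    by_cases hx : ∃ j ∈ I, x ∈ A j
    · obtain ⟨j, hj, hxj⟩ := hx
      have hle : gr ζ x ≤ c j * (C / (R / 2 ^ (j + 1))) := by
        refine (hgr x).trans ?_
        rw [Finset.sum_eq_single_of_mem j hj]
        · have := h6 j x
          rw [indicator_of_mem hxj] at this
          exact mul_le_mul_of_nonneg_left this (hc0 j)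
        · intro i _ hij
          have := h6 i x
          rw [indicator_of_notMem (fun h => hij (hAdisj x i j h hxj))] at this
          have h7 : gr (χ i) x = 0 :=
            le_antisymm this (Finset.sum_nonneg fun i _ => abs_nonneg _)
          rw [h7, mul_zero]
      refine le_trans ?_ (Finset.single_le_sum hnn hj)
      rw [indicator_of_mem hxj]
      exact mul_le_mul_of_nonneg_right (pow_le_pow_left₀ (hgr0 x) hle _) hkx
    · have h0 : gr ζ x = 0 := by
        apply le_antisymm _ (hgr0 x)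
        refine (hgr x).trans (le_of_eq ?_)
        apply Finset.sum_eq_zero
        intro i hi
        have := h6 i x
        rw [indicator_of_notMem (fun h => hx ⟨i, hi, h⟩)] at this
        have h7 : gr (χ i) x = 0 :=
          le_antisymm this (Finset.sum_nonneg fun i _ => abs_nonneg _)
        rw [h7, mul_zero]
      rw [h0, zero_pow (Nat.succ_ne_zero m), zero_mul]
      exact Finset.sum_nonneg hnn
  have hGi : ∀ j, IntegrableOn ((A j).indicator (fun x => D j * k x ^ m)) (closedBall a R) :=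
    fun j => (hkm.const_mul (D j)).indicator (hAm j)
  have hGint : IntegrableOn (fun x => ∑ j ∈ I, (A j).indicator (fun x => D j * k x ^ m) x)
      (closedBall a R) := integrable_finset_sum _ fun j _ => hGi j
  have hgrc : Continuous (fun x => gr ζ x) := by
    unfold gr pd
    apply continuous_finset_sum
    intro i _
    apply Continuous.abs
    exact (hζs.continuous_fderiv (by simp)).clm_apply continuous_const
  have hLint : IntegrableOn (fun x => gr ζ x ^ (m + 1) * k x ^ m) (closedBall a R) := by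
    refine Integrable.mono' hGint ?_ ?_
    · exact ((hgrc.pow _).measurable.mul (hk.pow_const m)).aestronglyMeasurable
    · refine Eventually.of_forall fun x => ?_
      rw [Real.norm_of_nonneg (mul_nonneg (pow_nonneg (hgr0 x) _) (pow_nonneg (hk0 x) m))]
      exact hG x
  have hfinal : ∫ x in closedBall a R, gr ζ x ^ (m + 1) * k x ^ m ≤ ε / 2 := by
    have e1 : ∫ x in closedBall a R, gr ζ x ^ (m + 1) * k x ^ m ≤
        ∑ j ∈ I, ∫ x in closedBall a R, (A j).indicator (fun x => D j * k x ^ m) x := by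
      rw [← integral_finset_sum _ fun j _ => hGi j]
      exact setIntegral_mono_on hLint hGint hmeasR fun x _ => hG x
    have e2 : ∀ j ∈ I, ∫ x in closedBall a R, (A j).indicator (fun x => D j * k x ^ m) x ≤
        C3 / Sg ^ (m + 1) * (1 / (j : ℝ)) := by
      intro j hj
      have hj1 := hIj j hj
      have hj0 : (0 : ℝ) < j := by exact_mod_cast hj1
      rw [setIntegral_indicator (hAm j), integral_const_mul]
      have e3 : ∫ x in closedBall a R ∩ A j, k x ^ m ≤
          ∫ x in closedBall a (R / 2 ^ j), k x ^ m := by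
        apply setIntegral_mono_set (hkm.mono_set (hballR j))
        · exact Eventually.of_forall fun x => pow_nonneg (hk0 x) m
        · exact HasSubset.Subset.eventuallyLE (fun x hx => hx.2.1)
      have e4 := e3.trans (key j hj1)
      have hp : (0 : ℝ) < ((2 : ℝ) ^ j) ^ (m + 1) := by positivity
      calc D j * ∫ x in closedBall a R ∩ A j, k x ^ m
          ≤ D j * (C1 * (j : ℝ) ^ m / ((2 : ℝ) ^ j) ^ (m + 1)) :=
            mul_le_mul_of_nonneg_left e4 (hD0 j)
        _ = C3 / Sg ^ (m + 1) * (1 / (j : ℝ)) := by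
            simp only [hD, hc, hC3]
            have e5 : 1 / (j : ℝ) / Sg * (C / (R / 2 ^ (j + 1))) =
                (2 * C / R) * (2 : ℝ) ^ j * (1 / (j : ℝ)) * (1 / Sg) := by
              rw [pow_succ]; field_simp
            have g1 : (1 / (j : ℝ)) ^ (m + 1) * (j : ℝ) ^ m = 1 / (j : ℝ) := by
              rw [one_div_pow, pow_succ]; field_simp
            have g2 : (1 / Sg) ^ (m + 1) = 1 / Sg ^ (m + 1) := one_div_pow _ _
            have g3 : ((2 : ℝ) ^ j) ^ (m + 1) * (1 / ((2 : ℝ) ^ j) ^ (m + 1)) = 1 := by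
              field_simp
            rw [e5, mul_pow, mul_pow, mul_pow, g2]
            calc (2 * C / R) ^ (m + 1) * ((2 : ℝ) ^ j) ^ (m + 1) * (1 / (j : ℝ)) ^ (m + 1) *
                  (1 / Sg ^ (m + 1)) * (C1 * (j : ℝ) ^ m / ((2 : ℝ) ^ j) ^ (m + 1))
                = (2 * C / R) ^ (m + 1) * C1 * (1 / Sg ^ (m + 1)) *
                  ((1 / (j : ℝ)) ^ (m + 1) * (j : ℝ) ^ m) *
                  (((2 : ℝ) ^ j) ^ (m + 1) * (1 / ((2 : ℝ) ^ j) ^ (m + 1))) := by ring
              _ = (2 * C / R) ^ (m + 1) * C1 / Sg ^ (m + 1) * (1 / (j : ℝ)) := by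
                  rw [g1, g3]; ring
    have e6 : ∑ j ∈ I, ∫ x in closedBall a R, (A j).indicator (fun x => D j * k x ^ m) x ≤
        C3 / Sg ^ (m + 1) * Sg := by
      rw [hSg, Finset.mul_sum, ← hSg]
      exact Finset.sum_le_sum e2
    have e7 : C3 / Sg ^ (m + 1) * Sg ≤ C3 / Sg := by
      have hSgm : Sg ≤ Sg ^ m := by
        calc Sg = Sg ^ 1 := (pow_one _).symm
          _ ≤ Sg ^ m := pow_le_pow_right₀ hSg1 hm
      have hSgm0 : 0 < Sg ^ m := by positivity
      have e8 : C3 / Sg ^ (m + 1) * Sg = C3 / Sg ^ m := by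
        rw [pow_succ]; field_simp
      rw [e8]
      exact div_le_div_of_nonneg_left hC3nn hSg0 hSgm
    have e9 : C3 / Sg ≤ ε / 2 := by
      rw [div_le_iff₀ hSg0]
      have e10 : C3 * (2 / ε) ≤ Sg := by linarith
      have e11 : C3 * (2 / ε) * (ε / 2) ≤ Sg * (ε / 2) :=
        mul_le_mul_of_nonneg_right e10 (by positivity)
      have e12 : C3 * (2 / ε) * (ε / 2) = C3 := by field_simp
      linarith
    linarith
  have f1 : IntegrableOn (fun x => ζ x ^ (m + 1) * J x) (closedBall a R) := by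
    refine Integrable.mono' hJ ?_ ?_
    · exact ((hζs.continuous.pow _).aestronglyMeasurable).mul hJ.aestronglyMeasurable
    · refine Eventually.of_forall fun x => ?_
      rw [Real.norm_of_nonneg (mul_nonneg (pow_nonneg (hζ0 x) _) (hJ0 x))]
      have : ζ x ^ (m + 1) ≤ 1 := pow_le_one₀ (hζ0 x) (hζ1 x)
      calc ζ x ^ (m + 1) * J x ≤ 1 * J x := mul_le_mul_of_nonneg_right this (hJ0 x)
        _ = J x := one_mul _
  have hJfinal : ∫ x in closedBall a R, ζ x ^ (m + 1) * J x ≤ ε / 2 := by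
    have f2 : ∫ x in closedBall a R, ζ x ^ (m + 1) * J x ≤
        ∫ x in closedBall a R, (closedBall a (R / 2 ^ N)).indicator J x := by
      apply setIntegral_mono_on f1 (hJ.indicator (hmeas N)) hmeasR
      intro x _
      by_cases hx : x ∈ closedBall a (R / 2 ^ N)
      · rw [indicator_of_mem hx]
        have : ζ x ^ (m + 1) ≤ 1 := pow_le_one₀ (hζ0 x) (hζ1 x)
        calc ζ x ^ (m + 1) * J x ≤ 1 * J x := mul_le_mul_of_nonneg_right this (hJ0 x)
          _ = J x := one_mul _
      · rw [indicator_of_notMem hx, hζout x hx, zero_pow (Nat.succ_ne_zero m), zero_mul]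
    have f3 : ∫ x in closedBall a R, (closedBall a (R / 2 ^ N)).indicator J x =
        ∫ x in closedBall a (R / 2 ^ N), J x := by
      rw [setIntegral_indicator (hmeas N), inter_eq_self_of_subset_right (hballR N)]
    linarith
  refine ⟨R / 2 ^ M, by positivity, ?_, ζ, hζs, ?_, hζ0, hζ1, hζin, hLint, f1, hJfinal, hfinal⟩
  · have hM0 : M ≠ 0 := by omega
    exact div_lt_self hR (one_lt_pow₀ (by norm_num) hM0)
  · refine closure_minimal ?_ isClosed_closedBall
    intro x hx
    by_contra hxR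
    exact hx (hζout x fun h => hxR (hballR N h))


/-- L15. choice of the cut-off -/
theorem exists_cutoff {m : ℕ} (hm : 1 ≤ m) {a : E (m + 1)} {R l : ℝ} (hR : 0 < R) (hl : 0 < l)
    {J k : E (m + 1) → ℝ} (hk : Measurable k) (hk0 : ∀ x, 0 ≤ k x)
    (hJ0 : ∀ x, 0 ≤ J x) (hJ : IntegrableOn J (closedBall a R))
    (hexp : IntegrableOn (fun x => Real.exp (l * k x)) (closedBall a R)) {ε : ℝ} (hε : 0 < ε) :
    ∃ r : ℝ, 0 < r ∧ r < R ∧ ∃ ζ : E (m + 1) → ℝ, ContDiff ℝ ∞ ζ ∧ tsupport ζ ⊆ closedBall a R ∧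
      (∀ x, 0 ≤ ζ x) ∧ (∀ x, ζ x ≤ 1) ∧ (∀ x ∈ closedBall a r, ζ x = 1) ∧
      IntegrableOn (fun x => gr ζ x ^ (m + 1) * k x ^ m) (closedBall a R) ∧
      ∫ x in closedBall a R, ζ x ^ (m + 1) * J x +
        ∫ x in closedBall a R, gr ζ x ^ (m + 1) * k x ^ m ≤ ε := by
  have hV : (0 : ℝ) < (2 * R) ^ (m + 1) := by positivity
  set V : ℝ := (2 * R) ^ (m + 1) with hVdef
  have hε' : 0 < min ε (ε / V) := lt_min hε (by positivity)
  obtain ⟨r, hr0, hrR, ζ, h1, h2, h3, h4, h5, h6, h7, h8, h9⟩ :=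
    exists_cutoff_strong hm (a := a) hR hl hk hk0 hJ0 hJ hexp hε'
  refine ⟨r, hr0, hrR, ζ, h1, h2, h3, h4, h5, h6, ?_⟩
  have hfin : volume (closedBall a R) ≠ ⊤ := by
    rw [Real.volume_pi_closedBall a hR.le]
    exact ENNReal.ofReal_ne_top
  have hvol : volume.real (closedBall a R) = V := by
    rw [Measure.real, Real.volume_pi_closedBall a hR.le, ENNReal.toReal_ofReal
      (by positivity), Fintype.card_fin]
  rw [integral_add h7 (integrableOn_const hfin), setIntegral_const, hvol, smul_eq_mul]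
  have e1 : V * ∫ x in closedBall a R, gr ζ x ^ (m + 1) * k x ^ m ≤ V * (ε / V / 2) := by
    apply mul_le_mul_of_nonneg_left _ hV.le
    have := min_le_right ε (ε / V)
    linarith
  have e2 : V * (ε / V / 2) = ε / 2 := by field_simp
  have e3 := min_le_left ε (ε / V)
  linarith


end H248.ID.J17

namespace H248.ID

export J17 (exists_cutoff)

end H248.ID
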