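import Pool.Agent.H248.ID.Defs

set_option autoImplicit false
open MeasureTheory Metric Set Filter Topology
open scoped ENNReal NNReal ContDiff

namespace H248.ID.J18




/-- L16. continuous representative -/
theorem continuous_rep {n : ℕ} {Ω : Set (E n)} (hΩ : IsOpen Ω) {f : E n → E n}
    (h : ∀ a ∈ Ω, ∀ ε > 0, ∃ r > 0, closedBall a r ⊆ Ω ∧ ∀ i, ∃ c : ℝ,
      ∀ᵐ x ∂(volume.restrict (closedBall a r)), |f x i - c| ≤ ε) :
    ∃ g : E n → E n, ContinuousOn g Ω ∧ f =ᵐ[volume.restrict Ω] g := by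
  classical
  have hk : ∀ k : ℕ, ∀ a : E n, ∃ r : ℝ, ∃ c : Fin n → ℝ, a ∈ Ω → (0 < r ∧ closedBall a r ⊆ Ω ∧
      ∀ i, ∀ᵐ x ∂(volume.restrict (closedBall a r)), |f x i - c i| ≤ 1 / ((k : ℝ) + 1)) := by
    intro k a
    by_cases ha : a ∈ Ω
    · obtain ⟨r, hr, hsub, hi⟩ := h a ha (1 / ((k : ℝ) + 1)) (by positivity)
      choose c hc using hi
      exact ⟨r, c, fun _ => ⟨hr, hsub, hc⟩⟩
    · exact ⟨1, fun _ => 0, fun h' => absurd h' ha⟩
  choose r c hrc using hk
  have hcov : ∀ k : ℕ, ∃ t ⊆ Ω, t.Countable ∧ Ω ⊆ ⋃ x ∈ t, ball x (r k x) := by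
    intro k
    apply TopologicalSpace.countable_cover_nhdsWithin
    intro x hx
    exact mem_nhdsWithin_of_mem_nhds (ball_mem_nhds x (hrc k x hx).1)
  choose t ht htc hcovk using hcov
  let N : Set (E n) := ⋃ k, ⋃ a ∈ t k, ⋃ i : Fin n,
    (closedBall a (r k a) ∩ {x | ¬ |f x i - c k a i| ≤ 1 / ((k : ℝ) + 1)})
  have hN : volume N = 0 := by
    refine measure_iUnion_null fun k => ?_
    refine (measure_biUnion_null_iff (htc k)).2 fun a ha => ?_
    refine measure_iUnion_null fun i => ?_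
    have h1 := (hrc k a (ht k ha)).2.2 i
    rw [ae_restrict_iff' measurableSet_closedBall] at h1
    rw [ae_iff] at h1
    refine measure_mono_null ?_ h1
    rintro x ⟨hx1, hx2⟩
    simp only [mem_ofPred_eq, Classical.not_imp]
    exact ⟨hx1, hx2⟩
  have hosc : ∀ a ∈ Ω, ∀ ε > 0, ∃ U : Set (E n), IsOpen U ∧ a ∈ U ∧
      ∀ x ∈ U \ N, ∀ y ∈ U \ N, dist (f x) (f y) ≤ ε := by
    intro a ha ε hε
    obtain ⟨k, hk⟩ := exists_nat_one_div_lt (half_pos hε)
    have h1 := hcovk k ha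
    simp only [mem_iUnion] at h1
    obtain ⟨b, hb, hab⟩ := h1
    refine ⟨ball b (r k b), isOpen_ball, hab, ?_⟩
    have key : ∀ x ∈ ball b (r k b) \ N, ∀ i, |f x i - c k b i| ≤ 1 / ((k : ℝ) + 1) := by
      rintro x ⟨hx1, hx2⟩ i
      by_contra hcon
      apply hx2
      simp only [N, mem_iUnion]
      exact ⟨k, b, hb, i, ball_subset_closedBall hx1, hcon⟩
    intro x hx y hy
    rw [dist_pi_le_iff hε.le]
    intro i
    rw [Real.dist_eq]
    have h2 := key x hx i
    have h3 := key y hy i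
    have h4 : |f x i - f y i| ≤ |f x i - c k b i| + |f y i - c k b i| := by
      have : f x i - f y i = (f x i - c k b i) - (f y i - c k b i) := by ring
      rw [this]; exact abs_sub _ _
    linarith
  let D : Set (E n) := Ω \ N
  have hcl : Ω ⊆ closure D := by
    intro a ha
    rw [_root_.mem_closure_iff]
    intro U hU haU
    by_contra hcon
    rw [not_nonempty_iff_eq_empty] at hcon
    have h1 : U ∩ Ω ⊆ N := by
      rintro x ⟨hx1, hx2⟩
      by_contra hx3
      have : x ∈ U ∩ D := ⟨hx1, hx2, hx3⟩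
      rw [hcon] at this
      exact this
    have h2 : 0 < volume (U ∩ Ω) := (hU.inter hΩ).measure_pos volume ⟨a, haU, ha⟩
    have h3 := measure_mono_null h1 hN
    exact absurd h3 h2.ne'
  have hlim : ∀ a ∈ Ω, ∃ y, Tendsto f (𝓝[D] a) (𝓝 y) := by
    intro a ha
    have hne : (𝓝[D] a).NeBot := mem_closure_iff_nhdsWithin_neBot.1 (hcl ha)
    have hcau : Cauchy (map f (𝓝[D] a)) := by
      rw [Metric.cauchy_iff]
      refine ⟨inferInstance, fun ε hε => ?_⟩
      obtain ⟨U, hUo, haU, hU⟩ := hosc a ha (ε / 2) (half_pos hε)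
      refine ⟨f '' (U ∩ D), image_mem_map ?_, ?_⟩
      · exact inter_mem (mem_nhdsWithin_of_mem_nhds (hUo.mem_nhds haU)) self_mem_nhdsWithin
      · rintro _ ⟨x, hx, rfl⟩ _ ⟨y, hy, rfl⟩
        have := hU x ⟨hx.1, hx.2.2⟩ y ⟨hy.1, hy.2.2⟩
        linarith
    exact CompleteSpace.complete hcau
  refine ⟨extendFrom D f, continuousOn_extendFrom hcl hlim, ?_⟩
  have hae : ∀ a ∈ D, f a = extendFrom D f a := by
    intro a ha
    obtain ⟨y, hy⟩ := hlim a ha.1
    have hne : (𝓝[D] a).NeBot := mem_closure_iff_nhdsWithin_neBot.1 (hcl ha.1)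
    rw [extendFrom_eq (hcl ha.1) hy]
    by_contra hcon
    have hpos : 0 < dist (f a) y := dist_pos.2 hcon
    obtain ⟨U, hUo, haU, hU⟩ := hosc a ha.1 (dist (f a) y / 2) (half_pos hpos)
    have h1 : ∀ᶠ x in 𝓝[D] a, dist (f x) y < dist (f a) y / 2 :=
      (Metric.tendsto_nhds.1 hy) _ (half_pos hpos)
    have h2 : ∀ᶠ x in 𝓝[D] a, x ∈ U ∩ D :=
      inter_mem (mem_nhdsWithin_of_mem_nhds (hUo.mem_nhds haU)) self_mem_nhdsWithin
    obtain ⟨x, hx1, hx2⟩ := (h1.and h2).exists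
    have h3 := hU a ⟨haU, ha.2⟩ x ⟨hx2.1, hx2.2.2⟩
    have h4 := dist_triangle (f a) (f x) y
    linarith
  rw [Filter.EventuallyEq, ae_restrict_iff' hΩ.measurableSet, ae_iff]
  refine measure_mono_null ?_ hN
  intro x hx
  simp only [mem_ofPred_eq, Classical.not_imp] at hx
  by_contra hxN
  exact hx.2 (hae x ⟨hx.1, hxN⟩)

/-- L16b. essential oscillation -/
theorem ess_osc {X : Type*} [MeasurableSpace X] {μ : Measure X} [IsFiniteMeasure μ]
    {u : X → ℝ} (hu : Measurable u) {ε : ℝ} (hε : 0 < ε)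
    (h : ∀ s t : ℝ, ε < t - s → μ {x | u x < s} = 0 ∨ μ {x | t < u x} = 0) :
    ∃ c : ℝ, ∀ᵐ x ∂μ, |u x - c| ≤ 2 * ε := by
  classical
  by_cases hμ : μ = 0
  · exact ⟨0, by simp [hμ]⟩
  have hμ' : μ univ ≠ 0 := by simpa using hμ
  have hlow : ∃ s : ℝ, μ {x | u x < s} ≠ 0 := by
    by_contra hcon
    push Not at hcon
    apply hμ'
    have : (univ : Set X) = ⋃ k : ℕ, {x | u x < k} := by
      ext x
      simp only [mem_univ, mem_iUnion, mem_ofPred_eq, true_iff]
      exact exists_nat_gt (u x)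
    rw [this]
    exact measure_iUnion_null fun k => hcon k
  have hup : ∃ t : ℝ, μ {x | t < u x} ≠ 0 := by
    by_contra hcon
    push Not at hcon
    apply hμ'
    have : (univ : Set X) = ⋃ k : ℕ, {x | -(k : ℝ) < u x} := by
      ext x
      simp only [mem_univ, mem_iUnion, mem_ofPred_eq, true_iff]
      obtain ⟨k, hk⟩ := exists_nat_gt (-u x)
      exact ⟨k, by linarith⟩
    rw [this]
    exact measure_iUnion_null fun k => hcon _
  let T : Set ℝ := {t | μ {x | t < u x} = 0}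
  have hTne : T.Nonempty := by
    obtain ⟨s, hs⟩ := hlow
    refine ⟨s + 2 * ε, ?_⟩
    rcases h s (s + 2 * ε) (by linarith) with h1 | h1
    · exact absurd h1 hs
    · exact h1
  have hmono : ∀ a b : ℝ, a ∈ T → a ≤ b → b ∈ T := by
    intro a b ha hab
    exact measure_mono_null (fun x (hx : b < u x) => lt_of_le_of_lt hab hx) ha
  have hTbdd : BddBelow T := by
    obtain ⟨t, ht⟩ := hup
    refine ⟨t, fun a ha => ?_⟩
    by_contra hcon
    push Not at hcon
    exact ht (hmono a t ha hcon.le)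
  set c := sInf T with hc
  have h1 : ∀ᵐ x ∂μ, u x ≤ c := by
    rw [ae_iff]
    have : {x | ¬ u x ≤ c} = ⋃ k : ℕ, {x | c + 1 / ((k : ℝ) + 1) < u x} := by
      ext x
      simp only [mem_ofPred_eq, not_le, mem_iUnion]
      constructor
      · intro hx
        obtain ⟨k, hk⟩ := exists_nat_one_div_lt (sub_pos.2 hx)
        exact ⟨k, by linarith⟩
      · rintro ⟨k, hk⟩
        have : (0 : ℝ) < 1 / ((k : ℝ) + 1) := by positivity
        linarith
    rw [this]
    refine measure_iUnion_null fun k => ?_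
    have hlt : c < c + 1 / ((k : ℝ) + 1) := by
      have : (0 : ℝ) < 1 / ((k : ℝ) + 1) := by positivity
      linarith
    obtain ⟨a, ha, hac⟩ := exists_lt_of_csInf_lt hTne hlt
    exact hmono a _ ha hac.le
  have h2 : ∀ᵐ x ∂μ, c - 2 * ε ≤ u x := by
    rw [ae_iff]
    have hset : {x | ¬ c - 2 * ε ≤ u x} = {x | u x < c - 2 * ε} := by
      ext x; simp only [not_le]
    rw [hset]
    rcases h (c - 2 * ε) (c - ε / 2) (by linarith) with h3 | h3
    · exact h3
    · exfalso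
      have : c ≤ c - ε / 2 := csInf_le hTbdd h3
      linarith
  refine ⟨c, ?_⟩
  filter_upwards [h1, h2] with x hx1 hx2
  rw [abs_le]
  constructor <;> linarith


end H248.ID.J18

namespace H248.ID

export J18 (continuous_rep ess_osc)

end H248.ID
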