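import Pool.Agent.H248.ID.J20

set_option autoImplicit false
open MeasureTheory Metric Set Filter Topology
open scoped ENNReal NNReal ContDiff

namespace H248.ID.J21









theorem kk_nonneg {n : ℕ} {M : Matrix (Fin n) (Fin n) ℝ} (hJ : 0 ≤ M.det) : 0 ≤ kk M := by
  unfold kk
  apply Real.rpow_nonneg
  split_ifs
  · norm_num
  · positivity

theorem kk_pow {n : ℕ} (hn : 2 ≤ n) {M : Matrix (Fin n) (Fin n) ℝ} (hJ : 0 < M.det) :
    (kk M * M.det) ^ (n - 1) = ‖Matrix.toEuclideanCLM (𝕜 := ℝ) M.adjugate‖ ^ n := by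
  have h1 : ((n : ℝ) - 1) = ((n - 1 : ℕ) : ℝ) := by
    rw [Nat.cast_sub (by omega)]
    simp
  have h2 : n - 1 ≠ 0 := by omega
  rw [mul_pow]
  unfold kk
  rw [if_neg hJ.ne', h1, one_div, Real.rpow_inv_natCast_pow (by positivity) h2]
  field_simp

theorem norm_adj_eq {n : ℕ} (hn : 2 ≤ n) {M : Matrix (Fin n) (Fin n) ℝ} (hJ : 0 ≤ M.det)
    (h0 : M.det = 0 → M = 0) : ‖Matrix.toEuclideanCLM (𝕜 := ℝ) M.adjugate‖ =
      (kk M * M.det) ^ (((n : ℝ) - 1) / n) := by
  have hn0 : (n : ℝ) ≠ 0 := by
    have : n ≠ 0 := by omega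
    exact_mod_cast this
  have hn2 : (2 : ℝ) ≤ n := by exact_mod_cast hn
  rcases hJ.eq_or_lt with h | h
  · have hM := h0 h.symm
    have hnt : Nontrivial (Fin n) := Fin.nontrivial_iff_two_le.2 hn
    rw [← h, mul_zero, Real.zero_rpow, hM, Matrix.adjugate_zero, map_zero, norm_zero]
    have : 0 < ((n : ℝ) - 1) / n := div_pos (by linarith) (by linarith)
    exact this.ne'
  · have h1 : ((n : ℝ) - 1) = ((n - 1 : ℕ) : ℝ) := by
      rw [Nat.cast_sub (by omega)]
      simp
    have hk : 0 ≤ kk M * M.det := mul_nonneg (kk_nonneg hJ) hJ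
    rw [div_eq_mul_inv, Real.rpow_mul hk, h1, Real.rpow_natCast, kk_pow hn h,
      Real.pow_rpow_inv_natCast (norm_nonneg _) (by omega)]

theorem sn_nonneg {n : ℕ} (M : Matrix (Fin n) (Fin n) ℝ) : 0 ≤ sn M :=
  Finset.sum_nonneg fun _ _ => Finset.sum_nonneg fun _ _ => abs_nonneg _

theorem sn_le_norm {n : ℕ} (M : Matrix (Fin n) (Fin n) ℝ) :
    sn M ≤ (n : ℝ) ^ 2 * ‖Matrix.toEuclideanCLM (𝕜 := ℝ) M‖ := by
  unfold sn
  calc ∑ i, ∑ j, |M i j| ≤ ∑ _i : Fin n, ∑ _j : Fin n, ‖Matrix.toEuclideanCLM (𝕜 := ℝ) M‖ :=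
        Finset.sum_le_sum fun i _ => Finset.sum_le_sum fun j _ => entry_le_norm M i j
    _ = _ := by
        simp only [Finset.sum_const, Finset.card_univ, Fintype.card_fin, nsmul_eq_mul]
        ring

theorem sn_zero {n : ℕ} : sn (0 : Matrix (Fin n) (Fin n) ℝ) = 0 := by
  simp [sn]

theorem meas_det {n : ℕ} {α : Type*} [MeasurableSpace α] {F : α → Matrix (Fin n) (Fin n) ℝ}
    (hF : ∀ i j, Measurable fun x => F x i j) : Measurable fun x => (F x).det := by
  simp only [Matrix.det_apply']
  exact Finset.measurable_sum _ fun σ _ =>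
    (Finset.measurable_prod _ fun i _ => hF _ _).const_mul _

theorem meas_adj {n : ℕ} {α : Type*} [MeasurableSpace α] {F : α → Matrix (Fin n) (Fin n) ℝ}
    (hF : ∀ i j, Measurable fun x => F x i j) (i j : Fin n) :
    Measurable fun x => (F x).adjugate i j := by
  simp only [Matrix.adjugate_apply]
  refine meas_det fun a b => ?_
  simp only [Matrix.updateRow_apply]
  by_cases h : a = j
  · simp only [h, if_true]
    exact measurable_const
  · simp only [h, if_false]
    exact hF _ _

theorem meas_norm {n : ℕ} {α : Type*} [MeasurableSpace α] {F : α → Matrix (Fin n) (Fin n) ℝ}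
    (hF : ∀ i j, Measurable fun x => F x i j) :
    Measurable fun x => ‖Matrix.toEuclideanCLM (𝕜 := ℝ) (F x)‖ := by
  let L : (Fin n → Fin n → ℝ) →ₗ[ℝ]
      (EuclideanSpace ℝ (Fin n) →L[ℝ] EuclideanSpace ℝ (Fin n)) :=
    { toFun := fun m => Matrix.toEuclideanCLM (𝕜 := ℝ) (Matrix.of m)
      map_add' := fun a b => by
        rw [← map_add]
        rfl
      map_smul' := fun c a => by
        rw [RingHom.id_apply, ← map_smul]
        rfl }
  have hL : Continuous fun m => ‖L m‖ := L.continuous_of_finiteDimensional.norm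
  have hm : Measurable fun x => (fun i j => F x i j : Fin n → Fin n → ℝ) :=
    measurable_pi_lambda _ fun i => measurable_pi_lambda _ fun j => hF i j
  exact hL.measurable.comp hm

theorem meas_kk {n : ℕ} {α : Type*} [MeasurableSpace α] {F : α → Matrix (Fin n) (Fin n) ℝ}
    (hF : ∀ i j, Measurable fun x => F x i j) : Measurable fun x => kk (F x) := by
  unfold kk
  refine Measurable.pow_const ?_ _
  refine Measurable.ite (measurableSet_eq_fun (meas_det hF) measurable_const) measurable_const ?_
  exact ((meas_norm (meas_adj hF)).pow_const _).div ((meas_det hF).pow_const _)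

theorem meas_sn {n : ℕ} {α : Type*} [MeasurableSpace α] {F : α → Matrix (Fin n) (Fin n) ℝ}
    (hF : ∀ i j, Measurable fun x => F x i j) : Measurable fun x => sn (F x) := by
  unfold sn
  exact Finset.measurable_sum _ fun i _ => Finset.measurable_sum _ fun j _ => by
    have := (hF i j).norm
    exact this

/-- pointwise bound for `sn M ^ (n-1)` -/
theorem sn_pow_bound {n : ℕ} (hn : 2 ≤ n) : ∃ C : ℝ, 0 < C ∧ ∀ M : Matrix (Fin n) (Fin n) ℝ,
    0 ≤ M.det → (M.det = 0 → M = 0) → sn M ^ (n - 1) ≤ C * (kk M ^ ((n - 1) ^ 3) + M.det) := by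
  obtain ⟨C4, hC4, h4⟩ := sn_mul_det_le hn
  have hn0 : (0 : ℝ) < n := by
    have : 0 < n := by omega
    exact_mod_cast this
  set C' : ℝ := C4 * ((n : ℝ) ^ 2) ^ (n - 1) with hC'
  have hC'0 : 0 < C' := by positivity
  refine ⟨C' ^ (n - 1), by positivity, fun M hJ h0 => ?_⟩
  have hk := kk_nonneg hJ
  rcases hJ.eq_or_lt with h | h
  · rw [h0 h.symm, sn_zero, zero_pow (by omega)]
    have hk0 : 0 ≤ kk (0 : Matrix (Fin n) (Fin n) ℝ) := kk_nonneg (by rw [← h0 h.symm]; exact hJ)
    have hd0 : 0 ≤ (0 : Matrix (Fin n) (Fin n) ℝ).det := by rw [← h0 h.symm]; exact hJ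
    positivity
  · obtain ⟨m, rfl⟩ : ∃ m, n = m + 2 := ⟨n - 2, by omega⟩
    simp only [Nat.add_sub_cancel, show m + 2 - 1 = m + 1 by omega] at *
    set A := ‖Matrix.toEuclideanCLM (𝕜 := ℝ) M.adjugate‖ with hA
    have hA0 : 0 ≤ A := norm_nonneg _
    set J := M.det with hJdef
    have hs0 := sn_nonneg M
    have hadj := sn_le_norm M.adjugate
    have hadj0 := sn_nonneg M.adjugate
    have hkp := kk_pow hn h
    simp only [show m + 2 - 1 = m + 1 by omega, ← hJdef, ← hA] at hkp
    have e1 : sn M * J ^ m ≤ C' * A ^ (m + 1) := by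
      have := h4 M
      rw [← hJdef, abs_of_pos h] at this
      refine this.trans ?_
      rw [hC', mul_assoc, ← mul_pow]
      exact mul_le_mul_of_nonneg_left (pow_le_pow_left₀ hadj0 hadj _) hC4.le
    -- raise to the power n
    have e2 : sn M ^ (m + 2) ≤ C' ^ (m + 2) * (kk M ^ ((m + 1) ^ 2) * J) := by
      have e3 := pow_le_pow_left₀ (by positivity) e1 (m + 2)
      have e4 : (C' * A ^ (m + 1)) ^ (m + 2) =
          C' ^ (m + 2) * (kk M ^ ((m + 1) ^ 2) * J) * (J ^ m) ^ (m + 2) := by
        rw [mul_pow, ← pow_mul, mul_comm (m + 1) (m + 2), pow_mul, ← hkp]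
        ring
      rw [e4, mul_pow] at e3
      exact le_of_mul_le_mul_right e3 (by positivity)
    have e5 := pow_le_pow_left₀ (by positivity) e2 (m + 1)
    set a := kk M ^ ((m + 1) ^ 3) with ha
    have ha0 : 0 ≤ a := by positivity
    have e6 : (sn M ^ (m + 1)) ^ (m + 2) ≤ (C' ^ (m + 1) * (a + J)) ^ (m + 2) := by
      calc (sn M ^ (m + 1)) ^ (m + 2) = (sn M ^ (m + 2)) ^ (m + 1) := by
            rw [← pow_mul, ← pow_mul, mul_comm]
        _ ≤ _ := e5
        _ = (C' ^ (m + 1)) ^ (m + 2) * (a * J ^ (m + 1)) := by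
            rw [ha]
            ring
        _ ≤ (C' ^ (m + 1)) ^ (m + 2) * ((a + J) * (a + J) ^ (m + 1)) := by
            apply mul_le_mul_of_nonneg_left _ (by positivity)
            apply mul_le_mul (by linarith) (pow_le_pow_left₀ hJ (by linarith) _) (by positivity)
              (by positivity)
        _ = _ := by
            rw [mul_pow (C' ^ (m + 1)) (a + J) (m + 2), show m + 2 = (m + 1) + 1 from rfl,
              pow_succ' (a + J) (m + 1)]
    exact le_of_pow_le_pow_left₀ (by omega) (by positivity) e6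

/-- pointwise bound for the Zygmund type quantity -/
theorem zyg_bound {n : ℕ} (hn : 2 ≤ n) {l : ℝ} (hl : 0 < l) :
    ∃ C : ℝ, 0 < C ∧ ∀ M : Matrix (Fin n) (Fin n) ℝ,
    0 ≤ M.det → (M.det = 0 → M = 0) →
    sn M.adjugate ^ ((n : ℝ) / ((n : ℝ) - 1)) / Real.log (Real.exp 1 + sn M.adjugate) ≤
      C * (Real.exp (l * kk M) + M.det) := by
  obtain ⟨C3, hC3, h3⟩ := det_pow_le (n := n) (by omega)
  have hn2 : (2 : ℝ) ≤ n := by exact_mod_cast hn
  have hn0 : (0 : ℝ) < n := by linarith
  set q : ℝ := (n : ℝ) / ((n : ℝ) - 1) with hq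
  have hq0 : 0 < q := div_pos hn0 (by linarith)
  set C : ℝ := ((n : ℝ) ^ 2) ^ q with hC
  have hC0 : 0 < C := Real.rpow_pos_of_pos (by positivity) _
  set C4 : ℝ := |Real.log C3| + n with hC4
  have hC40 : 0 < C4 := by positivity
  refine ⟨C * (2 / l) * (1 + C4), by positivity, fun M hJ h0 => ?_⟩
  have hk := kk_nonneg hJ
  have hexp0 := Real.exp_pos (l * kk M)
  rcases hJ.eq_or_lt with h | h
  · have hM := h0 h.symm
    have hnt : Nontrivial (Fin n) := Fin.nontrivial_iff_two_le.2 hn
    have hg0 : sn M.adjugate = 0 := by rw [hM, Matrix.adjugate_zero, sn_zero]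
    rw [hg0, Real.zero_rpow hq0.ne', zero_div]
    positivity
  · set A := ‖Matrix.toEuclideanCLM (𝕜 := ℝ) M.adjugate‖ with hA
    have hA0 : 0 ≤ A := norm_nonneg _
    set J := M.det with hJdef
    set g := sn M.adjugate with hg
    set k := kk M with hkdef
    have hg0 : 0 ≤ g := sn_nonneg _
    have hgA : g ≤ (n : ℝ) ^ 2 * A := sn_le_norm M.adjugate
    have hkp : (k * J) ^ (n - 1) = A ^ n := kk_pow hn h
    have h1 : ((n : ℝ) - 1) = ((n - 1 : ℕ) : ℝ) := by
      rw [Nat.cast_sub (by omega)]
      simp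
    have hAq : A ^ q = k * J := by
      rw [hq, div_eq_mul_inv, Real.rpow_mul hA0, Real.rpow_natCast, ← hkp, h1,
        Real.pow_rpow_inv_natCast (mul_nonneg hk hJ) (by omega)]
    have hgq : g ^ q ≤ C * (k * J) := by
      calc g ^ q ≤ ((n : ℝ) ^ 2 * A) ^ q := Real.rpow_le_rpow hg0 hgA hq0.le
        _ = C * (k * J) := by rw [Real.mul_rpow (by positivity) hA0, hAq]
    set L := Real.log (Real.exp 1 + g) with hL
    have hL1 : 1 ≤ L := by
      rw [hL, Real.le_log_iff_exp_le (by positivity)]
      linarith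
    have hL0 : 0 < L := by linarith
    have hgq0 : 0 ≤ g ^ q := Real.rpow_nonneg hg0 _
    by_cases hc : J ≤ Real.exp (l * k / 2)
    · have hx : l * k / 2 ≤ Real.exp (l * k / 2) := by
        have := Real.add_one_le_exp (l * k / 2)
        linarith
      have hk2 : k ≤ (2 / l) * Real.exp (l * k / 2) := by
        rw [div_mul_eq_mul_div, le_div_iff₀ hl]
        linarith
      have e1 : k * J ≤ (2 / l) * Real.exp (l * k) := by
        calc k * J ≤ ((2 / l) * Real.exp (l * k / 2)) * Real.exp (l * k / 2) :=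
              mul_le_mul hk2 hc hJ (by positivity)
          _ = (2 / l) * Real.exp (l * k) := by
              rw [mul_assoc, ← Real.exp_add]
              congr 2
              ring
      calc g ^ q / L ≤ g ^ q := div_le_self hgq0 hL1
        _ ≤ C * (k * J) := hgq
        _ ≤ C * ((2 / l) * Real.exp (l * k)) := mul_le_mul_of_nonneg_left e1 hC0.le
        _ ≤ C * (2 / l) * (1 + C4) * (Real.exp (l * k) + J) := by
            have e2 : 0 ≤ C * (2 / l) := by positivity
            have e3 : Real.exp (l * k) ≤ (1 + C4) * (Real.exp (l * k) + J) := by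
              nlinarith
            calc C * ((2 / l) * Real.exp (l * k)) = C * (2 / l) * Real.exp (l * k) := by ring
              _ ≤ C * (2 / l) * ((1 + C4) * (Real.exp (l * k) + J)) :=
                  mul_le_mul_of_nonneg_left e3 e2
              _ = _ := by ring
    · push Not at hc
      have hJ1 : 1 ≤ J := by
        have : 1 ≤ Real.exp (l * k / 2) := Real.one_le_exp (by positivity)
        linarith
      have hlog : l * k / 2 < Real.log J := by
        rw [Real.lt_log_iff_exp_lt h]
        exact hc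
      have hlogJ : 0 ≤ Real.log J := Real.log_nonneg hJ1
      have h3' := h3 M
      rw [← hJdef, abs_of_pos h, ← hg] at h3'
      have hgpos : 0 < g := by
        rcases hg0.eq_or_lt with h' | h'
        · rw [← h', zero_pow (by omega), mul_zero] at h3'
          have : 0 < J ^ (n - 1) := by positivity
          linarith
        · exact h'
      have hl3 := Real.log_le_log (by positivity) h3'
      rw [Real.log_pow, Real.log_mul hC3.ne' (by positivity), Real.log_pow, ← h1] at hl3
      have hgL : Real.log g ≤ L := Real.log_le_log hgpos (by linarith [Real.exp_pos 1])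
      have hJL : Real.log J ≤ C4 * L := by
        have e1 : Real.log J ≤ ((n : ℝ) - 1) * Real.log J := by nlinarith
        have e2 : Real.log C3 ≤ |Real.log C3| * L := by
          have := le_abs_self (Real.log C3)
          have h0' := abs_nonneg (Real.log C3)
          nlinarith
        have e3 : (n : ℝ) * Real.log g ≤ n * L := mul_le_mul_of_nonneg_left hgL hn0.le
        rw [hC4]
        linarith
      have hkL : k ≤ (2 / l) * (C4 * L) := by
        have : k ≤ (2 / l) * Real.log J := by
          rw [div_mul_eq_mul_div, le_div_iff₀ hl]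
          linarith
        exact this.trans (mul_le_mul_of_nonneg_left hJL (by positivity))
      calc g ^ q / L ≤ C * (k * J) / L := div_le_div_of_nonneg_right hgq hL0.le
        _ ≤ C * (((2 / l) * (C4 * L)) * J) / L := by
            apply div_le_div_of_nonneg_right _ hL0.le
            exact mul_le_mul_of_nonneg_left (mul_le_mul_of_nonneg_right hkL hJ) hC0.le
        _ = C * (2 / l) * (C4 * J) := by
            field_simp
        _ ≤ C * (2 / l) * ((1 + C4) * (Real.exp (l * k) + J)) := by
            apply mul_le_mul_of_nonneg_left _ (by positivity)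
            nlinarith
        _ = _ := by ring

theorem pow_le_exp {l x : ℝ} (hl : 0 < l) (hx : 0 ≤ x) (m : ℕ) :
    x ^ m ≤ (m.factorial / l ^ m) * Real.exp (l * x) := by
  have h := Real.pow_div_factorial_le_exp (l * x) (by positivity) m
  rw [div_le_iff₀ (by positivity), mul_pow] at h
  rw [div_mul_eq_mul_div, le_div_iff₀ (by positivity)]
  linarith



/-- L0. integrability facts -/
theorem integrability_facts {n : ℕ} (hn : 2 ≤ n) {Df : E n → Matrix (Fin n) (Fin n) ℝ}
    (hDm : ∀ i j, Measurable fun x => Df x i j) {B : Set (E n)} (hB : IsCompact B) {l : ℝ}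
    (hl : 0 < l) (hJ : IntegrableOn (fun x => (Df x).det) B)
    (hpos : ∀ᵐ x ∂(volume.restrict B), 0 ≤ (Df x).det ∧ ((Df x).det = 0 → Df x = 0))
    (hexp : IntegrableOn (fun x => Real.exp (l * kk (Df x))) B) :
    (Measurable fun x => kk (Df x)) ∧
    IntegrableOn (fun x => sn (Df x) ^ (n - 1)) B ∧
    IntegrableOn (fun x => sn (Df x).adjugate ^ ((n : ℝ) / ((n : ℝ) - 1)) /
      Real.log (Real.exp 1 + sn (Df x).adjugate)) B ∧
    ∀ᵐ x ∂(volume.restrict B), ‖Matrix.toEuclideanCLM (𝕜 := ℝ) (Df x).adjugate‖ =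
      (kk (Df x) * (Df x).det) ^ (((n : ℝ) - 1) / n) := by
  refine ⟨meas_kk hDm, ?_, ?_, ?_⟩
  · obtain ⟨C, hC, hb⟩ := sn_pow_bound hn
    have hi : Integrable (fun x => C * ((((n - 1) ^ 3).factorial / l ^ ((n - 1) ^ 3)) *
        Real.exp (l * kk (Df x)) + (Df x).det)) (volume.restrict B) :=
      ((hexp.const_mul _).add hJ).const_mul C
    refine Integrable.mono' hi ((meas_sn hDm).pow_const _).aestronglyMeasurable ?_
    filter_upwards [hpos] with x hx
    rw [Real.norm_eq_abs, abs_of_nonneg (pow_nonneg (sn_nonneg _) _)]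
    refine (hb (Df x) hx.1 hx.2).trans ?_
    apply mul_le_mul_of_nonneg_left _ hC.le
    have := pow_le_exp hl (kk_nonneg hx.1) ((n - 1) ^ 3)
    linarith
  · obtain ⟨C, hC, hb⟩ := zyg_bound hn hl
    have hi : Integrable (fun x => C * (Real.exp (l * kk (Df x)) + (Df x).det))
        (volume.restrict B) := (hexp.add hJ).const_mul C
    have hm := meas_sn (meas_adj hDm)
    refine Integrable.mono' hi ((hm.pow_const _).div
      (Real.measurable_log.comp (measurable_const.add hm))).aestronglyMeasurable ?_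
    filter_upwards [hpos] with x hx
    rw [Real.norm_eq_abs, abs_of_nonneg]
    · exact hb (Df x) hx.1 hx.2
    · apply div_nonneg (Real.rpow_nonneg (sn_nonneg _) _)
      apply Real.log_nonneg
      have h1 := sn_nonneg (Df x).adjugate
      have h2 := Real.one_le_exp (x := 1) (by norm_num)
      linarith
  · filter_upwards [hpos] with x hx
    exact norm_adj_eq hn hx.1 hx.2


end H248.ID.J21

namespace H248.ID

export J21 (integrability_facts)

end H248.ID
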