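import Pool.Agent.H248.ID.J09b
import Pool.Agent.H248.ID.J10
import Pool.Agent.H248.ID.J12b
import Pool.Agent.H248.ID.J13
import Pool.Agent.H248.ID.J16
import Pool.Agent.H248.ID.J17
import Pool.Agent.H248.ID.J18
import Pool.Agent.H248.ID.J21

set_option autoImplicit false

open MeasureTheory Metric Set Filter Topology
open scoped ENNReal NNReal ContDiff

namespace H248.ID

theorem core {m : ℕ} (hm : 1 ≤ m) {f : E (m + 1) → E (m + 1)}
    {Df : E (m + 1) → Matrix (Fin (m + 1)) (Fin (m + 1)) ℝ}
    (hfm : Measurable f) (hDm : ∀ i j, Measurable fun x => Df x i j) {a : E (m + 1)} {R : ℝ}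
    (hR : 0 < R)
    (hf : ∀ i, IntegrableOn (fun x => f x i) (closedBall a (2 * R)))
    (hW : ∀ φ : E (m + 1) → ℝ, ContDiff ℝ ∞ φ → tsupport φ ⊆ closedBall a (2 * R) →
      ∀ i j, ∫ x, f x i * pd φ j x = - ∫ x, Df x i j * φ x)
    (hJ : IntegrableOn (fun x => (Df x).det) (closedBall a (2 * R)))
    (hpos : ∀ᵐ x ∂(volume.restrict (closedBall a (2 * R))),
      0 ≤ (Df x).det ∧ ((Df x).det = 0 → Df x = 0))
    {l : ℝ} (hl : 0 < l)
    (hexp : IntegrableOn (fun x => Real.exp (l * kk (Df x))) (closedBall a (2 * R)))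
    {ε : ℝ} (hε : 0 < ε) :
    ∃ r > 0, r ≤ R ∧ ∀ i, ∃ c : ℝ,
      ∀ᵐ x ∂(volume.restrict (closedBall a r)), |f x i - c| ≤ ε := by
  have hn : 2 ≤ m + 1 := by omega
  have hsub : closedBall a R ⊆ closedBall a (2 * R) := closedBall_subset_closedBall (by linarith)
  obtain ⟨hkm, hint1, hint2, hnorm⟩ := integrability_facts hn hDm
    (isCompact_closedBall a (2 * R)) hl hJ hpos hexp
  simp only [Nat.add_sub_cancel] at hint1
  obtain ⟨F, hF, hconv, Φ, hΦ, hdom⟩ := mollification (by omega) hfm hDm hR hf hW hm hint1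
  obtain ⟨C1, hC1, hadj⟩ := sn_adj_le (n := m + 1) (by omega)
  simp only [Nat.add_sub_cancel] at hadj
  have hfin : IsFiniteMeasure (volume.restrict (closedBall a R)) :=
    ⟨by rw [Measure.restrict_apply_univ]; exact measure_closedBall_lt_top⟩
  -- dominations
  have hdomA : ∀ᵐ x ∂(volume.restrict (closedBall a R)), ∀ k,
      sn (jac (F k) x).adjugate ≤ C1 * Φ x := by
    filter_upwards [hdom] with x hx k
    exact (hadj _).trans (mul_le_mul_of_nonneg_left (hx k) hC1.le)
  have hdomS : ∀ᵐ x ∂(volume.restrict (closedBall a R)), ∀ k,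
      sn (jac (F k) x) ≤ 1 + Φ x := by
    filter_upwards [hdom] with x hx k
    refine le_trans ?_ (add_le_add le_rfl (hx k))
    have h0 := sn_nonneg (jac (F k) x)
    rcases le_total (sn (jac (F k) x)) 1 with h1 | h1
    · have : 0 ≤ sn (jac (F k) x) ^ m := by positivity
      linarith
    · have : sn (jac (F k) x) ^ 1 ≤ sn (jac (F k) x) ^ m := pow_le_pow_right₀ h1 hm
      rw [pow_one] at this
      linarith
  have hΦA : IntegrableOn (fun x => C1 * Φ x) (closedBall a R) := hΦ.const_mul _
  have hΦS : IntegrableOn (fun x => 1 + Φ x) (closedBall a R) := (integrable_const _).add hΦ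
  have hJR : IntegrableOn (fun x => (Df x).det) (closedBall a R) := hJ.mono_set hsub
  have hdetm : Measurable fun x => (Df x).det := by
    simp only [Matrix.det_apply]
    refine Finset.measurable_sum _ fun σ _ => ?_
    exact (Finset.measurable_prod _ fun i _ => hDm _ _).const_smul _
  have hadjm : ∀ i j, Measurable fun x => (Df x).adjugate i j := by
    intro i j
    simp only [Matrix.adjugate_apply, Matrix.det_apply]
    refine Finset.measurable_sum _ fun σ _ => ?_
    refine (Finset.measurable_prod _ fun k _ => ?_).const_smul _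
    by_cases hk : σ k = j
    · simp only [hk, Matrix.updateRow_self]
      exact measurable_const
    · simp only [Matrix.updateRow_ne hk]
      exact hDm _ _
  have hposR : ∀ᵐ x ∂(volume.restrict (closedBall a R)),
      0 ≤ (Df x).det ∧ ((Df x).det = 0 → Df x = 0) :=
    ae_restrict_of_ae_restrict_of_subset hsub hpos
  have hnormR : ∀ᵐ x ∂(volume.restrict (closedBall a R)),
      ‖Matrix.toEuclideanCLM (𝕜 := ℝ) (Df x).adjugate‖ =
      (kk (Df x) * (Df x).det) ^ ((((m + 1 : ℕ) : ℝ) - 1) / ((m + 1 : ℕ) : ℝ)) :=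
    ae_restrict_of_ae_restrict_of_subset hsub hnorm
  have hkk0 : ∀ M : Matrix (Fin (m + 1)) (Fin (m + 1)) ℝ, 0 ≤ M.det → 0 ≤ kk M := by
    intro M hM
    unfold kk
    split_ifs
    · positivity
    · positivity
  obtain ⟨Cc, hCc, hcap⟩ := cap hm
  -- cut-off
  set Cm : ℝ := ((m : ℝ) + 1) ^ (m + 1) with hCm
  have hCm0 : 0 < Cm := by positivity
  set ε' : ℝ := ε / (4 * Cc * (1 + Cm)) with hε'
  have hε'0 : 0 < ε' := by positivity
  have hR8 : 0 < R / 8 := by positivity
  have hs8 : closedBall a (R / 8) ⊆ closedBall a R := closedBall_subset_closedBall (by linarith)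
  obtain ⟨r, hr0, hrR, ζ, hζs, hζsupp, hζ0, hζ1, hζr, hζi1, hζi2, hζJ, hζK⟩ :=
    J17.exists_cutoff_strong hm (a := a) hR8 hl (J := fun x => |(Df x).det|)
      (k := fun x => |kk (Df x)|) hkm.abs (fun x => abs_nonneg _) (fun x => abs_nonneg _)
      (hJR.mono_set hs8).abs (by
        refine (hexp.mono_set (hs8.trans hsub)).congr ?_
        have := ae_restrict_of_ae_restrict_of_subset (hs8.trans hsub) hpos
        filter_upwards [this] with x hx
        rw [abs_of_nonneg (hkk0 _ hx.1)]) hε'0
  have hζ1' : ContDiff ℝ 1 ζ := hζs.of_le (by norm_cast)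
  set η : E (m + 1) → ℝ := fun x => ζ x ^ (m + 1) with hη
  have hηs : ContDiff ℝ ∞ η := hζs.pow _
  have hη1' : ContDiff ℝ 1 η := hηs.of_le (by norm_cast)
  have hηsupp : tsupport η ⊆ tsupport ζ := by
    refine closure_mono ?_
    intro x hx hc
    apply hx
    simp only [hη]
    have : ζ x = 0 := by simpa using hc
    rw [this, zero_pow (by omega)]
  set μ : Measure (E (m + 1)) := volume.restrict (closedBall a R) with hμ
  set α : E (m + 1) → ℝ := fun x => ζ x ^ (m + 1) * |(Df x).det| with hα
  set β : E (m + 1) → ℝ := fun x => Cm * (gr ζ x ^ (m + 1) * |kk (Df x)| ^ m) with hβ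
  set v : Fin (m + 1) → E (m + 1) → ℝ := fun i x => ∑ j, (Df x).adjugate j i * pd η j x with hv
  have hζ8 : ∀ x ∉ closedBall a (R / 8), ζ x = 0 := fun x hx =>
    image_eq_zero_of_notMem_tsupport fun hc => hx (hζsupp hc)
  have hgζ8 : ∀ x ∉ closedBall a (R / 8), gr ζ x = 0 := fun x hx =>
    gr_eq_zero_of_notMem fun hc => hx (hζsupp hc)
  have hαi : Integrable α μ := by
    refine (integrableOn_iff_integrable_of_support_subset ?_).1 hζi2 |>.integrableOn
    intro x hx
    by_contra hc
    apply hx
    show ζ x ^ (m + 1) * |(Df x).det| = 0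
    rw [hζ8 x hc, zero_pow (by omega), zero_mul]
  have hβi0 : Integrable (fun x => gr ζ x ^ (m + 1) * |kk (Df x)| ^ m) volume := by
    refine (integrableOn_iff_integrable_of_support_subset ?_).1 hζi1
    intro x hx
    by_contra hc
    apply hx
    show gr ζ x ^ (m + 1) * |kk (Df x)| ^ m = 0
    rw [hgζ8 x hc, zero_pow (by omega), zero_mul]
  have hβi : Integrable β μ := (hβi0.const_mul _).integrableOn
  have hα0 : ∀ x, 0 ≤ α x := fun x => by
    have := hζ0 x
    simp only [hα]; positivity
  have hβ0 : ∀ x, 0 ≤ β x := fun x => by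
    have := gr_nonneg ζ x
    simp only [hβ]; positivity
  have hαI : ∫ x, α x ∂μ ≤ ε' / 2 := by
    refine le_trans (le_of_eq ?_) hζJ
    rw [hμ]
    refine setIntegral_eq_of_subset_of_forall_sdiff_eq_zero measurableSet_closedBall hs8 ?_
    intro x hx
    show ζ x ^ (m + 1) * |(Df x).det| = 0
    rw [hζ8 x hx.2, zero_pow (by omega), zero_mul]
  have hβI : ∫ x, β x ∂μ ≤ Cm * (ε' / 2) := by
    simp only [hβ]
    rw [integral_const_mul]
    refine mul_le_mul_of_nonneg_left (le_trans (le_of_eq ?_) hζK) hCm0.le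
    rw [hμ]
    refine setIntegral_eq_of_subset_of_forall_sdiff_eq_zero measurableSet_closedBall hs8 ?_
    intro x hx
    show gr ζ x ^ (m + 1) * |kk (Df x)| ^ m = 0
    rw [hgζ8 x hx.2, zero_pow (by omega), zero_mul]
  have hsnadj : IntegrableOn (fun x => sn (Df x).adjugate) (closedBall a R) := by
    have hm1 : Measurable fun x => sn (Df x).adjugate := by
      unfold sn
      exact Finset.measurable_sum _ fun i _ => Finset.measurable_sum _ fun j _ =>
        (hadjm i j).abs
    refine Integrable.mono' ((hint1.mono_set hsub).const_mul C1) hm1.aestronglyMeasurable ?_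
    refine Eventually.of_forall fun x => ?_
    rw [Real.norm_eq_abs, abs_of_nonneg (sn_nonneg _)]
    exact hadj _
  have hvi : ∀ i, Integrable (v i) μ := by
    intro i
    have hcs : HasCompactSupport η := (isCompact_closedBall a (R / 8)).of_isClosed_subset
      (isClosed_tsupport _) (hηsupp.trans hζsupp)
    obtain ⟨L, hL⟩ : ∃ L, ∀ x, gr η x ≤ L := by
      have hcg : HasCompactSupport (gr η) :=
        HasCompactSupport.intro hcs fun x hx => gr_eq_zero_of_notMem hx
      obtain ⟨L, hL⟩ := hcg.exists_bound_of_continuous (continuous_gr hη1')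
      exact ⟨L, fun x => (le_abs_self _).trans (hL x)⟩
    have hvm : Measurable (v i) := by
      simp only [hv]
      exact Finset.measurable_sum _ fun j _ => (hadjm j i).mul (continuous_pd hη1' j).measurable
    refine Integrable.mono' (hsnadj.const_mul L) hvm.aestronglyMeasurable ?_
    refine Eventually.of_forall fun x => ?_
    rw [Real.norm_eq_abs]
    exact (abs_sum_adj_le _ _ _ _).trans
      (mul_le_mul_of_nonneg_right (hL x) (sn_nonneg _))
  have hexp1 : (((m + 1 : ℕ) : ℝ) - 1) / ((m + 1 : ℕ) : ℝ) = (m : ℝ) / (m + 1) := by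
    push_cast; ring
  have hpdη : ∀ j x, pd η j x = (m + 1) * ζ x ^ m * pd ζ j x := by
    intro j x
    unfold pd
    simp only [hη]
    have h1 : DifferentiableAt ℝ ζ x := hζ1'.differentiable one_ne_zero x
    have h2 := (h1.hasFDerivAt.pow (m + 1)).fderiv
    rw [h2]
    simp
  have hgrη : ∀ x, gr η x = (m + 1) * ζ x ^ m * gr ζ x := by
    intro x
    unfold gr
    rw [Finset.mul_sum]
    refine Finset.sum_congr rfl fun j _ => ?_
    rw [hpdη, abs_mul, abs_of_nonneg (by have := hζ0 x; positivity)]
  have hvb : ∀ i, ∀ᵐ x ∂μ, |v i x| ≤ α x ^ ((m : ℝ) / (m + 1)) * β x ^ (1 / ((m : ℝ) + 1)) := by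
    intro i
    filter_upwards [hnormR, hposR] with x hx1 hx2
    have hζx := hζ0 x
    have hgx := gr_nonneg ζ x
    have hk0 : 0 ≤ kk (Df x) := hkk0 _ hx2.1
    have hm0 : (0 : ℝ) < (m : ℝ) + 1 := by positivity
    have h1 : |v i x| ≤ gr η x * ‖Matrix.toEuclideanCLM (𝕜 := ℝ) (Df x).adjugate‖ := by
      simp only [hv]
      refine (Finset.abs_sum_le_sum_abs _ _).trans ?_
      unfold gr
      rw [Finset.sum_mul]
      refine Finset.sum_le_sum fun j _ => ?_
      rw [abs_mul, mul_comm]
      exact mul_le_mul_of_nonneg_left (entry_le_norm _ j i) (abs_nonneg _)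
    refine h1.trans (le_of_eq ?_)
    rw [hx1, hexp1, hgrη]
    simp only [hα, hβ]
    rw [abs_of_nonneg hx2.1, abs_of_nonneg hk0]
    have e1 : (ζ x ^ (m + 1) * (Df x).det) ^ ((m : ℝ) / (m + 1)) =
        ζ x ^ m * (Df x).det ^ ((m : ℝ) / (m + 1)) := by
      rw [Real.mul_rpow (by positivity) hx2.1]
      congr 1
      rw [← Real.rpow_natCast (ζ x) (m + 1), ← Real.rpow_mul hζx, ← Real.rpow_natCast (ζ x) m]
      congr 1
      push_cast
      field_simp
    have e2 : (Cm * (gr ζ x ^ (m + 1) * kk (Df x) ^ m)) ^ (1 / ((m : ℝ) + 1)) =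
        (m + 1) * (gr ζ x * kk (Df x) ^ ((m : ℝ) / (m + 1))) := by
      rw [Real.mul_rpow hCm0.le (by positivity), Real.mul_rpow (by positivity) (by positivity)]
      have e3 : ∀ y : ℝ, 0 ≤ y → (y ^ (m + 1)) ^ (1 / ((m : ℝ) + 1)) = y := by
        intro y hy
        rw [← Real.rpow_natCast y (m + 1), ← Real.rpow_mul hy]
        push_cast
        rw [mul_one_div_cancel hm0.ne', Real.rpow_one]
      rw [hCm, e3 _ (by positivity), e3 _ hgx]
      congr 2
      rw [← Real.rpow_natCast (kk (Df x)) m, ← Real.rpow_mul hk0]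
      congr 1
      ring
    rw [e1, e2, Real.mul_rpow hk0 hx2.1]
    ring
  have hid : ∀ i, ∀ ψ : E (m + 1) → ℝ, ContDiff ℝ ∞ ψ → HasCompactSupport ψ →
      ∫ x, pd ψ i (f x) * α x ∂μ = - ∫ x, ψ (f x) * v i x ∂μ := by
    intro i ψ hψ hψc
    have hg : IntegrableOn (fun x => sn (Df x).adjugate ^
        (((m + 1 : ℕ) : ℝ) / (((m + 1 : ℕ) : ℝ) - 1)) /
        Real.log (Real.exp 1 + sn (Df x).adjugate)) (closedBall a R) := hint2.mono_set hsub
    have := identity_B hn hfm hDm hR hF hΦA hconv hdomA hJR hg hηs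
      (hηsupp.trans (hζsupp.trans (closedBall_subset_closedBall (by linarith)))) hψ hψc i
    rw [hμ, ← this]
    refine integral_congr_ae ?_
    filter_upwards [hposR] with x hx
    simp only [hα, hη]
    rw [abs_of_nonneg hx.1]
    ring
  refine ⟨r, hr0, by linarith, fun i => ?_⟩
  have hrR' : closedBall a r ⊆ closedBall a R := closedBall_subset_closedBall (by linarith)
  have hfi : Measurable fun x => f x i := (measurable_pi_apply i).comp hfm
  have hfinr : IsFiniteMeasure (volume.restrict (closedBall a r)) :=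
    ⟨by rw [Measure.restrict_apply_univ]; exact measure_closedBall_lt_top⟩
  suffices hosc : ∀ s t : ℝ, ε / 2 < t - s →
      (volume.restrict (closedBall a r)) {x | f x i < s} = 0 ∨
      (volume.restrict (closedBall a r)) {x | t < f x i} = 0 by
    obtain ⟨c, hc⟩ := ess_osc hfi (half_pos hε) hosc
    refine ⟨c, ?_⟩
    filter_upwards [hc] with x hx
    linarith
  intro s t hst
  by_contra hcon
  push Not at hcon
  obtain ⟨hs0, ht0⟩ := hcon
  have hsum : Cc * (∫ x, α x ∂μ + ∫ x, β x ∂μ) < t - s := by
    refine lt_of_le_of_lt ?_ hst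
    calc Cc * (∫ x, α x ∂μ + ∫ x, β x ∂μ) ≤ Cc * (ε' / 2 + Cm * (ε' / 2)) :=
          mul_le_mul_of_nonneg_left (add_le_add hαI hβI) hCc.le
      _ = ε / 8 := by
          rw [hε']
          field_simp
          ring
      _ ≤ ε / 2 := by linarith
  obtain ⟨K, hKc, hKst, hKpos, hKN⟩ := hcap μ f hfm α β v hαi hβi hvi hα0 hβ0 hvb hid i s t hsum
  obtain ⟨A, hAm, hAsub, hAcov, hAd⟩ := approx_diff (by omega) hfm hDm hR hF hΦS hconv hdomS
  -- the Jacobian vanishes a.e. on `f_i ∈ K`
  have hzero : ∀ᵐ x ∂(volume.restrict (closedBall a r)), f x i ∈ K → ∀ j, Df x i j = 0 := by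
    set S : ℕ → Set (E (m + 1)) := fun j => (A j ∩ closedBall a r) ∩ {x | 0 ≤ (Df x).det} with hS
    have hSm : ∀ j, MeasurableSet (S j) := fun j =>
      ((hAm j).inter measurableSet_closedBall).inter (measurableSet_le measurable_const hdetm)
    have hSR : ∀ j, S j ⊆ closedBall a R := fun j x hx => hrR' hx.1.2
    have hKm : MeasurableSet {y : E (m + 1) | y i ∈ K} :=
      (measurable_pi_apply i) hKc.measurableSet
    have hone : ∀ j, ∀ᵐ x, x ∈ S j → f x i ∈ K → (Df x).det = 0 := by
      intro j
      have hdet : ∀ x, (toC (Df x)).det = (Df x).det := fun x => toC_det _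
      obtain ⟨N, hNm, hNi, hNint, hN0⟩ := area_integer (f := f) (f' := fun x => toC (Df x))
        (hSm j) (fun x hx => (hAd j x hx.1.1).mono fun y hy => hy.1.1) (by
          simp only [hdet]
          exact hJR.mono_set (hSR j))
      simp only [hdet] at hNint hN0
      have hN0' : ∀ y, 0 ≤ N y := hN0 fun x hx => hx.2
      have hNz := hKN (fun y => (N y : ℝ)) hNi (fun y => by
        rcases (hN0' y).eq_or_lt with h | h
        · left; rw [← h]; simp
        · right; exact_mod_cast h) (by
          intro ψ hψ hψc hψ0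
          obtain ⟨P, hP⟩ := hψc.exists_bound_of_continuous hψ
          rw [← hNint ψ hψ.measurable ⟨P, hP⟩]
          have hi1 : Integrable (fun x => ψ (f x) * α x) μ := by
            refine Integrable.mono' (hαi.const_mul P)
              ((hψ.measurable.comp hfm).aestronglyMeasurable.mul hαi.aestronglyMeasurable) ?_
            refine Eventually.of_forall fun x => ?_
            rw [norm_mul]
            rw [Real.norm_eq_abs (α x), abs_of_nonneg (hα0 x)]
            exact mul_le_mul_of_nonneg_right (hP _) (hα0 x)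
          calc ∫ x in S j, ψ (f x) * (Df x).det = ∫ x in S j, ψ (f x) * α x := by
                refine setIntegral_congr_fun (hSm j) fun x hx => ?_
                simp only [hα]
                have h1 : 0 ≤ (Df x).det := hx.2
                rw [hζr x hx.1.2, one_pow, one_mul, abs_of_nonneg h1]
            _ ≤ ∫ x in closedBall a R, ψ (f x) * α x := by
                refine setIntegral_mono_set hi1 (Eventually.of_forall fun x =>
                  mul_nonneg (hψ0 _) (hα0 x)) (Eventually.of_forall (hSR j)))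
      have hK0 : ∫ x in S j, ({y : E (m + 1) | y i ∈ K}.indicator (fun _ => (1 : ℝ)) (f x)) *
          (Df x).det = 0 := by
        rw [hNint _ (measurable_const.indicator hKm) ⟨1, fun y => by
          by_cases hy : y ∈ {y : E (m + 1) | y i ∈ K}
          · rw [indicator_of_mem hy]; simp
          · rw [indicator_of_notMem hy]; simp⟩]
        rw [integral_eq_zero_of_ae]
        filter_upwards [hNz] with y hy
        by_cases hyK : y ∈ {y : E (m + 1) | y i ∈ K}
        · have h1 : (N y : ℝ) = 0 := hy hyK
          simp [h1]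
        · rw [indicator_of_notMem hyK]
          simp
      rw [setIntegral_eq_zero_iff_of_nonneg_ae] at hK0
      · have := (ae_restrict_iff' (hSm j)).1 hK0
        filter_upwards [this] with x hx hxS hxK
        have h1 := hx hxS
        have h2 : f x ∈ {y : E (m + 1) | y i ∈ K} := hxK
        rw [indicator_of_mem h2] at h1
        simpa using h1
      · refine (ae_restrict_iff' (hSm j)).2 (Eventually.of_forall fun x hx => ?_)
        have h1 : 0 ≤ (Df x).det := hx.2
        refine mul_nonneg ?_ h1
        exact indicator_nonneg (fun _ _ => zero_le_one) _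
      · have : IntegrableOn (fun x => (Df x).det) (S j) := hJR.mono_set (hSR j)
        refine Integrable.mono this
          (((measurable_const.indicator hKm).comp hfm).mul hdetm).aestronglyMeasurable ?_
        refine Eventually.of_forall fun x => ?_
        rw [norm_mul]
        by_cases hy : f x ∈ {y : E (m + 1) | y i ∈ K}
        · rw [indicator_of_mem hy]; simp
        · rw [indicator_of_notMem hy]; simp
    have hall : ∀ᵐ x, ∀ j, x ∈ S j → f x i ∈ K → (Df x).det = 0 := ae_all_iff.2 hone
    have hcov : ∀ᵐ x, x ∉ closedBall a (R / 4) \ ⋃ j, A j := measure_eq_zero_iff_ae_notMem.1 hAcov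
    have hpr : ∀ᵐ x ∂(volume.restrict (closedBall a r)),
        0 ≤ (Df x).det ∧ ((Df x).det = 0 → Df x = 0) :=
      ae_restrict_of_ae_restrict_of_subset (hrR'.trans hsub) hpos
    have hmem : ∀ᵐ x ∂(volume.restrict (closedBall a r)), x ∈ closedBall a r :=
      ae_restrict_mem measurableSet_closedBall
    filter_upwards [ae_restrict_of_ae hall, ae_restrict_of_ae hcov, hpr, hmem] with
      x h1 h2 h3 h4 hxK j
    have h5 : x ∈ ⋃ j, A j := by
      by_contra hc
      exact h2 ⟨closedBall_subset_closedBall (by linarith) h4, hc⟩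
    obtain ⟨k, hk⟩ := mem_iUnion.1 h5
    have h6 := h3.2 (h1 k ⟨⟨hk, h4⟩, h3.1⟩ hxK)
    rw [h6]
    rfl
  obtain ⟨c, hc⟩ := level_const (by omega) hfm hDm hR hF hΦS hconv hdomS i hKc hr0
    (by linarith) hzero
  have hc' := hc
  -- c = 0
  have hc0 : c = 0 := by
    by_contra hne
    apply hs0
    rw [← nonpos_iff_eq_zero]
    have h1 : (volume.restrict (closedBall a r)) {x | f x i < s} ≤
        (volume.restrict (closedBall a r)) {x | ¬ (volume (K ∩ Iic (f x i))).toReal = c} := by
      refine measure_mono fun x hx => ?_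
      show ¬ _
      have hx' : f x i < s := hx
      have : K ∩ Iic (f x i) = ∅ := by
        ext y
        simp only [mem_inter_iff, mem_Iic, mem_empty_iff_false, iff_false, not_and, not_le]
        intro hy
        exact hx'.trans_le (hKst hy).1
      rw [this]
      simp only [measure_empty, ENNReal.toReal_zero]
      exact fun h => hne h.symm
    rw [ae_iff] at hc
    exact h1.trans (le_of_eq hc)
  have hc1 : c = (volume K).toReal := by
    by_contra hne
    apply ht0
    rw [← nonpos_iff_eq_zero]
    have h1 : (volume.restrict (closedBall a r)) {x | t < f x i} ≤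
        (volume.restrict (closedBall a r)) {x | ¬ (volume (K ∩ Iic (f x i))).toReal = c} := by
      refine measure_mono fun x hx => ?_
      show ¬ _
      have hx' : t < f x i := hx
      have : K ∩ Iic (f x i) = K := by
        rw [inter_eq_left]
        intro y hy
        exact (hKst hy).2.trans hx'.le
      rw [this]
      exact fun h => hne h.symm
    rw [ae_iff] at hc'
    exact h1.trans (le_of_eq hc')
  have hKt : volume K ≠ ⊤ := hKc.measure_lt_top.ne
  have := ENNReal.toReal_pos hKpos.ne' hKt
  rw [← hc1, hc0] at this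
  exact lt_irrefl _ this

end H248.ID
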