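import Pool.Agent.H248.ID.J02

set_option autoImplicit false
open MeasureTheory Metric Set Filter Topology
open scoped ENNReal NNReal ContDiff

namespace H248.ID.J04a







section aux

variable {n : ℕ}

lemma pd_cont {h : E n → ℝ} (hh : ContDiff ℝ ∞ h) (j : Fin n) : Continuous (pd h j) := by
  unfold pd
  exact (hh.continuous_fderiv (by simp)).clm_apply continuous_const

lemma jac_cont {f : E n → E n} (hf : ContDiff ℝ ∞ f) : Continuous (jac f) := by
  apply continuous_matrix
  intro i j
  have : ContDiff ℝ ∞ (fun y => f y i) := (contDiff_pi.1 hf) i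
  exact pd_cont this j

lemma norm_le_sum (L : E n →L[ℝ] ℝ) : ‖L‖ ≤ ∑ i, |L (Pi.single i 1)| := by
  apply ContinuousLinearMap.opNorm_le_bound _ (Finset.sum_nonneg fun i _ => abs_nonneg _)
  intro v
  have e : L v = ∑ i, v i * L (Pi.single i 1) := by
    conv_lhs => rw [← Finset.univ_sum_single v]
    rw [map_sum]
    apply Finset.sum_congr rfl
    intro i _
    have : (Pi.single i (v i) : E n) = v i • Pi.single i 1 := by
      rw [← Pi.single_smul]; simp
    rw [this, map_smul, smul_eq_mul]
  rw [e, Real.norm_eq_abs, Finset.sum_mul]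
  refine (Finset.abs_sum_le_sum_abs _ _).trans (Finset.sum_le_sum fun i _ => ?_)
  rw [abs_mul, mul_comm]
  gcongr
  exact norm_le_pi_norm v i

end aux

/-- L3a. gradient bound for the mollified push-forward and Gagliardo-Nirenberg -/
theorem iso_push {n : ℕ} (hn : 2 ≤ n) : ∃ C : ℝ, 0 < C ∧
    ∀ (f : E n → E n), ContDiff ℝ ∞ f → ∀ (h : E n → ℝ), ContDiff ℝ ∞ h → HasCompactSupport h →
    ∀ (ρ : E n → ℝ), ContDiff ℝ ∞ ρ → HasCompactSupport ρ → (∀ x, 0 ≤ ρ x) → ∫ x, ρ x = 1 →
    ∀ (A : ℝ), ∫ x, gr h x * sn (jac f x).adjugate ≤ A →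
    ∫⁻ y, ENNReal.ofReal (|∫ x, ρ (y - f x) * (h x * (jac f x).det)| ^ ((n : ℝ) / ((n : ℝ) - 1))) ≤
      ENNReal.ofReal (C * A ^ ((n : ℝ) / ((n : ℝ) - 1))) := by
  refine ⟨1, one_pos, ?_⟩
  intro f hf h hh hc ρ hρ hρc hρ0 hρ1 A hA
  have hfc : Continuous f := hf.continuous
  have hρcont : Continuous ρ := hρ.continuous
  set H : E n → ℝ := fun x => h x * (jac f x).det with hHdef
  have hHcont : Continuous H := hh.continuous.mul (jac_cont hf).matrix_det
  have hHc : HasCompactSupport H := hc.mul_right
  have hHint : Integrable H := hHcont.integrable_of_hasCompactSupport hHc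
  set G : E n → ℝ := fun x => gr h x * sn (jac f x).adjugate with hGdef
  have hadj : ∀ i j, Continuous fun x => (jac f x).adjugate i j := fun i j =>
    (jac_cont hf).matrix_adjugate.matrix_elem i j
  have hgrcont : Continuous (gr h) := by
    unfold gr
    exact continuous_finsetSum _ fun j _ => (pd_cont hh j).abs
  have hsncont : Continuous fun x => sn (jac f x).adjugate := by
    unfold sn
    exact continuous_finsetSum _ fun i _ => continuous_finsetSum _ fun j _ => (hadj i j).abs
  have hGcont : Continuous G := hgrcont.mul hsncont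
  have hG0 : ∀ x, 0 ≤ G x := by
    intro x
    apply mul_nonneg
    · exact Finset.sum_nonneg fun j _ => abs_nonneg _
    · exact Finset.sum_nonneg fun i _ => Finset.sum_nonneg fun j _ => abs_nonneg _
  have hdc : HasCompactSupport (fderiv ℝ h) := hc.fderiv (𝕜 := ℝ)
  have hpd0 : ∀ x j, fderiv ℝ h x = 0 → pd h j x = 0 := by
    intro x j hx
    unfold pd
    rw [hx]; rfl
  have hGc : HasCompactSupport G := by
    apply hdc.mono
    intro x hx
    rw [Function.mem_support] at hx ⊢
    intro h0
    apply hx
    rw [hGdef]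
    have : gr h x = 0 := Finset.sum_eq_zero fun j _ => by rw [hpd0 x j h0, abs_zero]
    simp only [this, zero_mul]
  have hGint : Integrable G := hGcont.integrable_of_hasCompactSupport hGc
  set w : E n → ℝ := fun y => ∫ x, ρ (y - f x) * H x with hw
  obtain ⟨M, hM⟩ := (hρ.continuous_fderiv (by simp)).bounded_above_of_compact_support
    (hρc.fderiv (𝕜 := ℝ))
  set W' : E n → (E n →L[ℝ] ℝ) := fun y => ∫ x, H x • fderiv ℝ ρ (y - f x) with hW'
  have hρ'c : Continuous (fderiv ℝ ρ) := hρ.continuous_fderiv (by simp)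
  have hFcont : ∀ y, Continuous fun x => ρ (y - f x) * H x := fun y =>
    (hρcont.comp (continuous_const.sub hfc)).mul hHcont
  have hF'cont : ∀ y, Continuous fun x => H x • fderiv ℝ ρ (y - f x) := fun y =>
    hHcont.smul (hρ'c.comp (continuous_const.sub hfc))
  have hF'int : ∀ y, Integrable fun x => H x • fderiv ℝ ρ (y - f x) := fun y =>
    (hF'cont y).integrable_of_hasCompactSupport hHc.smul_right
  have hbound : ∀ y x, ‖H x • fderiv ℝ ρ (y - f x)‖ ≤ |H x| * M := by
    intro y x
    rw [norm_smul, Real.norm_eq_abs]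
    exact mul_le_mul_of_nonneg_left (hM _) (abs_nonneg _)
  have hder : ∀ y, HasFDerivAt w (W' y) y := by
    intro y
    apply hasFDerivAt_integral_of_dominated_of_fderiv_le (s := univ)
      (F := fun y x => ρ (y - f x) * H x) (F' := fun y x => H x • fderiv ℝ ρ (y - f x))
      (bound := fun x => |H x| * M) univ_mem
    · exact Eventually.of_forall fun y => (hFcont y).aestronglyMeasurable
    · exact (hFcont y).integrable_of_hasCompactSupport hHc.mul_left
    · exact (hF'cont y).aestronglyMeasurable
    · exact Eventually.of_forall fun x y _ => hbound y x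
    · exact hHint.abs.mul_const M
    · apply Eventually.of_forall
      intro x y _
      have h1 : HasFDerivAt (fun y => ρ (y - f x))
          ((fderiv ℝ ρ (y - f x)).comp (ContinuousLinearMap.id ℝ (E n))) y :=
        (hρ.differentiable (by simp) (y - f x)).hasFDerivAt.comp y
          ((hasFDerivAt_id y).sub_const (f x))
      have h2 := h1.mul_const (H x)
      simpa using h2
  have hW'cont : Continuous W' := by
    apply continuous_of_dominated (bound := fun x => |H x| * M)
    · exact fun y => (hF'cont y).aestronglyMeasurable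
    · exact fun y => Eventually.of_forall fun x => hbound y x
    · exact hHint.abs.mul_const M
    · exact Eventually.of_forall fun x =>
        (hρ'c.comp (continuous_id.sub continuous_const)).const_smul (H x)
  have hw1 : ContDiff ℝ 1 w := contDiff_one_iff_hasFDerivAt.2 ⟨W', hW'cont, hder⟩
  have hwc : HasCompactSupport w := by
    have hK : IsCompact ((fun p : E n × E n => p.1 + p.2) ''
        (tsupport ρ ×ˢ (f '' (tsupport H)))) :=
      (hρc.isCompact.prod (hHc.isCompact.image hfc)).image continuous_add
    apply HasCompactSupport.intro hK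
    intro y hy
    rw [hw]
    apply integral_eq_zero_of_ae
    apply Eventually.of_forall
    intro x
    show ρ (y - f x) * H x = 0
    by_contra hne
    apply hy
    have h1 : ρ (y - f x) ≠ 0 := left_ne_zero_of_mul hne
    have h2 : H x ≠ 0 := right_ne_zero_of_mul hne
    exact ⟨(y - f x, f x), ⟨subset_tsupport _ h1, ⟨x, subset_tsupport _ h2, rfl⟩⟩, by simp⟩
  -- formula for the partial derivatives
  have hpart : ∀ y i, W' y (Pi.single i 1) =
      ∫ x, ρ (y - f x) * ∑ j, (jac f x).adjugate j i * pd h j x := by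
    intro y i
    have h1 : W' y (Pi.single i 1) = ∫ x, H x * pd ρ i (y - f x) := by
      rw [hW']
      rw [ContinuousLinearMap.integral_apply (hF'int y)]
      rfl
    have hψ : ContDiff ℝ ∞ (fun z => ρ (y - z)) := hρ.comp (contDiff_const.sub contDiff_id)
    have hpψ : ∀ z, pd (fun z => ρ (y - z)) i z = - pd ρ i (y - z) := by
      intro z
      have h2 : HasFDerivAt (fun z => ρ (y - z))
          ((fderiv ℝ ρ (y - z)).comp (-(ContinuousLinearMap.id ℝ (E n)))) z :=
        (hρ.differentiable (by simp) (y - z)).hasFDerivAt.comp z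
          ((hasFDerivAt_id z).const_sub y)
      unfold pd
      rw [h2.fderiv]
      simp
    have h3 := ibp_smooth hf hh hc hψ i
    rw [h1, ← neg_inj, ← h3, ← integral_neg]
    congr 1
    funext x
    rw [hpψ, hHdef]
    ring
  have hTc : ∀ y i, Continuous fun x => ρ (y - f x) * ∑ j, (jac f x).adjugate j i * pd h j x :=
    fun y i => (hρcont.comp (continuous_const.sub hfc)).mul
      (continuous_finsetSum _ fun j _ => (hadj j i).mul (pd_cont hh j))
  have hTint : ∀ y i, Integrable fun x =>
      ρ (y - f x) * ∑ j, (jac f x).adjugate j i * pd h j x := by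
    intro y i
    apply (hTc y i).integrable_of_hasCompactSupport
    apply hdc.mono
    intro x hx
    rw [Function.mem_support] at hx ⊢
    intro h0
    apply hx
    rw [Finset.sum_eq_zero fun j _ => by rw [hpd0 x j h0, mul_zero], mul_zero]
  have hρGint : ∀ y, Integrable fun x => ρ (y - f x) * G x := fun y =>
    ((hρcont.comp (continuous_const.sub hfc)).mul hGcont).integrable_of_hasCompactSupport
      hGc.mul_left
  have hpt : ∀ y x, ∑ i, |ρ (y - f x) * ∑ j, (jac f x).adjugate j i * pd h j x| ≤
      ρ (y - f x) * G x := by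
    intro y x
    have h1 : ∀ i, |ρ (y - f x) * ∑ j, (jac f x).adjugate j i * pd h j x| ≤
        ρ (y - f x) * ∑ j, |(jac f x).adjugate j i| * gr h x := by
      intro i
      rw [abs_mul, abs_of_nonneg (hρ0 _)]
      apply mul_le_mul_of_nonneg_left _ (hρ0 _)
      refine (Finset.abs_sum_le_sum_abs _ _).trans (Finset.sum_le_sum fun j _ => ?_)
      rw [abs_mul]
      apply mul_le_mul_of_nonneg_left _ (abs_nonneg _)
      exact Finset.single_le_sum (f := fun j => |pd h j x|) (fun j _ => abs_nonneg _)
        (Finset.mem_univ j)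
    refine (Finset.sum_le_sum fun i _ => h1 i).trans (le_of_eq ?_)
    rw [← Finset.mul_sum, hGdef]
    congr 1
    rw [Finset.sum_comm]
    simp only [← Finset.sum_mul]
    rw [mul_comm]
    rfl
  have hgrad : ∀ y, ‖fderiv ℝ w y‖ ≤ ∫ x, ρ (y - f x) * G x := by
    intro y
    rw [(hder y).fderiv]
    refine (norm_le_sum _).trans ?_
    calc ∑ i, |W' y (Pi.single i 1)|
        ≤ ∑ i, ∫ x, |ρ (y - f x) * ∑ j, (jac f x).adjugate j i * pd h j x| := by
          apply Finset.sum_le_sum
          intro i _
          rw [hpart]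
          exact abs_integral_le_integral_abs
      _ = ∫ x, ∑ i, |ρ (y - f x) * ∑ j, (jac f x).adjugate j i * pd h j x| := by
          rw [integral_finsetSum]
          exact fun i _ => (hTint y i).abs
      _ ≤ _ := by
          apply integral_mono (integrable_finsetSum _ fun i _ => (hTint y i).abs) (hρGint y)
          exact hpt y
  have hgint : ∫⁻ y, ‖fderiv ℝ w y‖ₑ ≤ ENNReal.ofReal A := by
    calc ∫⁻ y, ‖fderiv ℝ w y‖ₑ ≤ ∫⁻ y, ENNReal.ofReal (∫ x, ρ (y - f x) * G x) := by
          apply lintegral_mono
          intro y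
          show ‖fderiv ℝ w y‖ₑ ≤ ENNReal.ofReal (∫ x, ρ (y - f x) * G x)
          rw [← ofReal_norm]
          exact ENNReal.ofReal_le_ofReal (hgrad y)
      _ = ∫⁻ y, ∫⁻ x, ENNReal.ofReal (ρ (y - f x) * G x) := by
          congr 1
          funext y
          rw [ofReal_integral_eq_lintegral_ofReal (hρGint y)]
          exact Eventually.of_forall fun x => mul_nonneg (hρ0 _) (hG0 x)
      _ = ∫⁻ x, ∫⁻ y, ENNReal.ofReal (ρ (y - f x) * G x) := by
          apply lintegral_lintegral_swap
          apply Measurable.aemeasurable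
          apply ENNReal.measurable_ofReal.comp
          apply Continuous.measurable
          exact (hρcont.comp (continuous_fst.sub (hfc.comp continuous_snd))).mul
            (hGcont.comp continuous_snd)
      _ = ∫⁻ x, ENNReal.ofReal (G x) := by
          congr 1
          funext x
          have h1 : ∀ y, ENNReal.ofReal (ρ (y - f x) * G x) =
              ENNReal.ofReal (G x) * ENNReal.ofReal (ρ (y - f x)) := by
            intro y
            rw [mul_comm, ENNReal.ofReal_mul (hG0 x)]
          simp only [h1]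
          rw [lintegral_const_mul']
          · rw [lintegral_sub_right_eq_self (fun y => ENNReal.ofReal (ρ y)) (f x),
              ← ofReal_integral_eq_lintegral_ofReal
                (hρcont.integrable_of_hasCompactSupport hρc)
                (Eventually.of_forall hρ0), hρ1]
            simp
          · exact ENNReal.ofReal_ne_top
      _ = ENNReal.ofReal (∫ x, G x) := by
          rw [ofReal_integral_eq_lintegral_ofReal hGint (Eventually.of_forall hG0)]
      _ ≤ ENNReal.ofReal A := ENNReal.ofReal_le_ofReal hA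
  have hA0 : 0 ≤ A := (integral_nonneg hG0).trans hA
  have hn1 : (1 : ℝ) < n := by exact_mod_cast hn
  have hp : Real.HolderConjugate (Fintype.card (Fin n) : ℝ) ((n : ℝ) / ((n : ℝ) - 1)) := by
    rw [Fintype.card_fin]
    exact Real.HolderConjugate.conjExponent hn1
  have hp0 : 0 ≤ (n : ℝ) / ((n : ℝ) - 1) := hp.symm.nonneg
  have key := lintegral_pow_le_pow_lintegral_fderiv_aux hp hw1 hwc
  calc ∫⁻ y, ENNReal.ofReal (|∫ x, ρ (y - f x) * (h x * (jac f x).det)| ^
        ((n : ℝ) / ((n : ℝ) - 1))) = ∫⁻ y, ‖w y‖ₑ ^ ((n : ℝ) / ((n : ℝ) - 1)) := by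
        congr 1
        funext y
        rw [← ENNReal.ofReal_rpow_of_nonneg (abs_nonneg _) hp0, ← Real.norm_eq_abs,
          ofReal_norm]
    _ ≤ (∫⁻ x, ‖fderiv ℝ w x‖ₑ) ^ ((n : ℝ) / ((n : ℝ) - 1)) := key
    _ ≤ (ENNReal.ofReal A) ^ ((n : ℝ) / ((n : ℝ) - 1)) := by
        exact ENNReal.rpow_le_rpow hgint hp0
    _ = ENNReal.ofReal (1 * A ^ ((n : ℝ) / ((n : ℝ) - 1))) := by
        rw [one_mul, ENNReal.ofReal_rpow_of_nonneg hA0 hp0]


end H248.ID.J04a

namespace H248.ID

export J04a (iso_push)

end H248.ID
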