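import Pool.Agent.H248.ID.Defs

set_option autoImplicit false
open MeasureTheory Metric Set Filter Topology
open scoped ENNReal NNReal ContDiff

namespace H248.ID.J06



lemma vol_cb {n : ℕ} (a : E n) {ρ : ℝ} (hρ : 0 ≤ ρ) :
    volume (closedBall a ρ) = ENNReal.ofReal ((2 * ρ) ^ n) := by
  rw [Real.volume_pi_closedBall a hρ, Fintype.card_fin]

/-- sum of volumes of disjoint balls inside a set of finite measure -/
lemma sum_vol {n : ℕ} {ι : Type} [DecidableEq ι] (T : Finset ι) (c : ι → E n) (ρ : ι → ℝ)
    (hρ : ∀ i ∈ T, 0 ≤ ρ i)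
    (hd : ∀ i ∈ T, ∀ j ∈ T, i ≠ j → Disjoint (closedBall (c i) (ρ i)) (closedBall (c j) (ρ j)))
    (A : Set (E n)) (hA : volume A < ⊤) (hsub : ∀ i ∈ T, closedBall (c i) (ρ i) ⊆ A) :
    ∑ i ∈ T, (2 * ρ i) ^ n ≤ (volume A).toReal := by
  have h1 : ∑ i ∈ T, volume (closedBall (c i) (ρ i)) ≤ volume A := by
    rw [← measure_biUnion_finset]
    · apply measure_mono
      intro x hx
      simp only [mem_iUnion] at hx
      obtain ⟨i, hi, hx⟩ := hx
      exact hsub i hi hx
    · intro i hi j hj hij
      exact hd i hi j hj hij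
    · intro i _
      exact isClosed_closedBall.measurableSet
  have h2 : ∑ i ∈ T, volume (closedBall (c i) (ρ i)) = ENNReal.ofReal (∑ i ∈ T, (2 * ρ i) ^ n) := by
    rw [ENNReal.ofReal_sum_of_nonneg]
    · apply Finset.sum_congr rfl
      intro i hi
      exact vol_cb _ (hρ i hi)
    · intro i hi
      have := hρ i hi
      positivity
  rw [h2] at h1
  exact (ENNReal.ofReal_le_iff_le_toReal hA.ne).mp h1



open Classical in
/-- L5. covering lemma -/
theorem covering {n : ℕ} (hn : 1 ≤ n) : ∃ C : ℝ, 0 < C ∧ ∀ (U K : Set (E n)), IsOpen U →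
    volume U < ⊤ → IsCompact K → K ⊆ U →
    ∃ (N : ℕ) (c : Fin N → E n) (r : Fin N → ℝ),
      (∀ i, c i ∈ K) ∧ (∀ i, 0 < r i) ∧
      (K ⊆ ⋃ i, closedBall (c i) (r i)) ∧
      (∀ i, (2 * (10 * r i)) ^ n ≤ (volume U).toReal) ∧
      (∀ i, ∃ z ∉ U, dist (c i) z = 10 * r i) ∧
      (∑ i, r i ^ n ≤ C * (volume U).toReal) ∧
      (∀ i, ∑ j with (closedBall (c i) (3 * r i) ∩ closedBall (c j) (3 * r j)).Nonempty,
        r j ^ (n - 1) ≤ C * r i ^ (n - 1)) := by
  refine ⟨2 * 50 ^ n, by positivity, ?_⟩
  intro U K hU hUv hK hKU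
  set V := (volume U).toReal with hV
  have hV0 : 0 ≤ V := ENNReal.toReal_nonneg
  have hn0 : n ≠ 0 := by omega
  -- complement is nonempty
  have hne : (Uᶜ).Nonempty := by
    rw [nonempty_compl]
    intro huniv
    have h1 : closedBall (0 : E n) (V + 1) ⊆ U := by rw [huniv]; exact subset_univ _
    have h2 := measure_mono (μ := volume) h1
    rw [vol_cb _ (by linarith)] at h2
    have h3 := (ENNReal.ofReal_le_iff_le_toReal hUv.ne).mp h2
    have h4 : 2 * (V + 1) ≤ (2 * (V + 1)) ^ n := le_self_pow₀ (by linarith) hn0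
    linarith
  have hcl : IsClosed Uᶜ := hU.isClosed_compl
  set r : E n → ℝ := fun x => infDist x Uᶜ / 10 with hr
  have hrpos : ∀ x ∈ K, 0 < r x := by
    intro x hx
    have h1 : x ∉ Uᶜ := fun h => h (hKU hx)
    have h2 := (hcl.notMem_iff_infDist_pos hne).mp h1
    simp only [hr]; linarith
  have hrz : ∀ x, ∃ z ∉ U, dist x z = 10 * r x := by
    intro x
    obtain ⟨z, hz, hz'⟩ := hcl.exists_infDist_eq_dist hne x
    refine ⟨z, hz, ?_⟩
    simp only [hr]; rw [← hz']; ring
  have hball : ∀ x, ball x (10 * r x) ⊆ U := by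
    intro x y hy
    by_contra hyU
    have h1 : infDist x Uᶜ ≤ dist x y := infDist_le_dist_of_mem hyU
    rw [mem_ball, dist_comm] at hy
    simp only [hr] at hy
    linarith
  have hrV : ∀ x ∈ K, (2 * (10 * r x)) ^ n ≤ V := by
    intro x hx
    have h0 := hrpos x hx
    have h1 := measure_mono (μ := volume) (hball x)
    rw [Real.volume_pi_ball _ (by linarith), Fintype.card_fin] at h1
    exact (ENNReal.ofReal_le_iff_le_toReal hUv.ne).mp h1
  have hlip : ∀ x y, r x ≤ r y + dist x y / 10 := by
    intro x y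
    have := infDist_le_infDist_add_dist (s := Uᶜ) (x := x) (y := y)
    simp only [hr]; linarith
  have hrbd : ∀ x ∈ K, r x / 5 ≤ max 1 V := by
    intro x hx
    have h0 := hrpos x hx
    by_cases h1 : 2 * (10 * r x) ≤ 1
    · have := le_max_left 1 V
      linarith
    · push Not at h1
      have h2 : 2 * (10 * r x) ≤ (2 * (10 * r x)) ^ n := le_self_pow₀ h1.le hn0
      have h3 := hrV x hx
      have := le_max_right 1 V
      linarith
  obtain ⟨u, huK, hudisj, hucov⟩ := Vitali.exists_disjoint_subfamily_covering_enlargement_closedBall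
    K (fun x : E n => x) (fun x => r x / 5) (max 1 V) hrbd 5 (by norm_num)
  -- finiteness of u
  have hufin : u.Finite := by
    rcases K.eq_empty_or_nonempty with hK0 | hKne
    · have : u = ∅ := subset_eq_empty huK hK0
      rw [this]; exact finite_empty
    · have hrc : ContinuousOn r K := by
        have : Continuous r := (continuous_infDist_pt _).div_const _
        exact this.continuousOn
      obtain ⟨x0, hx0, hmin⟩ := hK.exists_isMinOn hKne hrc
      have hr0 : 0 < r x0 := hrpos x0 hx0
      have hfin := Measure.finite_const_le_meas_of_disjoint_iUnion (volume : Measure (E n))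
        (ε := ENNReal.ofReal ((2 * (r x0 / 5)) ^ n)) (ENNReal.ofReal_pos.mpr (by positivity))
        (As := fun x : u => closedBall (x : E n) (r x / 5))
        (fun x => isClosed_closedBall.measurableSet)
        (by
          intro x y hxy
          exact hudisj x.2 y.2 (fun h => hxy (Subtype.ext h)))
        (by
          apply ne_top_of_le_ne_top hUv.ne
          apply measure_mono
          apply iUnion_subset
          intro x
          have h0 := hrpos x (huK x.2)
          refine Subset.trans ?_ (hball x)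
          apply closedBall_subset_ball
          linarith)
      have hall : {x : u | ENNReal.ofReal ((2 * (r x0 / 5)) ^ n) ≤
          volume (closedBall (x : E n) (r x / 5))} = univ := by
        apply eq_univ_of_forall
        intro x
        have h0 := hrpos x (huK x.2)
        have h1 : r x0 ≤ r x := hmin (huK x.2)
        change ENNReal.ofReal ((2 * (r x0 / 5)) ^ n) ≤ volume (closedBall (x : E n) (r x / 5))
        rw [vol_cb _ (by linarith)]
        apply ENNReal.ofReal_le_ofReal
        apply pow_le_pow_left₀ (by positivity)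
        linarith
      rw [hall] at hfin
      have : Finite u := Set.finite_univ_iff.mp hfin
      exact Set.toFinite u
  set s : Finset (E n) := hufin.toFinset with hs
  have hsu : ∀ x, x ∈ s ↔ x ∈ u := fun x => hufin.mem_toFinset
  let e : Fin s.card ≃ s := s.equivFin.symm
  set c : Fin s.card → E n := fun i => (e i : E n) with hc
  have hcu : ∀ i, c i ∈ u := fun i => (hsu _).mp (e i).2
  have hcK : ∀ i, c i ∈ K := fun i => huK (hcu i)
  have hcinj : ∀ i j, c i = c j → i = j := by
    intro i j h
    exact e.injective (Subtype.ext h)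
  have hrc0 : ∀ i, 0 < r (c i) := fun i => hrpos _ (hcK i)
  have hcd : ∀ i j, i ≠ j → Disjoint (closedBall (c i) (r (c i) / 5))
      (closedBall (c j) (r (c j) / 5)) := fun i j hij =>
    hudisj (hcu i) (hcu j) (fun h => hij (hcinj i j h))
  refine ⟨s.card, c, fun i => r (c i), hcK, hrc0, ?_, fun i => hrV _ (hcK i), fun i => hrz _, ?_, ?_⟩
  · intro x hx
    obtain ⟨b, hb, hsub⟩ := hucov x hx
    rw [mem_iUnion]
    refine ⟨e.symm ⟨b, (hsu b).mpr hb⟩, ?_⟩
    have h1 : c (e.symm ⟨b, (hsu b).mpr hb⟩) = b := by simp [hc]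
    change x ∈ closedBall (c (e.symm ⟨b, (hsu b).mpr hb⟩)) (r (c (e.symm ⟨b, (hsu b).mpr hb⟩)))
    rw [h1]
    have h2 : x ∈ closedBall x (r x / 5) := mem_closedBall_self (by
      have := hrpos x hx; linarith)
    have h3 := hsub h2
    have h4 : 5 * (r b / 5) = r b := by ring
    rwa [h4] at h3
  · have h1 := sum_vol Finset.univ c (fun i => r (c i) / 5) (fun i _ => by
      have := hrc0 i; positivity) (fun i _ j _ hij => hcd i j hij) U hUv (fun i _ => by
        have h0 := hrc0 i
        refine Subset.trans ?_ (hball (c i))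
        apply closedBall_subset_ball
        linarith)
    have h2 : ∀ i, (r (c i)) ^ n = (5 / 2) ^ n * (2 * (r (c i) / 5)) ^ n := by
      intro i
      rw [← mul_pow]
      congr 1
      ring
    simp_rw [h2]
    rw [← Finset.mul_sum]
    have h3 : (5 / 2 : ℝ) ^ n ≤ 2 * 50 ^ n := by
      have : (5 / 2 : ℝ) ^ n ≤ 50 ^ n := pow_le_pow_left₀ (by norm_num) (by norm_num) n
      have h50 : (0:ℝ) < 50 ^ n := by positivity
      linarith
    exact mul_le_mul h3 h1 (Finset.sum_nonneg fun i _ => by
      have := hrc0 i; positivity) (by positivity)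
  · intro i
    have hi0 := hrc0 i
    have hnb : ∀ j, (closedBall (c i) (3 * r (c i)) ∩ closedBall (c j) (3 * r (c j))).Nonempty →
        r (c i) / 2 ≤ r (c j) ∧ closedBall (c j) (r (c j) / 5) ⊆ closedBall (c i) (10 * r (c i)) := by
      rintro j ⟨y, hy1, hy2⟩
      have hj0 := hrc0 j
      rw [mem_closedBall] at hy1 hy2
      have hdist : dist (c i) (c j) ≤ 3 * r (c i) + 3 * r (c j) := by
        calc dist (c i) (c j) ≤ dist (c i) y + dist y (c j) := dist_triangle _ _ _
          _ ≤ _ := by rw [dist_comm (c i) y]; linarith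
      have hl1 := hlip (c i) (c j)
      have hl2 := hlip (c j) (c i)
      rw [dist_comm (c j) (c i)] at hl2
      refine ⟨by linarith, ?_⟩
      apply closedBall_subset_closedBall'
      rw [dist_comm (c j) (c i)]
      linarith
    set T := (Finset.univ.filter fun j =>
      (closedBall (c i) (3 * r (c i)) ∩ closedBall (c j) (3 * r (c j))).Nonempty) with hT
    have hTm : ∀ j ∈ T, (closedBall (c i) (3 * r (c i)) ∩ closedBall (c j) (3 * r (c j))).Nonempty :=
      fun j hj => (Finset.mem_filter.mp hj).2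
    have hvA : volume (closedBall (c i) (10 * r (c i))) < ⊤ := by
      rw [vol_cb _ (by linarith)]
      exact ENNReal.ofReal_lt_top
    have h1 := sum_vol T c (fun j => r (c j) / 5) (fun j _ => by
      have := hrc0 j; positivity) (fun j _ k _ hjk => hcd j k hjk)
      (closedBall (c i) (10 * r (c i))) hvA (fun j hj => (hnb j (hTm j hj)).2)
    rw [vol_cb _ (by linarith), ENNReal.toReal_ofReal (by positivity)] at h1
    have h2 : ∀ j ∈ T, r (c j) ^ (n - 1) ≤ (2 / r (c i)) * (5 / 2) ^ n * (2 * (r (c j) / 5)) ^ n := by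
      intro j hj
      have hj0 := hrc0 j
      have hj1 := (hnb j (hTm j hj)).1
      have e1 : (2 / r (c i)) * (5 / 2) ^ n * (2 * (r (c j) / 5)) ^ n =
          (2 / r (c i)) * r (c j) ^ n := by
        rw [mul_assoc, ← mul_pow]
        congr 2
        ring
      rw [e1]
      have e2 : r (c j) ^ n = r (c j) ^ (n - 1) * r (c j) := by
        rw [← pow_succ]; congr 1; omega
      rw [e2]
      have e3 : 1 ≤ 2 / r (c i) * r (c j) := by
        rw [div_mul_eq_mul_div, le_div_iff₀ hi0]
        linarith
      have e4 : 0 < r (c j) ^ (n - 1) := by positivity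
      calc r (c j) ^ (n - 1) = r (c j) ^ (n - 1) * 1 := by ring
        _ ≤ r (c j) ^ (n - 1) * (2 / r (c i) * r (c j)) := mul_le_mul_of_nonneg_left e3 e4.le
        _ = _ := by ring
    calc ∑ j ∈ T, r (c j) ^ (n - 1)
        ≤ ∑ j ∈ T, (2 / r (c i)) * (5 / 2) ^ n * (2 * (r (c j) / 5)) ^ n := Finset.sum_le_sum h2
      _ = (2 / r (c i)) * (5 / 2) ^ n * ∑ j ∈ T, (2 * (r (c j) / 5)) ^ n := by
          rw [← Finset.mul_sum]
      _ ≤ (2 / r (c i)) * (5 / 2) ^ n * (2 * (10 * r (c i))) ^ n := by
          apply mul_le_mul_of_nonneg_left h1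
          positivity
      _ = 2 * 50 ^ n * r (c i) ^ (n - 1) := by
          have e1 : (5 / 2 : ℝ) ^ n * (2 * (10 * r (c i))) ^ n = 50 ^ n * r (c i) ^ n := by
            rw [← mul_pow, ← mul_pow]
            congr 1
            ring
          have e2 : r (c i) ^ n = r (c i) ^ (n - 1) * r (c i) := by
            rw [← pow_succ]; congr 1; omega
          rw [mul_assoc, e1, e2]
          field_simp


end H248.ID.J06

namespace H248.ID

export J06 (covering)

end H248.ID
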